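import Mathlib
import Pool.Agent.Work.MP_4329d7_ag.FDefs
import Pool.Agent.Work.MP_4329d7_ag_uni.Defs

/-!
THEOREM V: nondegenerate complete intersections in tori have a nonzero pluricanonical form or are
uniruled.  Definitions and their basic properties.

* `Lau d`: Laurent polynomials in `d` variables; `mon x χ = x ^ χ`; `ev f x` = value;
  `ldv f j x` = value of `x_j ∂f/∂x_j`;
* `pair χ b = ⟨χ, b⟩`; `ini b f` = the initial form; `mn f b` = the minimum of `⟨χ, b⟩` on the
  support of `f`;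
* `Pts f` = the pairs (equation, exponent); `blk f b : Pts f → ℕ`, `(q, χ) ↦ ⟨χ, b⟩ - mn (f q) b`;
  this turns the root systems into those of `MP_4329d7_ag_uni` with `I = Q`, `f = Sigma.fst`,
  `g = id`.
-/

namespace Pool.Agent.Work.CI

open Pool.Agent.Work.Uni

/-- Laurent polynomials in `d` variables with complex coefficients (exponent ↦ coefficient) -/
abbrev Lau (d : ℕ) : Type := (Fin d → ℤ) →₀ ℂ

/-- the monomial `x ^ χ` -/
noncomputable def mon {F : Type*} [Field F] {d : ℕ} (x : Fin d → F) (χ : Fin d → ℤ) : F :=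
  ∏ j, x j ^ χ j

/-- the value of the Laurent polynomial `f` at `x` -/
noncomputable def ev {F : Type*} [Field F] [Algebra ℂ F] {d : ℕ} (f : Lau d) (x : Fin d → F) : F :=
  ∑ χ ∈ f.support, algebraMap ℂ F (f χ) * mon x χ

/-- the value of the logarithmic derivative `x_j ∂f/∂x_j` at `x` -/
noncomputable def ldv {F : Type*} [Field F] [Algebra ℂ F] {d : ℕ} (f : Lau d) (j : Fin d)
    (x : Fin d → F) : F :=
  ∑ χ ∈ f.support, algebraMap ℂ F (f χ) * (χ j : F) * mon x χ

/-- `⟨χ, b⟩` -/
def pair {d : ℕ} (χ b : Fin d → ℤ) : ℤ := ∑ j, χ j * b j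

open Classical in
/-- the initial form of `f` for the weights `b`: the terms with minimal `⟨χ, b⟩` -/
noncomputable def ini {d : ℕ} (b : Fin d → ℤ) (f : Lau d) : Lau d :=
  f.filter fun χ => ∀ χ' ∈ f.support, pair χ b ≤ pair χ' b

/-- The system `f` is nondegenerate: for all weights `b`, the differentials of the initial forms
are linearly independent at all common zeros of the initial forms in the torus `(ℂ*)^d`. -/
def Nondegenerate {Q : Type} {d : ℕ} (f : Q → Lau d) : Prop :=
  ∀ (b : Fin d → ℤ) (y : Fin d → ℂ), (∀ j, y j ≠ 0) → (∀ q, ev (ini b (f q)) y = 0) →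
    LinearIndependent ℂ (fun q j => ldv (ini b (f q)) j y)

/-- the minimum of `⟨χ, b⟩` on the support of `f` -/
noncomputable def mn {d : ℕ} (f : Lau d) (b : Fin d → ℤ) : ℤ :=
  sInf ((fun χ => pair χ b) '' (f.support : Set (Fin d → ℤ)))

/-- The data of a complete intersection: `x` = the coordinates, `f` = the equations, `n` = the
dimension.  `loc` is the consequence of nondegeneracy which is used: for every valuation `v` the
equations are nondegenerate at the centre of `v`. -/
structure Data (K : Type) [Field K] [Algebra ℂ K] (n d : ℕ) (Q : Type) [Fintype Q]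
    (x : Fin d → K) (f : Q → Lau d) : Prop where
  ne : ∀ j, x j ≠ 0
  gen : IntermediateField.adjoin ℂ (Set.range x) = ⊤
  eq : ∀ q, ev (f q) x = 0
  nz : ∀ q, f q ≠ 0
  trdeg : Algebra.trdeg ℂ K = n
  dim : n + Fintype.card Q = d
  loc : ∀ v : Valuation K (WithZero (Multiplicative ℤ)), (∀ c : ℂ, v (algebraMap ℂ K c) ≤ 1) →
    ∀ (a : Q → K) (q : Q), ∀ χ ∈ (f q).support,
      ∃ j, v (a q) * v (mon x χ) ≤ v (∑ q', a q' * ldv (f q') j x)

/-- the differences of the exponents span -/
def Full {Q : Type} {d : ℕ} (f : Q → Lau d) : Prop :=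
  ∀ b : Fin d → ℤ, (∀ q, ∀ χ ∈ (f q).support, ∀ χ' ∈ (f q).support, pair χ b = pair χ' b) → b = 0

/-- the pairs (equation, exponent) -/
abbrev Pts {Q : Type} {d : ℕ} (f : Q → Lau d) : Type := Σ q, (f q).support

/-- the block of `b` -/
noncomputable def blk {Q : Type} {d : ℕ} (f : Q → Lau d) (b : Fin d → ℤ) : Pts f → ℕ :=
  fun p => (pair p.2.1 b - mn (f p.1) b).toNat

/-- the block data of `f` -/
def blocks {Q : Type} {d : ℕ} (f : Q → Lau d) : BlockData (Pts f) where
  L :=
    { carrier := {u | ∃ b : Fin d → ℤ, ∀ q (χ χ' : (f q).support),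
        u ⟨q, χ⟩ - u ⟨q, χ'⟩ = pair χ.1 b - pair χ'.1 b}
      zero_mem' := ⟨0, fun q χ χ' => by simp [pair]⟩
      add_mem' := by
        rintro u u' ⟨b, h⟩ ⟨b', h'⟩
        refine ⟨b + b', fun q χ χ' => ?_⟩
        have h1 := h q χ χ'
        have h2 := h' q χ χ'
        simp only [pair, Pi.add_apply, mul_add, Finset.sum_add_distrib] at h1 h2 ⊢
        linarith
      neg_mem' := by
        rintro u ⟨b, h⟩
        refine ⟨-b, fun q χ χ' => ?_⟩
        have h1 := h q χ χ'
        simp only [pair, Pi.neg_apply, mul_neg, Finset.sum_neg_distrib] at h1 ⊢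
        linarith }
  Small := fun s => ∀ q, ∃ χ : (f q).support, (⟨q, χ⟩ : Pts f) ∉ s
  mono := fun s t hst h q => (h q).imp fun χ hχ h' => hχ (hst h')

open Classical in
/-- the coefficients of the relations at the point `x` -/
noncomputable def coef {Q : Type} {d : ℕ} {F : Type} [Field F] [Algebra ℂ F] (f : Q → Lau d)
    (x : Fin d → F) : Q → Pts f → F :=
  fun q p => if p.1 = q then algebraMap ℂ F (f p.1 p.2.1) * mon x p.2.1 else 0

section basic

variable {Q : Type} {d : ℕ}

theorem pair_add (χ b b' : Fin d → ℤ) : pair χ (b + b') = pair χ b + pair χ b' := by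
  simp [pair, mul_add, Finset.sum_add_distrib]

theorem pair_sub (χ b b' : Fin d → ℤ) : pair χ (b - b') = pair χ b - pair χ b' := by
  simp [pair, mul_sub, Finset.sum_sub_distrib]

theorem pair_zero (χ : Fin d → ℤ) : pair χ 0 = 0 := by simp [pair]

theorem add_pair (χ χ' b : Fin d → ℤ) : pair (χ + χ') b = pair χ b + pair χ' b := by
  simp [pair, add_mul, Finset.sum_add_distrib]

theorem sub_pair (χ χ' b : Fin d → ℤ) : pair (χ - χ') b = pair χ b - pair χ' b := by
  simp [pair, sub_mul, Finset.sum_sub_distrib]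

theorem pair_sum {ι : Type*} (χ : Fin d → ℤ) (s : Finset ι) (b : ι → Fin d → ℤ) :
    pair χ (∑ i ∈ s, b i) = ∑ i ∈ s, pair χ (b i) := by
  classical
  induction s using Finset.induction_on with
  | empty => simp [pair_zero]
  | insert i s hi ih => rw [Finset.sum_insert hi, Finset.sum_insert hi, pair_add, ih]

theorem pair_smul (χ b : Fin d → ℤ) (m : ℤ) : pair χ (m • b) = m * pair χ b := by
  simp only [pair, Pi.smul_apply, smul_eq_mul, Finset.mul_sum]
  exact Finset.sum_congr rfl fun j _ => by ring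

theorem mn_le {f : Lau d} {χ : Fin d → ℤ} (h : χ ∈ f.support) (b : Fin d → ℤ) :
    mn f b ≤ pair χ b := by
  refine csInf_le ?_ ⟨χ, h, rfl⟩
  exact (f.support.finite_toSet.image _).bddBelow

theorem exists_mn {f : Lau d} (h : f ≠ 0) (b : Fin d → ℤ) :
    ∃ χ ∈ f.support, pair χ b = mn f b := by
  have hne : ((fun χ => pair χ b) '' (f.support : Set (Fin d → ℤ))).Nonempty := by
    obtain ⟨χ, hχ⟩ := Finsupp.support_nonempty_iff.2 h
    exact ⟨_, χ, hχ, rfl⟩
  have := Int.csInf_mem hne (f.support.finite_toSet.image _).bddBelow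
  obtain ⟨χ, h1, h2⟩ := this
  exact ⟨χ, h1, h2⟩

theorem blk_cast (f : Q → Lau d) (b : Fin d → ℤ) (p : Pts f) :
    (blk f b p : ℤ) = pair p.2.1 b - mn (f p.1) b := by
  unfold blk
  rw [Int.toNat_of_nonneg]
  have := mn_le p.2.2 b
  linarith

theorem mon_add {F : Type*} [Field F] {x : Fin d → F} (hx : ∀ j, x j ≠ 0) (χ χ' : Fin d → ℤ) :
    mon x (χ + χ') = mon x χ * mon x χ' := by
  unfold mon
  rw [← Finset.prod_mul_distrib]
  exact Finset.prod_congr rfl fun j _ => zpow_add₀ (hx j) _ _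

theorem mon_ne_zero {F : Type*} [Field F] {x : Fin d → F} (hx : ∀ j, x j ≠ 0) (χ : Fin d → ℤ) :
    mon x χ ≠ 0 :=
  Finset.prod_ne_zero_iff.2 fun j _ => zpow_ne_zero _ (hx j)

theorem mon_zero {F : Type*} [Field F] (x : Fin d → F) : mon x 0 = 1 := by
  simp [mon]

theorem isBlock_blk (f : Q → Lau d) (hf : ∀ q, f q ≠ 0) (hfull : Full f) [Fintype Q]
    {b : Fin d → ℤ} (hb : b ≠ 0) : (blocks f).IsBlock (blk f b) := by
  refine ⟨?_, ⟨b, fun q χ χ' => ?_⟩, fun q => ?_⟩
  · intro h
    apply hb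
    refine hfull b fun q χ hχ χ' hχ' => ?_
    have h1 := blk_cast f b ⟨q, ⟨χ, hχ⟩⟩
    have h2 := blk_cast f b ⟨q, ⟨χ', hχ'⟩⟩
    rw [h] at h1 h2
    simp only [Pi.zero_apply, Nat.cast_zero] at h1 h2
    linarith
  · simp only
    rw [blk_cast, blk_cast]
    simp only
    ring
  · obtain ⟨χ, hχ, h⟩ := exists_mn (hf q) b
    refine ⟨⟨χ, hχ⟩, fun h1 => ?_⟩
    rw [Finset.mem_filter] at h1
    apply h1.2
    have h2 := blk_cast f b ⟨q, ⟨χ, hχ⟩⟩
    simp only at h2
    rw [h, sub_self] at h2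
    exact_mod_cast h2

/-- every block is the block of some `b ≠ 0` -/
theorem exists_blk (f : Q → Lau d) (hf : ∀ q, f q ≠ 0) [Fintype Q] {β : Pts f → ℕ}
    (hβ : (blocks f).IsBlock β) : ∃ b : Fin d → ℤ, b ≠ 0 ∧ β = blk f b := by
  obtain ⟨h0, ⟨b, hb⟩, hs⟩ := hβ
  have key : β = blk f b := by
    funext p
    obtain ⟨q, χ⟩ := p
    have h1 : (β ⟨q, χ⟩ : ℤ) = blk f b ⟨q, χ⟩ := by
      rw [blk_cast]
      simp only
      obtain ⟨χ0, hχ0⟩ := hs q
      have h2 : (β ⟨q, χ0⟩ : ℤ) = 0 := by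
        by_contra hne
        apply hχ0
        rw [Finset.mem_filter]
        exact ⟨Finset.mem_univ _, by exact_mod_cast hne⟩
      have h3 : ∀ χ : (f q).support, (β ⟨q, χ⟩ : ℤ) = pair χ.1 b - pair χ0.1 b := by
        intro χ
        have := hb q χ χ0
        simp only at this
        rw [h2, sub_zero] at this
        exact this
      have h4 : pair χ0.1 b = mn (f q) b := by
        apply le_antisymm _ (mn_le χ0.2 b)
        obtain ⟨χ1, hχ1, h5⟩ := exists_mn (hf q) b
        have h6 := h3 ⟨χ1, hχ1⟩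
        simp only at h6
        have h7 : (0 : ℤ) ≤ β ⟨q, ⟨χ1, hχ1⟩⟩ := Int.natCast_nonneg _
        rw [← h5]
        linarith
      rw [h3, h4]
    exact_mod_cast h1
  refine ⟨b, ?_, key⟩
  rintro rfl
  apply h0
  rw [key]
  funext p
  have h1 := blk_cast f 0 p
  rw [pair_zero] at h1
  obtain ⟨χ, hχ, h5⟩ := exists_mn (hf p.1) 0
  rw [pair_zero] at h5
  rw [← h5] at h1
  simpa using h1

theorem coef_isCoef [Fintype Q] {F : Type} [Field F] [Algebra ℂ F] (f : Q → Lau d) (x : Fin d → F)
    (h : ∀ q, ev (f q) x = 0) : Coef (Sigma.fst : Pts f → Q) id (coef f x) := by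
  classical
  constructor
  · intro q p hp
    by_contra hne
    apply hp
    unfold coef
    exact if_neg hne
  · intro q
    rw [← h q, Fintype.sum_sigma, Finset.sum_eq_single q]
    · simp only [coef, if_true]
      rw [Finset.sum_coe_sort (f q).support (fun χ => algebraMap ℂ F (f q χ) * mon x χ)]
      rfl
    · intro q' _ hq'
      refine Finset.sum_eq_zero fun χ _ => ?_
      unfold coef
      rw [if_neg hq']
    · intro hq
      exact absurd (Finset.mem_univ _) hq

end basic

end Pool.Agent.Work.CI
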