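import Mathlib
import Pool.Agent.Work.MP_4329d7_ag_ci.Defs
import Pool.Agent.Work.MP_4329d7_ag_uni.CurveExt
import Pool.Agent.Work.MP_4329d7_ag.Ext

/-!
Infinitesimal lifting for `exists_hom`: if the Jacobian of the equations `P q` has rank `card Q` at
the generic point `x`, then every relation of `x` is a relation of a power series point `Y` which
solves the equations and has value `x` at `0`.
-/

namespace Pool.Agent.Work.CI

open MvPolynomial

/-- the chain rule -/
theorem curve_chain {σ A M : Type} [Fintype σ] [CommRing A] [Algebra ℂ A] [AddCommGroup M]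
    [Module A M] [Module ℂ M] (D : Derivation ℂ A M) (y : σ → A) (p : MvPolynomial σ ℂ) :
    D (aeval y p) = ∑ j, aeval y (pderiv j p) • D (y j) := by
  classical
  induction p using MvPolynomial.induction_on with
  | C a =>
    simp only [aeval_C, Derivation.map_algebraMap, pderiv_C, map_zero, zero_smul,
      Finset.sum_const_zero]
  | add p q hp hq =>
    simp only [map_add, hp, hq, add_smul, Finset.sum_add_distrib]
  | mul_X p n hp =>
    rw [map_mul, aeval_X, Derivation.leibniz, hp]
    have h1 : ∀ j, aeval y (pderiv j (p * X n)) • D (y j) =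
        (if j = n then aeval y p • D (y j) else 0) + y n • (aeval y (pderiv j p) • D (y j)) := by
      intro j
      rw [pderiv_mul, map_add, map_mul, map_mul, aeval_X, add_smul, pderiv_X]
      by_cases hj : j = n
      · subst hj
        rw [if_pos rfl, Pi.single_eq_same, map_one, mul_one, add_comm, mul_comm, mul_smul]
      · rw [if_neg hj, Pi.single_eq_of_ne (fun h => hj h.symm), map_zero, mul_zero, zero_smul,
          mul_comm, mul_smul, add_zero, zero_add]
    simp only [h1, Finset.sum_add_distrib, Finset.sum_ite_eq', Finset.mem_univ, if_true,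
      Finset.smul_sum]

/-- linear algebra: the vectors orthogonal to `M` are spanned by `r` -/
theorem curve_span {K : Type} [Field K] {d : ℕ} {Q I : Type} [Fintype Q] [Fintype I]
    (r : Q → Fin d → K) (M : I → Fin d → K) (hr : LinearIndependent K r)
    (hM : LinearIndependent K M) (hdim : Fintype.card I + Fintype.card Q = d)
    (horth : ∀ q i, ∑ j, r q j * M i j = 0) (g : Fin d → K) (hg : ∀ i, ∑ j, g j * M i j = 0) :
    ∃ a : Q → K, ∀ j, g j = ∑ q, a q * r q j := by
  classical
  set T : (Fin d → K) →ₗ[K] (I → K) := Matrix.mulVecLin (Matrix.of M) with hT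
  have hTr : ∀ v : Fin d → K, v ∈ LinearMap.ker T ↔ ∀ i, ∑ j, v j * M i j = 0 := by
    intro v
    rw [LinearMap.mem_ker, hT, Matrix.mulVecLin_apply, funext_iff]
    refine forall_congr' fun i => ?_
    rw [Matrix.mulVec, dotProduct]
    simp only [Matrix.of_apply, Pi.zero_apply, mul_comm]
  have hrank : Module.finrank K (LinearMap.range T) = Fintype.card I := by
    have h1 := LinearIndependent.rank_matrix (M := Matrix.of M) (by exact hM)
    rw [Matrix.rank] at h1
    exact h1
  have hker : Module.finrank K (LinearMap.ker T) = Fintype.card Q := by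
    have h1 := LinearMap.finrank_range_add_finrank_ker T
    rw [hrank, Module.finrank_fin_fun] at h1
    omega
  have hle : Submodule.span K (Set.range r) ≤ LinearMap.ker T := by
    rw [Submodule.span_le]
    rintro _ ⟨q, rfl⟩
    exact (hTr _).2 (horth q)
  have heq : Submodule.span K (Set.range r) = LinearMap.ker T := by
    refine Submodule.eq_of_le_of_finrank_eq hle ?_
    rw [hker, finrank_span_eq_card hr]
  have hmem : g ∈ Submodule.span K (Set.range r) := by
    rw [heq]
    exact (hTr g).2 hg
  obtain ⟨a, ha⟩ := (Submodule.mem_span_range_iff_exists_fun K).1 hmem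
  refine ⟨a, fun j => ?_⟩
  rw [← ha, Finset.sum_apply]
  rfl

/-- the rows of the derivatives are independent -/
theorem curve_frame {K : Type} [Field K] [Algebra ℂ K] {d n : ℕ} (x : Fin d → K)
    (hgen : IntermediateField.adjoin ℂ (Set.range x) = ⊤) (htr : Algebra.trdeg ℂ K = n) :
    ∃ (I : Type) (_ : Fintype I) (D : I → Derivation ℂ K K), Fintype.card I = n ∧
      LinearIndependent K (fun i j => D i (x j)) := by
  classical
  obtain ⟨s, hs⟩ := exists_isTranscendenceBasis ℂ K
  have hcard : Cardinal.mk s = n := by
    rw [← htr]
    exact hs.cardinalMk_eq_trdeg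
  have hfin : Finite s := by
    rw [← Cardinal.lt_aleph0_iff_finite, hcard]
    exact Cardinal.natCast_lt_aleph0
  let _ : Fintype s := Fintype.ofFinite s
  have hD : ∀ i : s, ∃ D : Derivation ℂ K K, ∀ k : s, D (k : K) = if i = k then 1 else 0 :=
    fun i => Pool.Agent.Work.MP_4329d7_ag.R.exists_derivation (M := K) hs
      (fun k => if i = k then 1 else 0)
  choose D hD using hD
  refine ⟨s, inferInstance, D, ?_, ?_⟩
  · rw [Cardinal.mk_fintype] at hcard
    exact_mod_cast hcard
  · rw [Fintype.linearIndependent_iff]
    intro a ha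
    let E : Derivation ℂ K K := ∑ i, a i • D i
    have hE : ∀ y, E y = ∑ i, a i * D i y := by
      intro y
      have : ∀ t : Finset s, (∑ i ∈ t, a i • D i) y = ∑ i ∈ t, a i * D i y := by
        intro t
        induction t using Finset.induction_on with
        | empty => simp
        | insert i t hi ih =>
          rw [Finset.sum_insert hi, Finset.sum_insert hi, Derivation.add_apply, ih]
          rfl
      exact this _
    have h0 : ∀ y : K, E y = 0 := by
      intro y
      have hy : y ∈ IntermediateField.adjoin ℂ (Set.range x) := by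
        rw [hgen]
        exact IntermediateField.mem_top
      induction hy using IntermediateField.adjoin_induction with
      | mem y hy =>
        obtain ⟨j, rfl⟩ := hy
        rw [hE]
        have := congrFun ha j
        rw [Finset.sum_apply] at this
        exact this
      | algebraMap c => exact Derivation.map_algebraMap _ _
      | add y z _ _ hy hz => rw [map_add, hy, hz, add_zero]
      | inv y _ hy => rw [Derivation.leibniz_inv, hy, smul_zero]
      | mul y z _ _ hy hz => rw [Derivation.leibniz, hy, hz, smul_zero, smul_zero, add_zero]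
    intro i
    have h1 := h0 (i : K)
    rw [hE] at h1
    simpa [hD] using h1

/-- common denominators -/
theorem curve_denom {K : Type} [Field K] [Algebra ℂ K] {d : ℕ} (x : Fin d → K)
    (hgen : IntermediateField.adjoin ℂ (Set.range x) = ⊤) {Q : Type} [Fintype Q] (a : Q → K) :
    ∃ (H : MvPolynomial (Fin d) ℂ) (A : Q → MvPolynomial (Fin d) ℂ), aeval x H ≠ 0 ∧
      ∀ q, aeval x (A q) = aeval x H * a q := by
  classical
  have h1 : ∀ q, ∃ r s : MvPolynomial (Fin d) ℂ, aeval x s ≠ 0 ∧ aeval x r = aeval x s * a q := by
    intro q
    have hy : a q ∈ IntermediateField.adjoin ℂ (Set.range x) := by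
      rw [hgen]
      exact IntermediateField.mem_top
    obtain ⟨r, s, h⟩ := (IntermediateField.mem_adjoin_range_iff ℂ x _).1 hy
    by_cases hs : aeval x s = 0
    · rw [hs, div_zero] at h
      refine ⟨0, 1, by rw [map_one]; exact one_ne_zero, ?_⟩
      rw [map_zero, map_one, h, mul_zero]
    · exact ⟨r, s, hs, by rw [h, mul_div_cancel₀ _ hs]⟩
  choose r s hs hr using h1
  refine ⟨∏ q, s q, fun q => r q * ∏ q' ∈ Finset.univ.erase q, s q', ?_, fun q => ?_⟩
  · rw [map_prod]
    exact Finset.prod_ne_zero_iff.2 fun q _ => hs q
  · rw [map_mul, hr, ← Finset.mul_prod_erase Finset.univ s (Finset.mem_univ q), map_mul]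
    ring

open PowerSeries in
theorem curve_X_pow_dvd {F : Type} [Field F] [CharZero F] (m : ℕ) (g : F⟦X⟧)
    (h0 : constantCoeff g = 0) (h : (PowerSeries.X : F⟦X⟧) ^ m ∣ derivative F g) :
    (PowerSeries.X : F⟦X⟧) ^ (m + 1) ∣ g := by
  rw [PowerSeries.X_pow_dvd_iff] at h ⊢
  intro k hk
  rcases k with _ | k
  · rw [coeff_zero_eq_constantCoeff]
    exact h0
  · have h1 := h k (by omega)
    rw [coeff_derivative] at h1
    refine (mul_eq_zero.1 h1).resolve_right ?_
    exact_mod_cast Nat.succ_ne_zero k

open PowerSeries in
/-- infinitesimal lifting -/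
theorem curve_core {K F : Type} [Field K] [Algebra ℂ K] [Field F] [Algebra ℂ F] {d n : ℕ}
    {Q : Type} [Fintype Q] (x : Fin d → K)
    (hgen : IntermediateField.adjoin ℂ (Set.range x) = ⊤) (htr : Algebra.trdeg ℂ K = n)
    (hdim : n + Fintype.card Q = d) (P : Q → MvPolynomial (Fin d) ℂ)
    (hP : ∀ q, aeval x (P q) = 0)
    (hli : LinearIndependent K (fun q j => aeval x (pderiv j (P q)))) (i : K →ₐ[ℂ] F)
    (Y : Fin d → F⟦X⟧) (hY : ∀ j, constantCoeff (Y j) = i (x j)) (hPY : ∀ q, aeval Y (P q) = 0)
    (g : MvPolynomial (Fin d) ℂ) (hg : aeval x g = 0) : aeval Y g = 0 := by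
  classical
  have : CharZero F := charZero_of_injective_algebraMap (algebraMap ℂ F).injective
  obtain ⟨I, _, D, hI, hD⟩ := curve_frame x hgen htr
  have hcc : ∀ p : MvPolynomial (Fin d) ℂ, constantCoeff (aeval Y p) = i (aeval x p) := by
    intro p
    induction p using MvPolynomial.induction_on with
    | C a =>
      rw [aeval_C, aeval_C, AlgHom.commutes]
      rfl
    | add p q hp hq => simp only [map_add, hp, hq]
    | mul_X p n hp => simp only [map_mul, hp, aeval_X, hY]
  have key : ∀ m : ℕ, ∀ g : MvPolynomial (Fin d) ℂ, aeval x g = 0 →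
      (PowerSeries.X : F⟦X⟧) ^ m ∣ aeval Y g := by
    intro m
    induction m with
    | zero => intro g _; rw [pow_zero]; exact one_dvd _
    | succ m ih =>
      intro g hg
      refine curve_X_pow_dvd m _ (by rw [hcc, hg, map_zero]) ?_
      obtain ⟨a, ha⟩ := curve_span (fun q j => aeval x (pderiv j (P q))) (fun i j => D i (x j)) hli
        hD (by rw [hI]; exact hdim)
        (by
          intro q k
          have h1 := curve_chain (D k) x (P q)
          rw [hP, map_zero] at h1
          exact h1.symm) (fun j => aeval x (pderiv j g))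
        (by
          intro k
          have h1 := curve_chain (D k) x g
          rw [hg, map_zero] at h1
          exact h1.symm)
      obtain ⟨H, A, hH, hA⟩ := curve_denom x hgen a
      have hunit : IsUnit (aeval Y H) := by
        rw [PowerSeries.isUnit_iff_constantCoeff, hcc]
        exact (map_ne_zero_iff _ i.injective |>.2 hH).isUnit
      rw [← hunit.dvd_mul_left]
      have hr : ∀ j, (PowerSeries.X : F⟦X⟧) ^ m ∣
          aeval Y (H * pderiv j g - ∑ q, A q * pderiv j (P q)) := by
        intro j
        apply ih
        rw [map_sub, map_mul, map_sum, ha j, Finset.mul_sum, sub_eq_zero]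
        refine Finset.sum_congr rfl fun q _ => ?_
        rw [map_mul, hA]
        ring
      have h2 : aeval Y H * derivative F (aeval Y g) =
          ∑ j, aeval Y (H * pderiv j g - ∑ q, A q * pderiv j (P q)) * derivative F (Y j) := by
        have h3 : ∀ p : MvPolynomial (Fin d) ℂ, derivative F (aeval Y p) =
            ∑ j, aeval Y (pderiv j p) * derivative F (Y j) := by
          intro p
          exact curve_chain ((derivative F).restrictScalars ℂ) Y p
        have h4 : ∑ q, aeval Y (A q) * derivative F (aeval Y (P q)) = 0 := by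
          refine Finset.sum_eq_zero fun q _ => ?_
          rw [hPY, map_zero, mul_zero]
        rw [h3]
        simp only [h3] at h4
        simp only [map_sub, map_mul, map_sum, sub_mul, Finset.sum_sub_distrib, Finset.sum_mul,
          Finset.mul_sum]
        simp only [Finset.mul_sum] at h4
        rw [Finset.sum_comm] at h4
        have h5 : ∀ j q, aeval Y (A q) * aeval Y (pderiv j (P q)) * derivative F (Y j) =
            aeval Y (A q) * (aeval Y (pderiv j (P q)) * derivative F (Y j)) := by
          intros; ring
        simp only [h5, h4, sub_zero]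
        exact Finset.sum_congr rfl fun j _ => by ring
      rw [h2]
      exact Finset.dvd_sum fun j _ => (hr j).mul_right _
  ext k
  have h1 := key (k + 1) g hg
  rw [PowerSeries.X_pow_dvd_iff] at h1
  rw [h1 k (Nat.lt_succ_self k), map_zero]

end Pool.Agent.Work.CI
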