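import Mathlib
import Pool.Agent.Work.MP_4329d7_ag_ci.Defs
import Pool.Agent.Work.MP_4329d7_ag_ci.CurveCore
import Pool.Agent.Work.MP_4329d7_ag_uni.CurveExt
import Pool.Agent.Work.MP_4329d7_ag_uni.CurveAlg

/-!
V-M4, first half: a curve through the general point gives `K → F(t)`.

By `curve_core` every relation of `x` is a relation of `X` (infinitesimal lifting along the
complete intersection, which is smooth at the generic point by `D.loc`).
-/

namespace Pool.Agent.Work.CI

open Pool.Agent.Work.Uni Pool.Agent.Work.MP_4329d7_ag.FF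
open MvPolynomial

/-- clearing denominators in a Laurent polynomial -/
theorem curve_poly {d : ℕ} (f : Lau d) :
    ∃ (P : MvPolynomial (Fin d) ℂ) (N : ℕ), ∀ {F : Type} [Field F] [Algebra ℂ F] (x : Fin d → F),
      (∀ j, x j ≠ 0) → aeval x P = (∏ j, x j) ^ N * ev f x ∧
        ∀ j, x j * aeval x (pderiv j P) = (∏ j, x j) ^ N * (ldv f j x + N * ev f x) := by
  classical
  obtain ⟨N, hN⟩ : ∃ N : ℕ, ∀ χ ∈ f.support, ∀ j, 0 ≤ χ j + N := by
    refine ⟨∑ χ ∈ f.support, ∑ j, (χ j).natAbs, fun χ hχ j => ?_⟩
    have h1 : (χ j).natAbs ≤ ∑ j, (χ j).natAbs :=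
      Finset.single_le_sum (f := fun j => (χ j).natAbs) (fun _ _ => Nat.zero_le _)
        (Finset.mem_univ j)
    have h2 : ∑ j, (χ j).natAbs ≤ ∑ χ ∈ f.support, ∑ j, (χ j).natAbs :=
      Finset.single_le_sum (f := fun χ : Fin d → ℤ => ∑ j, (χ j).natAbs)
        (fun _ _ => Nat.zero_le _) hχ
    have h3 : ((χ j).natAbs : ℤ) ≤ ((∑ χ ∈ f.support, ∑ j, (χ j).natAbs : ℕ) : ℤ) := by
      exact_mod_cast h1.trans h2
    have h4 : -(χ j) ≤ ((χ j).natAbs : ℤ) := by
      rw [Int.natCast_natAbs]
      exact neg_le_abs _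
    omega
  let e : (Fin d → ℤ) → (Fin d →₀ ℕ) := fun χ => Finsupp.equivFunOnFinite.symm
    fun j => (χ j + N).toNat
  refine ⟨∑ χ ∈ f.support, monomial (e χ) (f χ), N, fun {F} _ _ x hx => ?_⟩
  have hmon : ∀ χ ∈ f.support, ∏ j, x j ^ (e χ j) = (∏ j, x j) ^ N * mon x χ := by
    intro χ hχ
    rw [mon, ← Finset.prod_pow, ← Finset.prod_mul_distrib]
    refine Finset.prod_congr rfl fun j _ => ?_
    have h1 : ((e χ j : ℕ) : ℤ) = χ j + N := by
      change (((χ j + N).toNat : ℕ) : ℤ) = χ j + N
      exact Int.toNat_of_nonneg (hN χ hχ j)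
    rw [← zpow_natCast (x j) (e χ j), h1, zpow_add₀ (hx j), zpow_natCast, mul_comm]
  have haev : ∀ (s : Fin d →₀ ℕ) (c : ℂ), aeval x (monomial s c) =
      algebraMap ℂ F c * ∏ j, x j ^ s j := by
    intro s c
    rw [aeval_monomial, Finsupp.prod_fintype _ _ (fun j => pow_zero _)]
  constructor
  · rw [map_sum, ev, Finset.mul_sum]
    refine Finset.sum_congr rfl fun χ hχ => ?_
    rw [haev, hmon χ hχ]
    ring
  · intro j
    rw [map_sum, map_sum, ev, ldv, Finset.mul_sum, Finset.mul_sum, ← Finset.sum_add_distrib,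
      Finset.mul_sum]
    refine Finset.sum_congr rfl fun χ hχ => ?_
    have h1 : x j * aeval x (pderiv j (monomial (e χ) (f χ))) =
        (e χ j : F) * aeval x (monomial (e χ) (f χ)) := by
      have h2 : X j * pderiv j (monomial (e χ) (f χ)) = (e χ j : MvPolynomial (Fin d) ℂ) *
          monomial (e χ) (f χ) := by
        rw [pderiv_monomial]
        by_cases h0 : e χ j = 0
        · rw [h0]
          simp
        · rw [X, monomial_mul, one_mul, ← C_eq_coe_nat, C_mul_monomial, mul_comm (f χ)]
          have h7 : Finsupp.single j 1 + (e χ - Finsupp.single j 1) = e χ := by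
            ext k
            by_cases hk : j = k
            · subst hk
              simp only [Finsupp.coe_add, Finsupp.coe_tsub, Pi.add_apply, Pi.sub_apply,
                Finsupp.single_eq_same]
              omega
            · simp [Finsupp.single_eq_of_ne (fun h => hk h.symm)]
          rw [h7]
      have h3 := congrArg (aeval x) h2
      rw [map_mul, map_mul, aeval_X, map_natCast] at h3
      exact h3
    rw [h1, haev, hmon χ hχ]
    have h4 : (e χ j : F) = (χ j : F) + N := by
      have h5 : ((e χ j : ℕ) : ℤ) = χ j + N := by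
        change (((χ j + N).toNat : ℕ) : ℤ) = χ j + N
        exact Int.toNat_of_nonneg (hN χ hχ j)
      exact_mod_cast congrArg (Int.cast : ℤ → F) h5
    rw [h4]
    ring

open scoped RatFunc in
/-- the map to Laurent series -/
noncomputable def curvePsi (F : Type) [Field F] : RatFunc F →+* LaurentSeries F :=
  algebraMap (RatFunc F) (LaurentSeries F)

theorem curvePsi_coe {F : Type} [Field F] (p : Polynomial F) :
    curvePsi F (algebraMap (Polynomial F) (RatFunc F) p) =
      HahnSeries.ofPowerSeries ℤ F (p : PowerSeries F) :=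
  (RatFunc.coe_coe p).symm

/-- a rational function with value `c` at `0` is a power series with constant term `c` -/
theorem curve_series {F : Type} [Field F] {y : RatFunc F} {c : F} (h : Pl y c) :
    ∃ Y : PowerSeries F, PowerSeries.constantCoeff Y = c ∧
      HahnSeries.ofPowerSeries ℤ F Y = curvePsi F y := by
  obtain ⟨p, q, h1, h2, h3⟩ := h
  have hq : PowerSeries.constantCoeff (q : PowerSeries F) ≠ 0 := by
    rw [Polynomial.constantCoeff_coe, Polynomial.coeff_zero_eq_eval_zero]
    exact h1
  refine ⟨(p : PowerSeries F) * (q : PowerSeries F)⁻¹, ?_, ?_⟩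
  · rw [map_mul, PowerSeries.constantCoeff_inv, Polynomial.constantCoeff_coe,
      Polynomial.constantCoeff_coe, Polynomial.coeff_zero_eq_eval_zero,
      Polynomial.coeff_zero_eq_eval_zero, h3, mul_assoc, mul_inv_cancel₀ h1, mul_one]
  · have hq0 : HahnSeries.ofPowerSeries ℤ F (q : PowerSeries F) ≠ 0 := by
      intro h0
      rw [map_eq_zero_iff _ HahnSeries.ofPowerSeries_injective] at h0
      rw [h0, map_zero] at hq
      exact hq rfl
    rw [← mul_left_inj' hq0, ← map_mul, mul_assoc, PowerSeries.inv_mul_cancel _ hq, mul_one]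
    have h4 := congrArg (curvePsi F) h2
    rw [map_mul] at h4
    rw [curvePsi_coe, curvePsi_coe] at h4
    exact h4.symm

theorem curve_aeval {F : Type} [Field F] [Algebra ℂ F] {σ : Type} {X : σ → RatFunc F}
    {Y : σ → PowerSeries F}
    (h : ∀ j, HahnSeries.ofPowerSeries ℤ F (Y j) = curvePsi F (X j))
    (p : MvPolynomial σ ℂ) :
    HahnSeries.ofPowerSeries ℤ F (aeval Y p) = curvePsi F (aeval X p) := by
  induction p using MvPolynomial.induction_on with
  | C a =>
    rw [aeval_C, aeval_C, Pool.Agent.Work.MP_4329d7_ag_sq.algebraMap_ratFunc]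
    have h1 : algebraMap ℂ (PowerSeries F) a = ((Polynomial.C (algebraMap ℂ F a) : Polynomial F) :
        PowerSeries F) := by
      rw [Polynomial.coe_C, PowerSeries.algebraMap_apply]
    rw [h1, ← RatFunc.algebraMap_C, curvePsi_coe]
  | add p q hp hq => simp only [map_add, hp, hq]
  | mul_X p n hp => simp only [map_mul, hp, aeval_X, h]

/-- homomorphisms from relations -/
theorem curve_hom {K R : Type} [Field K] [Algebra ℂ K] [Field R] [Algebra ℂ R] {σ : Type}
    (x : σ → K) (hgen : IntermediateField.adjoin ℂ (Set.range x) = ⊤) (X : σ → R)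
    (h : ∀ p : MvPolynomial σ ℂ, aeval x p = 0 ↔ aeval X p = 0) :
    ∃ φ : K →ₐ[ℂ] R, ∀ j, φ (x j) = X j := by
  classical
  let α : MvPolynomial σ ℂ →ₐ[ℂ] K := aeval x
  let β : MvPolynomial σ ℂ →ₐ[ℂ] R := aeval X
  have hfrac : IsFractionRing α.range K := by
    refine IsFractionRing.of_field _ _ fun z => ?_
    have hz : z ∈ IntermediateField.adjoin ℂ (Set.range x) := by
      rw [hgen]
      exact IntermediateField.mem_top
    obtain ⟨r, s, h⟩ := (IntermediateField.mem_adjoin_range_iff ℂ x _).1 hz
    exact ⟨⟨α r, r, rfl⟩, ⟨α s, s, rfl⟩, h⟩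
  let e := Ideal.quotientKerAlgEquivOfSurjective (f := α.rangeRestrict)
    α.rangeRestrict_surjective
  have hker : ∀ p ∈ RingHom.ker α.rangeRestrict, β p = 0 := by
    intro p hp
    rw [RingHom.mem_ker] at hp
    exact (h p).1 (congrArg Subtype.val hp)
  let γ : (MvPolynomial σ ℂ ⧸ RingHom.ker α.rangeRestrict) →ₐ[ℂ] R :=
    Ideal.Quotient.liftₐ _ β hker
  let g : α.range →ₐ[ℂ] R := γ.comp e.symm.toAlgHom
  have hg : ∀ p, g (α.rangeRestrict p) = β p := by
    intro p
    have h1 : e.symm (α.rangeRestrict p) = Ideal.Quotient.mk _ p := by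
      rw [AlgEquiv.symm_apply_eq]
      rfl
    change γ (e.symm (α.rangeRestrict p)) = β p
    rw [h1]
    rfl
  have hinj : Function.Injective g := by
    rw [injective_iff_map_eq_zero]
    rintro ⟨_, p, rfl⟩ hp
    have h1 := hg p
    exact Subtype.ext ((h p).2 (h1.symm.trans hp))
  refine ⟨IsFractionRing.liftAlgHom hinj, fun j => ?_⟩
  have h1 : x j = algebraMap α.range K (α.rangeRestrict (MvPolynomial.X j)) := by
    change x j = α (MvPolynomial.X j)
    exact (aeval_X _ _).symm
  rw [IsFractionRing.liftAlgHom_apply, h1, IsFractionRing.lift_algebraMap]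
  change g _ = _
  rw [hg]
  exact aeval_X _ _

variable {K : Type} [Field K] [Algebra ℂ K] {n d : ℕ} {Q : Type} [Fintype Q]
  {x : Fin d → K} {f : Q → Lau d}

/-- the equations are independent at the generic point -/
theorem curve_li (D : Data K n d Q x f) (a : Q → K) (h : ∀ j, ∑ q, a q * ldv (f q) j x = 0)
    (q : Q) : a q = 0 := by
  classical
  let v : Valuation K (WithZero (Multiplicative ℤ)) := 1
  obtain ⟨χ, hχ⟩ := Finsupp.support_nonempty_iff.2 (D.nz q)
  obtain ⟨j, hj⟩ := D.loc v (fun c => Valuation.one_apply_le_one _) a q χ hχ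
  rw [h j, map_zero, le_zero_iff, mul_eq_zero, Valuation.zero_iff, Valuation.zero_iff] at hj
  exact hj.resolve_right (mon_ne_zero D.ne χ)

theorem exists_hom (D : Data K n d Q x f) {F : Type} [Field F] [Algebra ℂ F] (i : K →ₐ[ℂ] F)
    (X : Fin d → RatFunc F) (hX : ∀ j, Pl (X j) (i (x j))) (hsol : ∀ q, ev (f q) X = 0) :
    ∃ φ : K →ₐ[ℂ] RatFunc F, ∀ j, φ (x j) = X j := by
  classical
  have hX0 : ∀ j, X j ≠ 0 := by
    intro j h0
    have h1 := hX j
    rw [h0] at h1
    exact D.ne j ((map_eq_zero_iff _ i.injective).1 h1.eq_zero)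
  choose P N hPN using fun q => curve_poly (f q)
  choose Y hY0 hY using fun j => curve_series (hX j)
  have haev := curve_aeval hY
  have hprod : (∏ j, x j) ≠ 0 := Finset.prod_ne_zero_iff.2 fun j _ => D.ne j
  refine curve_hom x D.gen X fun p => ⟨fun hp => ?_, fun hp => ?_⟩
  · have h1 := curve_core x D.gen D.trdeg D.dim P
      (fun q => by rw [(hPN q x D.ne).1, D.eq, mul_zero]) ?_ i Y hY0
      (fun q => by
        have h2 := haev (P q)
        rw [(hPN q X hX0).1, hsol, mul_zero, map_zero] at h2
        exact (map_eq_zero_iff _ HahnSeries.ofPowerSeries_injective).1 h2) p hp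
    · have h2 := haev p
      rw [h1, map_zero] at h2
      exact (map_eq_zero_iff _ (curvePsi F).injective).1 h2.symm
    · rw [Fintype.linearIndependent_iff]
      intro a ha q
      have h2 : ∀ j, ∑ q, (a q * (∏ j, x j) ^ N q) * ldv (f q) j x = 0 := by
        intro j
        have h3 := congrFun ha j
        rw [Finset.sum_apply] at h3
        have h4 : x j * ∑ q, a q * aeval x (pderiv j (P q)) = 0 := by
          have h5 : ∑ q, a q * aeval x (pderiv j (P q)) = 0 := h3
          rw [h5, mul_zero]
        rw [Finset.mul_sum] at h4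
        rw [← h4]
        refine Finset.sum_congr rfl fun q _ => ?_
        have h6 := (hPN q x D.ne).2 j
        rw [D.eq, mul_zero, add_zero] at h6
        rw [mul_left_comm, h6]
        ring
      have h3 := curve_li D _ h2 q
      exact (mul_eq_zero.1 h3).resolve_right (pow_ne_zero _ hprod)
  · have key : ∀ p : MvPolynomial (Fin d) ℂ, Pl (aeval X p) (i (aeval x p)) := by
      intro p
      induction p using MvPolynomial.induction_on with
      | C a =>
        rw [aeval_C, aeval_C, Pool.Agent.Work.MP_4329d7_ag_sq.algebraMap_ratFunc, AlgHom.commutes]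
        exact pl_C _
      | add p q hp hq => rw [map_add, map_add, map_add]; exact hp.add hq
      | mul_X p n hp =>
        rw [map_mul, map_mul, aeval_X, aeval_X, map_mul]
        exact hp.mul (hX n)
    have h1 := key p
    rw [hp] at h1
    exact (map_eq_zero_iff _ i.injective).1 h1.eq_zero

end Pool.Agent.Work.CI
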