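import Mathlib
import Pool.Agent.Work.MP_4329d7_ag_ci.Curve

/-!
V-M4, second half: if `K` is not uniruled then all root curves are constant (`Star`), and the
exponents span (`Full`).
-/

namespace Pool.Agent.Work.CI

open Pool.Agent.Work.Uni Pool.Agent.Work.MP_4329d7_ag_sq Polynomial

section curve

variable {F : Type} [Field F]

theorem cs_pl_inv {y : RatFunc F} {v : F} (h : Pl y v) (hv : v ≠ 0) : Pl y⁻¹ v⁻¹ := by
  obtain ⟨p, q, h1, h2, h3⟩ := h
  have hp : p.eval 0 ≠ 0 := by rw [h3]; exact mul_ne_zero hv h1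
  have hp0 : algebraMap F[X] (RatFunc F) p ≠ 0 := by
    intro h
    have : p = 0 := by
      refine IsFractionRing.injective F[X] (RatFunc F) ?_
      rw [h, map_zero]
    rw [this, eval_zero] at hp
    exact hp rfl
  have hy : y ≠ 0 := by
    rintro rfl
    rw [zero_mul] at h2
    exact hp0 h2.symm
  refine ⟨q, p, hp, ?_, ?_⟩
  · rw [← h2, ← mul_assoc, inv_mul_cancel₀ hy, one_mul]
  · rw [h3, ← mul_assoc, inv_mul_cancel₀ hv, one_mul]

theorem cs_pl_one : Pl (1 : RatFunc F) 1 := by
  have := pl_C (1 : F)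
  rwa [map_one] at this

theorem cs_pl_pow {y : RatFunc F} {v : F} (h : Pl y v) (n : ℕ) : Pl (y ^ n) (v ^ n) := by
  induction n with
  | zero => rw [pow_zero, pow_zero]; exact cs_pl_one
  | succ n ih => rw [pow_succ, pow_succ]; exact ih.mul h

theorem cs_pl_zpow {y : RatFunc F} {v : F} (h : Pl y v) (hv : v ≠ 0) (n : ℤ) :
    Pl (y ^ n) (v ^ n) := by
  rcases n with n | n
  · rw [Int.ofNat_eq_natCast, zpow_natCast, zpow_natCast]
    exact cs_pl_pow h n
  · rw [zpow_negSucc, zpow_negSucc]
    exact cs_pl_inv (cs_pl_pow h _) (pow_ne_zero _ hv)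

theorem cs_pl_prod {ι : Type} (s : Finset ι) {y : ι → RatFunc F} {v : ι → F}
    (h : ∀ i ∈ s, Pl (y i) (v i)) : Pl (∏ i ∈ s, y i) (∏ i ∈ s, v i) := by
  classical
  induction s using Finset.induction_on with
  | empty => rw [Finset.prod_empty, Finset.prod_empty]; exact cs_pl_one
  | insert i s hi ih =>
    rw [Finset.prod_insert hi, Finset.prod_insert hi]
    exact (h i (Finset.mem_insert_self i s)).mul
      (ih fun j hj => h j (Finset.mem_insert_of_mem hj))

/-- the linear factor `1 - t T` -/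
noncomputable def csG (t : F) : RatFunc F := algebraMap F[X] (RatFunc F) (1 - C t * X)

theorem csG_ne_zero (t : F) : csG t ≠ 0 := by
  intro h
  have h1 : (1 - C t * X : F[X]) = 0 := by
    refine IsFractionRing.injective F[X] (RatFunc F) ?_
    rw [map_zero]
    exact h
  have h2 := congrArg (eval 0) h1
  simp at h2

theorem cs_pl_G (t : F) : Pl (csG t) 1 :=
  ⟨1 - C t * X, 1, by simp, by rw [map_one, mul_one]; rfl, by simp⟩

theorem cs_zpow_sum {ι : Type} (s : Finset ι) {a : F} (ha : a ≠ 0) (n : ι → ℤ) :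
    ∏ i ∈ s, a ^ n i = a ^ ∑ i ∈ s, n i := by
  classical
  induction s using Finset.induction_on with
  | empty => simp
  | insert i s hi ih => rw [Finset.prod_insert hi, Finset.sum_insert hi, ih, zpow_add₀ ha]

theorem cs_mon {ι : Type} [Fintype ι] {d : ℕ} (c : Fin d → F) (G : ι → RatFunc F)
    (hG : ∀ i, G i ≠ 0) (b : ι → Fin d → ℤ) (χ : Fin d → ℤ) :
    mon (fun j => RatFunc.C (c j) * ∏ i, G i ^ b i j) χ =
      RatFunc.C (mon c χ) * ∏ i, G i ^ pair χ (b i) := by
  unfold mon pair
  simp only [mul_zpow, Finset.prod_mul_distrib, map_prod, map_zpow₀]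
  congr 1
  simp only [← Finset.prod_zpow, ← zpow_mul]
  rw [Finset.prod_comm]
  refine Finset.prod_congr rfl fun i _ => ?_
  rw [← cs_zpow_sum _ (hG i)]
  exact Finset.prod_congr rfl fun j _ => by rw [mul_comm]

theorem cs_ne_const {t : F} (ht : t ≠ 0) {n : ℤ} (hn : n ≠ 0) (e : F) :
    csG t ^ n ≠ RatFunc.C e := by
  have key : ∀ (n : ℕ), 0 < n → ∀ e : F, csG t ^ n ≠ RatFunc.C e := by
    intro n hn e h
    have h1 : ((1 - C t * X : F[X]) ^ n) = C e := by
      refine IsFractionRing.injective F[X] (RatFunc F) ?_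
      rw [map_pow, RatFunc.algebraMap_C]
      exact h
    have h2 := congrArg natDegree h1
    have h3 : natDegree (1 - C t * X : F[X]) = 1 := by
      rw [show (1 - C t * X : F[X]) = C (-t) * X + C 1 by rw [C_neg, C_1]; ring]
      exact natDegree_linear (neg_ne_zero.2 ht)
    rw [natDegree_pow, h3, natDegree_C, mul_one] at h2
    omega
  rcases n with n | n
  · rw [Int.ofNat_eq_natCast, zpow_natCast]
    refine key n ?_ e
    rcases Nat.eq_zero_or_pos n with h | h
    · exact absurd (by rw [h]; rfl) hn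
    · exact h
  · rw [zpow_negSucc]
    intro h
    refine key (n + 1) (Nat.succ_pos n) e⁻¹ ?_
    rw [map_inv₀, ← h, inv_inv]

end curve

variable {K : Type} [Field K] [Algebra ℂ K] {n d : ℕ} {Q : Type} [Fintype Q]
  {x : Fin d → K} {f : Q → Lau d}

theorem cs_ev_hom {K F : Type} [Field K] [Algebra ℂ K] [Field F] [Algebra ℂ F] (h : K →ₐ[ℂ] F)
    {d : ℕ} (f : Lau d) (x : Fin d → K) : ev f (fun j => h (x j)) = h (ev f x) := by
  unfold ev mon
  simp only [map_sum, map_mul, map_prod, map_zpow₀, AlgHom.commutes]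

theorem cs_mon_hom {K F : Type} [Field K] [Field F] (h : K →+* F)
    {d : ℕ} (χ : Fin d → ℤ) (x : Fin d → K) : mon (fun j => h (x j)) χ = h (mon x χ) := by
  unfold mon
  simp only [map_prod, map_zpow₀]

theorem full_of_not_uniruled [Algebra.EssFiniteType ℂ K] (D : Data K n d Q x f)
    (hK : ¬ Uniruled K) : Full f := by
  intro b hb
  by_contra hne
  obtain ⟨j, hj⟩ : ∃ j, b j ≠ 0 := by
    by_contra h
    push Not at h
    exact hne (funext h)
  apply hK
  set X : Fin d → RatFunc K := fun j => RatFunc.C (x j) * ∏ _i : Unit, csG (-1 : K) ^ b j with hX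
  have hmon : ∀ χ, mon X χ = RatFunc.C (mon x χ) * csG (-1 : K) ^ pair χ b := by
    intro χ
    have h1 := cs_mon x (fun _ : Unit => csG (-1 : K)) (fun _ => csG_ne_zero _) (fun _ => b) χ
    rw [hX, h1]
    simp
  obtain ⟨φ, hφ⟩ := exists_hom D (AlgHom.id ℂ K) X (fun j => by
    have h1 := (pl_C (x j)).mul (cs_pl_prod (Finset.univ : Finset Unit)
      (y := fun _ => csG (-1 : K) ^ b j) (v := fun _ => 1 ^ b j)
      fun _ _ => cs_pl_zpow (cs_pl_G (-1 : K)) one_ne_zero (b j))
    simp only [one_zpow, Finset.prod_const_one, mul_one] at h1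
    exact h1) (fun q => by
    obtain ⟨χ0, hχ0⟩ := Finsupp.support_nonempty_iff.2 (D.nz q)
    have h1 : ev (f q) X = RatFunc.C (ev (f q) x) * csG (-1 : K) ^ pair χ0 b := by
      unfold ev
      rw [map_sum, Finset.sum_mul]
      refine Finset.sum_congr rfl fun χ hχ => ?_
      rw [hmon, hb q χ hχ χ0 hχ0, algebraMap_ratFunc, map_mul, mul_assoc]
    rw [h1, D.eq q, map_zero, zero_mul])
  refine uniruled_of_hom φ (x j) fun e he => ?_
  rw [hφ, hX] at he
  simp only [Finset.univ_unique, Finset.prod_singleton] at he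
  refine cs_ne_const (t := (-1 : K)) (by simp) hj ((x j)⁻¹ * e) ?_
  rw [map_mul, ← he, ← mul_assoc, ← map_mul, inv_mul_cancel₀ (D.ne j), map_one, one_mul]

theorem cs_pl_unique {F : Type} [Field F] {y : RatFunc F} {v v' : F} (h : Pl y v) (h' : Pl y v') :
    v = v' := by
  have h1 := h.add ((pl_C (-1 : F)).mul h')
  have h2 : y + RatFunc.C (-1) * y = 0 := by
    rw [map_neg, map_one]
    ring
  rw [h2] at h1
  have h3 := h1.eq_zero
  linear_combination h3

theorem cs_star [Algebra.EssFiniteType ℂ K] (D : Data K n d Q x f)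
    (hK : ¬ Uniruled K) {F : Type} [Field F] [Algebra ℂ F] (emb : K →ₐ[ℂ] F) :
    Star (blocks f) (Sigma.fst : Pts f → Q) (coef f fun j => emb (x j)) := by
  classical
  intro ι _ β m hβ hpack t hsol p p' hpp
  by_contra hne
  apply hK
  choose b hb0 hb using fun i => exists_blk f D.nz (hβ i)
  set c : Fin d → F := fun j => emb (x j) with hc
  have hc0 : ∀ j, c j ≠ 0 := fun j => by
    rw [hc]
    simpa using D.ne j
  set X : Fin d → RatFunc F := fun j => RatFunc.C (c j) * ∏ i, csG (t i) ^ b i j with hX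
  have hmon : ∀ χ, mon X χ = RatFunc.C (mon c χ) * ∏ i, csG (t i) ^ pair χ (b i) := fun χ =>
    cs_mon c (fun i => csG (t i)) (fun i => csG_ne_zero _) b χ
  -- the pairing in terms of the blocks
  have hpair : ∀ (p : Pts f) i, pair p.2.1 (b i) = β i p + mn (f p.1) (b i) := by
    intro p i
    have h1 := blk_cast f (b i) p
    rw [hb i, h1]
    ring
  have hprod : ∀ p : Pts f, ∏ i, csG (t i) ^ pair p.2.1 (b i) =
      (∏ i, csG (t i) ^ mn (f p.1) (b i)) * algebraMap F[X] (RatFunc F) (revPoly β t p) := by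
    intro p
    rw [revPoly, map_prod, ← Finset.prod_mul_distrib]
    refine Finset.prod_congr rfl fun i _ => ?_
    rw [hpair, zpow_add₀ (csG_ne_zero _), zpow_natCast, mul_comm, map_pow]
    rfl
  have hrev : ∀ q, ∑ p, C (coef f c q p) * revPoly β t p = 0 := by
    intro q
    have h1 := congrArg (reflect (m q)) (hsol q)
    rw [reflect_zero, reflect_sum'] at h1
    rw [← h1]
    refine Finset.sum_congr rfl fun p _ => ?_
    by_cases hp : p.1 = q
    · rw [reflect_C_mul, ← reflect_rootPoly, hpack p, hp]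
    · have : coef f c q p = 0 := by
        unfold coef
        exact if_neg hp
      rw [this]
      simp
  obtain ⟨φ, hφ⟩ := exists_hom D emb X (fun j => by
    have h1 := (pl_C (c j)).mul (cs_pl_prod (Finset.univ : Finset ι)
      (y := fun i => csG (t i) ^ b i j) (v := fun i => 1 ^ b i j)
      fun i _ => cs_pl_zpow (cs_pl_G (t i)) one_ne_zero (b i j))
    simp only [one_zpow, Finset.prod_const_one, mul_one] at h1
    exact h1) (fun q => by
    have h1 : ev (f q) X = (∏ i, csG (t i) ^ mn (f q) (b i)) *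
        algebraMap F[X] (RatFunc F) (∑ p, C (coef f c q p) * revPoly β t p) := by
      rw [map_sum, Finset.mul_sum, Fintype.sum_sigma, Finset.sum_eq_single q]
      · unfold ev
        rw [← Finset.sum_coe_sort]
        refine Finset.sum_congr rfl fun χ _ => ?_
        have h2 := hprod ⟨q, χ⟩
        simp only at h2
        rw [hmon, h2, map_mul, RatFunc.algebraMap_C, algebraMap_ratFunc]
        simp only [coef, if_true, map_mul]
        ring
      · intro q' _ hq'
        refine Finset.sum_eq_zero fun χ _ => ?_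
        unfold coef
        rw [if_neg hq']
        simp
      · intro hq
        exact absurd (Finset.mem_univ _) hq
    rw [h1, hrev q, map_zero, mul_zero])
  refine uniruled_of_hom φ (mon x (p.2.1 - p'.2.1)) fun e he => hne ?_
  have hX0 : ∀ j, φ (x j) = X j := hφ
  have h1 : φ (mon x (p.2.1 - p'.2.1)) = mon X (p.2.1 - p'.2.1) := by
    have h2 := cs_mon_hom (φ : K →+* RatFunc F) (p.2.1 - p'.2.1) x
    change _ = φ (mon x (p.2.1 - p'.2.1)) at h2
    rw [← h2]
    congr 1
    funext j
    exact hX0 j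
  rw [h1, hmon] at he
  have hm0 : mon c (p.2.1 - p'.2.1) ≠ 0 := mon_ne_zero hc0 _
  have h3 : ∏ i, csG (t i) ^ pair (p.2.1 - p'.2.1) (b i) =
      RatFunc.C ((mon c (p.2.1 - p'.2.1))⁻¹ * e) := by
    rw [map_mul, ← he, ← mul_assoc, ← map_mul, inv_mul_cancel₀ hm0, map_one, one_mul]
  have h4 : Pl (∏ i, csG (t i) ^ pair (p.2.1 - p'.2.1) (b i)) 1 := by
    have h5 := cs_pl_prod (Finset.univ : Finset ι)
      (y := fun i => csG (t i) ^ pair (p.2.1 - p'.2.1) (b i))
      (v := fun i => 1 ^ pair (p.2.1 - p'.2.1) (b i))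
      fun i _ => cs_pl_zpow (cs_pl_G (t i)) one_ne_zero _
    simp only [one_zpow, Finset.prod_const_one] at h5
    exact h5
  rw [h3] at h4
  have h6 := cs_pl_unique (pl_C _) h4
  rw [h6, map_one] at h3
  have h7 : ∏ i, csG (t i) ^ pair p.2.1 (b i) = ∏ i, csG (t i) ^ pair p'.2.1 (b i) := by
    have h8 : ∏ i, csG (t i) ^ pair p.2.1 (b i) =
        (∏ i, csG (t i) ^ pair (p.2.1 - p'.2.1) (b i)) * ∏ i, csG (t i) ^ pair p'.2.1 (b i) := by
      rw [← Finset.prod_mul_distrib]
      refine Finset.prod_congr rfl fun i _ => ?_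
      rw [← zpow_add₀ (csG_ne_zero _), sub_pair]
      congr 1
      ring
    rw [h8, h3, one_mul]
  rw [hprod p, hprod p', hpp] at h7
  have h9 : (∏ i, csG (t i) ^ mn (f p'.1) (b i)) ≠ 0 :=
    Finset.prod_ne_zero_iff.2 fun i _ => zpow_ne_zero _ (csG_ne_zero _)
  have h10 := mul_left_cancel₀ h9 h7
  have h11 : revPoly β t p = revPoly β t p' := IsFractionRing.injective F[X] (RatFunc F) h10
  rw [← reflect_revPoly β t p, ← reflect_revPoly β t p', hpack p, hpack p', hpp, h11]

theorem star_of_not_uniruled [Algebra.EssFiniteType ℂ K] (D : Data K n d Q x f)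
    (hK : ¬ Uniruled K) :
    Star (blocks f) (Sigma.fst : Pts f → Q)
      (coef f fun j => algebraMap K (AlgebraicClosure K) (x j)) :=
  cs_star D hK (IsScalarTower.toAlgHom ℂ K (AlgebraicClosure K))

end Pool.Agent.Work.CI
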