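import Mathlib

set_option autoImplicit false

/-!
Linear algebra for `Form.lean`, part A (helper37): complementary minors, and a maximal minor of
maximal value.
-/

open scoped WithZero

namespace Pool.Agent.Work.CI

section Minors

variable {R : Type*} [CommRing R] {m q d : Type*} [Fintype m] [DecidableEq m] [Fintype q]
  [DecidableEq q] [Fintype d] [DecidableEq d]

/-- Complementary minors: `e`, `s` (and `e'`, `s'`) enumerate two complementary subsets of `d`.
If `J L = 0`, then `det (L on e) * det (J on s') = ± det (L on e') * det (J on s)`, with a sign that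
does not depend on `L`. -/
theorem compl_minors (J : Matrix q d R) (s s' : q → d) (e e' : m → d)
    (h : Function.Bijective (Sum.elim e s)) (h' : Function.Bijective (Sum.elim e' s')) :
    ∃ ε : R, (ε = 1 ∨ ε = -1) ∧ ∀ L : Matrix d m R, J * L = 0 →
      (L.submatrix e id).det * (J.submatrix id s').det =
        ε * ((L.submatrix e' id).det * (J.submatrix id s).det) := by
  set ψ : m ⊕ q ≃ d := Equiv.ofBijective _ h with hψ
  set ψ' : m ⊕ q ≃ d := Equiv.ofBijective _ h' with hψ'
  have hψl : ∀ i, ψ (Sum.inl i) = e i := fun i => rfl
  have hψr : ∀ i, ψ (Sum.inr i) = s i := fun i => rfl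
  have hψl' : ∀ i, ψ' (Sum.inl i) = e' i := fun i => rfl
  have hψr' : ∀ i, ψ' (Sum.inr i) = s' i := fun i => rfl
  have hes : ∀ i k, e i ≠ s k := by
    intro i k hik
    have := h.1 (a₁ := Sum.inl i) (a₂ := Sum.inr k) hik
    exact absurd this (by simp)
  have hes' : ∀ i k, e' i ≠ s' k := by
    intro i k hik
    have := h'.1 (a₁ := Sum.inl i) (a₂ := Sum.inr k) hik
    exact absurd this (by simp)
  have he : Function.Injective e := fun i k hik => by
    have := h.1 (a₁ := Sum.inl i) (a₂ := Sum.inl k) hik
    exact Sum.inl_injective this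
  have hs' : Function.Injective s' := fun i k hik => by
    have := h'.1 (a₁ := Sum.inr i) (a₂ := Sum.inr k) hik
    exact Sum.inr_injective this
  -- the projection to `e`
  set Y : Matrix m d R := Matrix.of fun i j => if j = e i then 1 else 0 with hY
  set E : Matrix d q R := Matrix.of fun j k => if j = s' k then 1 else 0 with hE
  set P : Matrix (m ⊕ q) d R := Matrix.fromRows Y J with hP
  have hYE : Y * E = E.submatrix e id := by
    ext i j
    rw [Matrix.mul_apply]
    simp [hY]
  have hJE : J * E = J.submatrix id s' := by
    ext i j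
    rw [Matrix.mul_apply]
    simp [hE]
  have hPψ : (P.submatrix id ψ).det = (J.submatrix id s).det := by
    have h1 : P.submatrix id ψ = Matrix.fromBlocks 1 0 (J.submatrix id e) (J.submatrix id s) := by
      ext i j
      rcases i with i | i <;> rcases j with j | j
      · simp only [Matrix.submatrix_apply, id_eq, hψl, hP, Matrix.fromRows_apply_inl,
          Matrix.fromBlocks_apply₁₁, Matrix.one_apply, hY, Matrix.of_apply]
        by_cases hij : i = j
        · subst hij; simp
        · rw [if_neg hij, if_neg (fun hh => hij (he hh.symm))]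
      · simp only [Matrix.submatrix_apply, id_eq, hψr, hP, Matrix.fromRows_apply_inl,
          Matrix.fromBlocks_apply₁₂, Matrix.zero_apply, hY, Matrix.of_apply]
        rw [if_neg (fun hh => hes i j hh.symm)]
      · simp [hψl, hP]
      · simp [hψr, hP]
    rw [h1, Matrix.det_fromBlocks_zero₁₂, Matrix.det_one, one_mul]
  set σ : Equiv.Perm (m ⊕ q) := ψ'.trans ψ.symm with hσ
  have hPψ' : (P.submatrix id ψ').det = (Equiv.Perm.sign σ : ℤ) * (J.submatrix id s).det := by
    have h1 : P.submatrix id ψ' = (P.submatrix id ψ).submatrix id σ := by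
      ext i j
      simp [hσ]
    rw [h1, Matrix.det_permute', hPψ]
  refine ⟨((Equiv.Perm.sign σ : ℤ) : R), ?_, fun L hL => ?_⟩
  · rcases Int.units_eq_one_or (Equiv.Perm.sign σ) with h1 | h1
    · left; rw [h1]; simp
    · right; rw [h1]; simp
  · set W : Matrix d (m ⊕ q) R := Matrix.fromCols L E with hW
    have hWψ' : (W.submatrix ψ' id).det = (L.submatrix e' id).det := by
      have h1 : W.submatrix ψ' id = Matrix.fromBlocks (L.submatrix e' id) 0
          (L.submatrix s' id) 1 := by
        ext i j
        rcases i with i | i <;> rcases j with j | j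
        · simp [hψl', hW]
        · simp only [Matrix.submatrix_apply, id_eq, hψl', hW, Matrix.fromCols_apply_inr,
            Matrix.fromBlocks_apply₁₂, Matrix.zero_apply, hE, Matrix.of_apply]
          rw [if_neg (hes' i j)]
        · simp [hψr', hW]
        · simp only [Matrix.submatrix_apply, id_eq, hψr', hW, Matrix.fromCols_apply_inr,
            Matrix.fromBlocks_apply₂₂, Matrix.one_apply, hE, Matrix.of_apply]
          by_cases hij : i = j
          · subst hij; simp
          · rw [if_neg hij, if_neg (fun hh => hij (hs' hh))]
      rw [h1, Matrix.det_fromBlocks_zero₁₂, Matrix.det_one, mul_one]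
    have hYL : Y * L = L.submatrix e id := by
      ext i j
      rw [Matrix.mul_apply]
      simp [hY]
    have hPW : P * W = Matrix.fromBlocks (L.submatrix e id) (E.submatrix e id) 0
        (J.submatrix id s') := by
      rw [hP, hW, Matrix.fromRows_mul_fromCols, hYL, hYE, hL, hJE]
    have h1 : (P * W).det = (L.submatrix e id).det * (J.submatrix id s').det := by
      rw [hPW, Matrix.det_fromBlocks_zero₂₁]
    have h2 : P.submatrix id ψ' * W.submatrix ψ' id = P * W := by
      rw [Matrix.submatrix_mul_equiv]
      simp
    rw [← h1, ← h2, Matrix.det_mul, hPψ', hWψ']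
    ring

end Minors

section Unit

/-- a matrix with independent rows over a field has a maximal minor which is not zero -/
theorem exists_minor_ne_zero {k : Type*} [Field k] {Q : Type*} [Fintype Q] [DecidableEq Q]
    {d : Type*} [Fintype d] [DecidableEq d] (A : Matrix Q d k)
    (hA : ∀ a : Q → k, (∀ j, ∑ q, a q * A q j = 0) → a = 0) :
    ∃ s : Q → d, (A.submatrix id s).det ≠ 0 := by
  classical
  have hspan : Submodule.span k (Set.range fun j => fun q => A q j) = ⊤ := by
    by_contra hne
    obtain ⟨f, hf0, hf⟩ := Submodule.exists_le_ker_of_lt_top _ (lt_top_iff_ne_top.2 hne)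
    apply hf0
    have h1 : (fun q => f (Pi.single q 1)) = (0 : Q → k) := by
      apply hA
      intro j
      have h2 : f (fun q => A q j) = 0 := hf (Submodule.subset_span ⟨j, rfl⟩)
      rw [← h2]
      have h3 : (fun q => A q j) = ∑ q, A q j • (Pi.single q (1 : k) : Q → k) := by
        funext q
        simp [Finset.sum_apply, Pi.single_apply]
      rw [h3, map_sum]
      apply Finset.sum_congr rfl
      intro q _
      rw [map_smul, smul_eq_mul, mul_comm]
    apply LinearMap.pi_ext'
    intro q
    ext
    simpa using congrFun h1 q
  obtain ⟨b, hb, hbs, hbi⟩ := exists_linearIndependent k (Set.range fun j => fun q => A q j)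
  rw [hspan] at hbs
  let B : Module.Basis b k (Q → k) := Module.Basis.mk hbi (by simp [hbs])
  have hfin : Finite b := Module.Finite.finite_basis B
  let _ : Fintype b := Fintype.ofFinite b
  have hcard : Fintype.card b = Fintype.card Q := by
    have h1 := Module.finrank_eq_card_basis B
    rw [Module.finrank_pi] at h1
    exact h1.symm
  let ι : Q ≃ b := (Fintype.equivOfCardEq hcard).symm
  choose s hs using fun x : b => hb x.2
  refine ⟨fun q => s (ι q), ?_⟩
  have hli : LinearIndependent k (fun q => fun q' => A q' (s (ι q))) := by
    have h1 : (fun q => fun q' => A q' (s (ι q))) = fun q => ((ι q : b) : Q → k) := by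
      funext q
      exact hs (ι q)
    rw [h1]
    exact hbi.comp ι ι.injective
  have hu : IsUnit (A.submatrix id fun q => s (ι q)) := by
    rw [← Matrix.linearIndependent_cols_iff_isUnit]
    exact hli
  exact ((Matrix.isUnit_iff_isUnit_det _).1 hu).ne_zero

/-- Linear algebra over a valuation, see `exists_unit_minor`. -/
theorem exists_unit_minor' {K : Type*} [Field K] {Γ : Type*} [LinearOrderedCommGroupWithZero Γ]
    {Q : Type*} [Fintype Q] [DecidableEq Q] {d : Type*} [Fintype d] [DecidableEq d]
    (v : Valuation K Γ) (A : Q → d → K) (μ : Q → Γ)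
    (hμ : ∀ q, μ q ≠ 0) (hμ' : ∀ q, ∃ c : K, v c = μ q) (hle : ∀ q j, v (A q j) ≤ μ q)
    (hnd : ∀ (a : Q → K) (q : Q), ∃ j, v (a q) * μ q ≤ v (∑ q', a q' * A q' j)) :
    ∃ s : Q → d, Function.Injective s ∧
      v (Matrix.det (Matrix.of fun q q' => A q (s q'))) = ∏ q, μ q := by
  classical
  choose c hc using hμ'
  have hc0 : ∀ q, c q ≠ 0 := fun q h => hμ q (by rw [← hc q, h, map_zero])
  -- the matrix with integral entries
  have hint : ∀ q j, v (A q j / c q) ≤ 1 := by
    intro q j
    rw [map_div₀, hc]
    exact div_le_one_of_le₀ (hle q j) zero_le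
  let A' : Matrix Q d v.valuationSubring := Matrix.of fun q j => ⟨A q j / c q, hint q j⟩
  let π := IsLocalRing.residue v.valuationSubring
  obtain ⟨s, hs⟩ := exists_minor_ne_zero (A'.map π) (by
    intro a ha
    by_contra hne
    obtain ⟨q, hq⟩ : ∃ q, a q ≠ 0 := by
      by_contra hcon
      push Not at hcon
      exact hne (funext hcon)
    choose a' ha' using fun q => IsLocalRing.residue_surjective (a q)
    have hvq : v (a' q : K) = 1 := by
      have hu : IsUnit (a' q) := by
        by_contra hnu
        apply hq
        rw [← ha' q]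
        rwa [IsLocalRing.residue_eq_zero_iff, IsLocalRing.mem_maximalIdeal]
      exact (Valuation.integer.integers v).valuation_unit hu.unit
    obtain ⟨j, hj⟩ := hnd (fun q' => (a' q' : K) / c q') q
    have h1 : v ((a' q : K) / c q) * μ q = 1 := by
      rw [map_div₀, hvq, hc, one_div, inv_mul_cancel₀ (hμ q)]
    rw [h1] at hj
    have h2 : ∑ q', (a' q' : K) / c q' * A q' j =
        ((∑ q', a' q' * A' q' j : v.valuationSubring) : K) := by
      push_cast
      apply Finset.sum_congr rfl
      intro q' _
      change _ = (a' q' : K) * (A q' j / c q')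
      ring
    rw [h2] at hj
    have h3 : π (∑ q', a' q' * A' q' j) = 0 := by
      rw [map_sum, ← ha j]
      apply Finset.sum_congr rfl
      intro q' _
      rw [map_mul, ha']
      rfl
    rw [IsLocalRing.residue_eq_zero_iff, IsLocalRing.mem_maximalIdeal, mem_nonunits_iff] at h3
    apply h3
    have h4 : v ((∑ q', a' q' * A' q' j : v.valuationSubring) : K) = 1 :=
      le_antisymm (∑ q', a' q' * A' q' j : v.valuationSubring).2 hj
    exact (Valuation.integer.integers v).isUnit_of_one' h4)
  have hdet : v ((A'.submatrix id s).det : K) = 1 := by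
    have h1 : IsUnit (A'.submatrix id s).det := by
      by_contra hnu
      apply hs
      have h2 : ((A'.map π).submatrix id s).det = π (A'.submatrix id s).det := by
        rw [RingHom.map_det]
        rfl
      rw [h2, IsLocalRing.residue_eq_zero_iff, IsLocalRing.mem_maximalIdeal]
      exact hnu
    exact (Valuation.integer.integers v).valuation_unit h1.unit
  have hdet2 : Matrix.det (Matrix.of fun q q' => A q (s q')) =
      (∏ q, c q) * ((A'.submatrix id s).det : K) := by
    have h1 : (Matrix.of fun q q' => A q (s q')) = Matrix.of fun q q' =>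
        c q * ((A'.submatrix id s).map (algebraMap v.valuationSubring K)) q q' := by
      ext q q'
      change A q (s q') = c q * (A q (s q') / c q)
      rw [mul_div_cancel₀ _ (hc0 q)]
    have h2 : ((A'.submatrix id s).det : K) =
        ((A'.submatrix id s).map (algebraMap v.valuationSubring K)).det := by
      change algebraMap v.valuationSubring K _ = _
      rw [RingHom.map_det]
      rfl
    rw [h1, Matrix.det_mul_column, h2]
  have hval : v (Matrix.det (Matrix.of fun q q' => A q (s q'))) = ∏ q, μ q := by
    rw [hdet2, map_mul, hdet, mul_one, map_prod]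
    exact Finset.prod_congr rfl fun q _ => hc q
  refine ⟨s, ?_, hval⟩
  intro q q' hqq
  by_contra hne
  have h0 : Matrix.det (Matrix.of fun q q' => A q (s q')) = 0 :=
    Matrix.det_zero_of_column_eq hne fun i => by simp [hqq]
  rw [h0, map_zero] at hval
  exact (Finset.prod_ne_zero_iff.2 fun q _ => hμ q) hval.symm

end Unit

end Pool.Agent.Work.CI
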