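import Mathlib
import Pool.Agent.Work.MP_4329d7_ag_ci.Defs
import Pool.Agent.Work.MP_4329d7_ag_ci.FormMin
import Pool.Agent.Work.MP_4329d7_ag_uni.Plur
import Pool.Agent.Work.MP_4329d7_ag_uni.FormsVal
import Pool.Agent.Work.MP_4329d7_ag_sq.Reduce

set_option autoImplicit false

/-!
V-M2, steps (1), (2), (3): the relation between the logarithmic differentials, the form does not
depend on the choice of the minor, the complement of a nonzero minor is a transcendence basis.
-/

open scoped WithZero

namespace Pool.Agent.Work.CI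

open Pool.Agent.Work.Uni Pool.Agent.Work.MP_4329d7_ag.FF

variable {K : Type} [Field K] [Algebra ℂ K] {n d : ℕ} {Q : Type} [Fintype Q] [DecidableEq Q]
  {x : Fin d → K} {f : Q → Lau d}

/-- derivative of a monomial -/
theorem formA_mon (hx : ∀ j, x j ≠ 0) (δ : Derivation ℂ K K) (χ : Fin d → ℤ) :
    δ (mon x χ) = mon x χ * ∑ j, (χ j : K) * (δ (x j) / x j) := by
  classical
  unfold mon
  have key : ∀ s : Finset (Fin d), δ (∏ j ∈ s, x j ^ χ j) =
      (∏ j ∈ s, x j ^ χ j) * ∑ j ∈ s, (χ j : K) * (δ (x j) / x j) := by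
    intro s
    induction s using Finset.induction_on with
    | empty => simp
    | insert j s hj ih =>
      rw [Finset.prod_insert hj, Finset.sum_insert hj, Derivation.leibniz, ih,
        Derivation.leibniz_zpow]
      have h1 : x j ^ (χ j - 1) = x j ^ χ j * (x j)⁻¹ := by
        rw [zpow_sub₀ (hx j), zpow_one, div_eq_mul_inv]
      rw [h1]
      simp only [smul_eq_mul, zsmul_eq_mul]
      ring
  exact key Finset.univ

/-- the relation between the logarithmic differentials -/
theorem formA_rel (D : Data K n d Q x f) (δ : Derivation ℂ K K) (q : Q) :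
    ∑ j, ldv (f q) j x * (δ (x j) / x j) = 0 := by
  have h1 := congrArg δ (D.eq q)
  rw [map_zero] at h1
  unfold ev at h1
  rw [map_sum] at h1
  rw [← h1]
  unfold ldv
  simp_rw [Finset.sum_mul]
  rw [Finset.sum_comm]
  refine Finset.sum_congr rfl fun χ _ => ?_
  rw [Derivation.leibniz, Derivation.map_algebraMap, smul_zero, add_zero, smul_eq_mul,
    formA_mon D.ne, Finset.mul_sum, Finset.mul_sum]
  refine Finset.sum_congr rfl fun j _ => ?_
  ring

/-- the form as a function of the derivations -/
noncomputable def formG (x : Fin d → K) (f : Q → Lau d) (w : Fin d → ℤ) (M : ℕ) (s : Q → Fin d)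
    (e : Fin n → Fin d) (D : Fin (2 * M) × Fin n → Derivation ℂ K K) : K :=
  (mon x w) ^ 2 * ∏ a : Fin (2 * M),
    ((Matrix.of fun i j : Fin n => D (a, i) (x (e j)) / x (e j)).det /
      (Matrix.of fun q q' => ldv (f q) (s q') x).det)

/-- the form does not depend on the choice of the minor -/
theorem formG_indep (D : Data K n d Q x f) (w : Fin d → ℤ) (M : ℕ) (s s' : Q → Fin d)
    (e e' : Fin n → Fin d) (h : Function.Bijective (Sum.elim e s))
    (h' : Function.Bijective (Sum.elim e' s'))
    (hs : (Matrix.of fun q q' => ldv (f q) (s q') x).det ≠ 0)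
    (hs' : (Matrix.of fun q q' => ldv (f q) (s' q') x).det ≠ 0)
    (Dv : Fin (2 * M) × Fin n → Derivation ℂ K K) :
    formG x f w M s e Dv = formG x f w M s' e' Dv := by
  obtain ⟨ε, hε, hmin⟩ := compl_minors (Matrix.of fun (q : Q) (j : Fin d) => ldv (f q) j x)
    s s' e e' h h'
  have key : ∀ a : Fin (2 * M),
      (Matrix.of fun i j : Fin n => Dv (a, i) (x (e j)) / x (e j)).det /
        (Matrix.of fun q q' => ldv (f q) (s q') x).det =
      ε * ((Matrix.of fun i j : Fin n => Dv (a, i) (x (e' j)) / x (e' j)).det /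
        (Matrix.of fun q q' => ldv (f q) (s' q') x).det) := by
    intro a
    have h1 := hmin (Matrix.of fun (j : Fin d) (i : Fin n) => Dv (a, i) (x j) / x j) (by
      ext q i
      rw [Matrix.mul_apply, Matrix.zero_apply]
      exact formA_rel D (Dv (a, i)) q)
    have h2 : ∀ e : Fin n → Fin d, ((Matrix.of fun (j : Fin d) (i : Fin n) =>
        Dv (a, i) (x j) / x j).submatrix e id).det =
        (Matrix.of fun i j : Fin n => Dv (a, i) (x (e j)) / x (e j)).det := by
      intro e
      rw [← Matrix.det_transpose]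
      rfl
    have h3 : ∀ s : Q → Fin d, ((Matrix.of fun (q : Q) (j : Fin d) =>
        ldv (f q) j x).submatrix id s).det = (Matrix.of fun q q' => ldv (f q) (s q') x).det :=
      fun s => rfl
    rw [h2, h2, h3, h3] at h1
    rw [div_eq_iff hs, mul_assoc, div_mul_eq_mul_div, ← mul_div_assoc, eq_div_iff hs']
    rw [h1]
  unfold formG
  congr 1
  rw [Finset.prod_congr rfl fun a _ => key a, Finset.prod_mul_distrib, Finset.prod_const,
    Finset.card_univ, Fintype.card_fin, pow_mul]
  have : ε ^ 2 = 1 := by
    rcases hε with rfl | rfl <;> ring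
  rw [this, one_pow, one_mul]

/-- complements exist -/
theorem formA_compl (hdim : n + Fintype.card Q = d) (s : Q → Fin d) (hs : Function.Injective s) :
    ∃ e : Fin n → Fin d, Function.Bijective (Sum.elim e s) := by
  classical
  have hcard : ((Finset.univ.image s)ᶜ).card = n := by
    rw [Finset.card_compl, Finset.card_image_of_injective _ hs, Finset.card_univ, Fintype.card_fin]
    omega
  let u := ((Finset.univ.image s)ᶜ).equivFinOfCardEq hcard
  refine ⟨fun i => (u.symm i : Fin d), ?_⟩
  have hne : ∀ i q, ((u.symm i : _) : Fin d) ≠ s q := by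
    intro i q h
    have h1 := (u.symm i).2
    rw [Finset.mem_compl, h] at h1
    exact h1 (Finset.mem_image_of_mem _ (Finset.mem_univ _))
  constructor
  · rintro (i | q) (j | r) h
    · simp only [Sum.elim_inl] at h
      rw [u.symm.injective (Subtype.ext h)]
    · exact absurd h (hne i r)
    · exact absurd h.symm (hne j q)
    · simp only [Sum.elim_inr] at h
      rw [hs h]
  · intro j
    by_cases hj : j ∈ Finset.univ.image s
    · obtain ⟨q, _, rfl⟩ := Finset.mem_image.1 hj
      exact ⟨Sum.inr q, rfl⟩
    · refine ⟨Sum.inl (u ⟨j, Finset.mem_compl.2 hj⟩), ?_⟩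
      simp only [Sum.elim_inl, Equiv.symm_apply_apply]

/-- a derivation which kills the coordinates of the complement of a nonzero minor is zero -/
theorem formA_der_zero (D : Data K n d Q x f) (s : Q → Fin d) (e : Fin n → Fin d)
    (h : Function.Bijective (Sum.elim e s))
    (hs : (Matrix.of fun q q' => ldv (f q) (s q') x).det ≠ 0)
    (δ : Derivation ℂ K K) (hδ : ∀ i, δ (x (e i)) = 0) : δ = 0 := by
  -- the other coordinates
  have h1 : (Matrix.of fun q q' => ldv (f q) (s q') x).mulVec
      (fun q => δ (x (s q)) / x (s q)) = 0 := by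
    funext q
    have h2 := formA_rel D δ q
    rw [← Equiv.sum_comp (Equiv.ofBijective _ h), Fintype.sum_sum_type] at h2
    simp only [Equiv.ofBijective_apply, Sum.elim_inl, Sum.elim_inr, hδ, zero_div, mul_zero,
      Finset.sum_const_zero, zero_add] at h2
    exact h2
  have h3 := Matrix.eq_zero_of_mulVec_eq_zero hs h1
  have h4 : ∀ j, δ (x j) = 0 := by
    intro j
    obtain ⟨r, rfl⟩ := h.2 j
    rcases r with i | q
    · exact hδ i
    · have h5 := congrFun h3 q
      simp only [Pi.zero_apply, div_eq_zero_iff, D.ne, or_false] at h5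
      exact h5
  -- the kernel of a derivation is a field
  let L : IntermediateField ℂ K :=
    { carrier := {z | δ z = 0}
      mul_mem' := by
        intro a b ha hb
        simp only [Set.mem_ofPred_eq] at ha hb ⊢
        rw [Derivation.leibniz, ha, hb, smul_zero, smul_zero, add_zero]
      one_mem' := Derivation.map_one_eq_zero δ
      add_mem' := by
        intro a b ha hb
        simp only [Set.mem_ofPred_eq] at ha hb ⊢
        rw [map_add, ha, hb, add_zero]
      zero_mem' := map_zero δ
      algebraMap_mem' := fun c => Derivation.map_algebraMap δ c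
      inv_mem' := by
        intro a ha
        change δ a = 0 at ha
        change δ a⁻¹ = 0
        rw [Derivation.leibniz_inv, ha, smul_zero] }
  have h5 : (⊤ : IntermediateField ℂ K) ≤ L := by
    rw [← D.gen, IntermediateField.adjoin_le_iff]
    rintro _ ⟨j, rfl⟩
    exact h4 j
  ext z
  exact h5 IntermediateField.mem_top

/-- the complement of a nonzero minor is a transcendence basis -/
theorem formA_basis (D : Data K n d Q x f) (s : Q → Fin d) (e : Fin n → Fin d)
    (h : Function.Bijective (Sum.elim e s))
    (hs : (Matrix.of fun q q' => ldv (f q) (s q') x).det ≠ 0) :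
    IsTranscendenceBasis ℂ (fun i => x (e i)) := by
  classical
  set F := IntermediateField.adjoin ℂ (Set.range fun i => x (e i)) with hF
  have hchar : CharZero K := charZero_of_injective_algebraMap (algebraMap ℂ K).injective
  have hess : Algebra.EssFiniteType ℂ K := by
    have h1 : (⊤ : IntermediateField ℂ K).FG := by
      refine ⟨Finset.univ.image x, ?_⟩
      rw [Finset.coe_image, Finset.coe_univ, Set.image_univ]
      exact D.gen
    exact IntermediateField.fg_top_iff.1 h1
  have hessF : Algebra.EssFiniteType F K := Algebra.EssFiniteType.of_comp ℂ F K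
  have hder : ∀ δ : Derivation F K K, δ = 0 := by
    intro δ
    have h1 : δ.restrictScalars ℂ = 0 := by
      refine formA_der_zero D s e h hs _ fun i => ?_
      have hmem : x (e i) ∈ F := IntermediateField.subset_adjoin _ _ ⟨i, rfl⟩
      have h2 := Derivation.map_algebraMap δ (⟨x (e i), hmem⟩ : F)
      exact h2
    ext z
    have h2 := congrArg (fun δ' : Derivation ℂ K K => δ' z) h1
    exact h2
  have hsub : Subsingleton (Ω[K⁄F]) := by
    refine ⟨fun a b => ?_⟩
    rw [← sub_eq_zero, ← Module.forall_dual_apply_eq_zero_iff K]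
    intro g
    have h1 : g = 0 := by
      apply (KaehlerDifferential.linearMapEquivDerivation F K).injective
      rw [hder ((KaehlerDifferential.linearMapEquivDerivation F K) g), map_zero]
    rw [h1, LinearMap.zero_apply]
  have hunr : Algebra.FormallyUnramified F K := ⟨hsub⟩
  have hsep : Algebra.IsSeparable F K := Algebra.FormallyUnramified.isSeparable F K
  have halg : Algebra.IsAlgebraic F K := inferInstance
  have halg' : Algebra.IsAlgebraic (Algebra.adjoin ℂ (Set.range fun i => x (e i))) K :=
    MP_4329d7_ag_sq.isAlgebraic_adjoin _ halg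
  refine Algebra.IsAlgebraic.isTranscendenceBasis_of_lift_le_trdeg_of_finite ℂ _ ?_
  rw [D.trdeg]
  simp

/-- the tensor form -/
noncomputable def formT (x : Fin d → K) (f : Q → Lau d) (w : Fin d → ℤ) (M : ℕ) (s : Q → Fin d)
    (e : Fin n → Fin d) : TensorForm K (2 * M * n) :=
  mForm (finProdFinEquiv.symm.trans (Equiv.prodCongr (Equiv.refl (Fin (2 * M)))
    (Equiv.refl (Fin n)).symm)) (fun i => x (e i))
    ((mon x w) ^ 2 / (Matrix.of fun q q' => ldv (f q) (s q') x).det ^ (2 * M) /
      (∏ j, x (e j)) ^ (2 * M))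

theorem formT_apply (hx : ∀ j, x j ≠ 0) (w : Fin d → ℤ) (M : ℕ) (s : Q → Fin d)
    (e : Fin n → Fin d) (Dv : Fin (2 * M * n) → Derivation ℂ K K) :
    formT x f w M s e Dv = formG x f w M s e (fun p => Dv (finProdFinEquiv p)) := by
  unfold formT formG
  rw [mForm_apply]
  have h1 : ∀ a : Fin (2 * M), Matrix.det (Matrix.of fun i j : Fin n =>
      Dv ((finProdFinEquiv.symm.trans (Equiv.prodCongr (Equiv.refl (Fin (2 * M)))
        (Equiv.refl (Fin n)).symm)).symm (a, i)) (x (e j))) = (∏ j, x (e j)) *
      (Matrix.of fun i j : Fin n => Dv (finProdFinEquiv (a, i)) (x (e j)) / x (e j)).det := by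
    intro a
    rw [← Matrix.det_mul_row]
    congr 1
    ext i j
    simp only [Matrix.of_apply]
    rw [mul_div_cancel₀ _ (hx _)]
    rfl
  have h2 : (∏ j, x (e j)) ≠ 0 := Finset.prod_ne_zero_iff.2 fun j _ => hx _
  simp only [h1]
  rw [Finset.prod_mul_distrib, Finset.prod_div_distrib, Finset.prod_const, Finset.prod_const,
    Finset.card_univ, Fintype.card_fin]
  field_simp

/-- assembly: if for every valuation some minor gives a regular form, then there is a regular
nonzero pluricanonical form -/
theorem formA_exists (D : Data K n d Q x f) (w : Fin d → ℤ) (M : ℕ)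
    (hloc : ∀ v : Valuation K ℤᵐ⁰, (∀ c : ℂ, v (algebraMap ℂ K c) ≤ 1) →
      ∃ s : Q → Fin d, Function.Injective s ∧
        (Matrix.of fun q q' => ldv (f q) (s q') x).det ≠ 0 ∧ ∀ e : Fin n → Fin d,
        Rep v (fun D : Fin (2 * M) × Fin n → Derivation ℂ K K => (mon x w) ^ 2 *
          ∏ a : Fin (2 * M),
            ((Matrix.of fun i j : Fin n => D (a, i) (x (e j)) / x (e j)).det /
              (Matrix.of fun q q' => ldv (f q) (s q') x).det))) :
    ∃ T : TensorForm K (2 * M * n), IsPluricanonical (2 * M) n T ∧ IsRegular T ∧ T ≠ 0 := by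
  classical
  obtain ⟨s0, hs0i, hs0, -⟩ := hloc 1 (fun c => by
    by_cases hc : algebraMap ℂ K c = 0
    · rw [hc, map_zero]
      exact zero_le_one
    · rw [Valuation.one_apply_of_ne_zero hc])
  obtain ⟨e0, he0⟩ := formA_compl D.dim s0 hs0i
  refine ⟨formT x f w M s0 e0, mForm_isPluricanonical (2 * M) n (Equiv.refl (Fin n)) _ _, ?_, ?_⟩
  · intro v hv
    obtain ⟨s, hsi, hs, hrep⟩ := hloc v hv
    obtain ⟨e, he⟩ := formA_compl D.dim s hsi
    refine Rep.regularAt v _ ?_
    have h1 := (hrep e).reindex v finProdFinEquiv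
    convert h1 using 2 with Dv
    rw [formT_apply D.ne, formG_indep D w M s0 s e0 e he0 he hs0 hs]
    rfl
  · refine mForm_ne_zero _ _ (formA_basis D s0 e0 he0 hs0) _ ?_
    refine div_ne_zero (div_ne_zero (pow_ne_zero _ (mon_ne_zero D.ne w)) (pow_ne_zero _ hs0))
      (pow_ne_zero _ (Finset.prod_ne_zero_iff.2 fun j _ => D.ne _))

end Pool.Agent.Work.CI
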