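import Mathlib
import Pool.Agent.Work.MP_4329d7_ag_ci.Defs
import Pool.Agent.Work.MP_4329d7_ag_ci.FormMin
import Pool.Agent.Work.MP_4329d7_ag_uni.FormsVal
import Pool.Agent.Work.MP_4329d7_ag_sq.Reduce

set_option autoImplicit false

/-!
V-M2, step (4): regularity at one valuation, for a minor of maximal value.
-/

open scoped WithZero

namespace Pool.Agent.Work.CI

open Pool.Agent.Work.Uni Pool.Agent.Work.MP_4329d7_ag.FF

variable {K : Type} [Field K] [Algebra ℂ K] {n d : ℕ} {Q : Type} [Fintype Q] [DecidableEq Q]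
  {x : Fin d → K} {f : Q → Lau d}

/-- the value of the logarithmic derivatives -/
theorem formB_ldv_le (v : Valuation K ℤᵐ⁰) (hv : ∀ c : ℂ, v (algebraMap ℂ K c) ≤ 1)
    (g : Lau d) (j : Fin d) (x : Fin d → K) (μ : ℤᵐ⁰) (h : ∀ χ ∈ g.support, v (mon x χ) ≤ μ) :
    v (ldv g j x) ≤ μ := by
  unfold ldv
  refine v.map_sum_le fun χ hχ => ?_
  rw [map_mul, map_mul]
  calc v (algebraMap ℂ K (g χ)) * v ((χ j : ℤ) : K) * v (mon x χ)
      ≤ 1 * 1 * v (mon x χ) := by
        gcongr
        · exact hv _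
        · exact repdet_int_le v _
    _ ≤ μ := by
        rw [one_mul, one_mul]
        exact h χ hχ

/-- Step (4) of `exists_form`. -/
theorem formB_local (D : Data K n d Q x f) (w : Fin d → ℤ) (M : ℕ)
    (hw : ∀ b : Fin d → ℤ, b ≠ 0 → (M : ℤ) ≤ pair w b - M * ∑ q, mn (f q) b)
    (v : Valuation K ℤᵐ⁰) (hv : ∀ c : ℂ, v (algebraMap ℂ K c) ≤ 1) :
    ∃ s : Q → Fin d, Function.Injective s ∧
      (Matrix.of fun q q' => ldv (f q) (s q') x).det ≠ 0 ∧ ∀ e : Fin n → Fin d,
      Rep v (fun D : Fin (2 * M) × Fin n → Derivation ℂ K K => (mon x w) ^ 2 *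
        ∏ a : Fin (2 * M),
          ((Matrix.of fun i j : Fin n => D (a, i) (x (e j)) / x (e j)).det /
            (Matrix.of fun q q' => ldv (f q) (s q') x).det)) := by
  classical
  have hmax : ∀ q, ∃ χ ∈ (f q).support, ∀ χ' ∈ (f q).support, v (mon x χ') ≤ v (mon x χ) :=
    fun q => Finset.exists_max_image (f q).support (fun χ => v (mon x χ))
      (Finsupp.support_nonempty_iff.2 (D.nz q))
  choose χm hχm hχmax using hmax
  have hμ : ∀ q, v (mon x (χm q)) ≠ 0 := fun q => (v.ne_zero_iff).2 (mon_ne_zero D.ne _)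
  obtain ⟨s, hsi, hs⟩ := exists_unit_minor' v (fun q j => ldv (f q) j x)
    (fun q => v (mon x (χm q))) hμ (fun q => ⟨_, rfl⟩)
    (fun q j => formB_ldv_le v hv (f q) j x _ (hχmax q))
    (fun a q => D.loc v hv a q (χm q) (hχm q))
  set Δ : K := (Matrix.of fun q q' => ldv (f q) (s q') x).det with hΔ
  have hΔ0 : Δ ≠ 0 := by
    rw [← v.ne_zero_iff, hs]
    exact Finset.prod_ne_zero_iff.2 fun q _ => hμ q
  refine ⟨s, hsi, hΔ0, fun e => ?_⟩
  have hsome : ∀ i : Fin n, ∃! r : Fin n, some r = some i := fun i =>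
    ⟨i, rfl, fun r hr => Option.some_injective _ hr⟩
  by_cases hall : ∀ j, v (x j) = 1
  · -- all coordinates are units
    have hmon : ∀ χ, v (mon x χ) = 1 := by
      intro χ
      unfold mon
      rw [map_prod]
      refine Finset.prod_eq_one fun j _ => ?_
      rw [map_zpow₀, hall j, one_zpow]
    have h1 : Rep v (fun D : Fin n → Derivation ℂ K K =>
        (Matrix.of fun i j : Fin n => D i (x (e j)) / x (e j)).det) :=
      det_log_unit v (fun r : Fin n => some r) hsome (fun j => x (e j)) (fun j => hall _)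
        (fun _ _ => 0) (fun _ _ => by simp)
    have h2 := Rep.block (S := Fin (2 * M)) v (T := fun _ => _) (fun _ => h1)
    have hc : v ((mon x w) ^ 2 * (Δ⁻¹) ^ (2 * M)) ≤ 1 := by
      rw [map_mul, map_pow, map_pow, map_inv₀, hs, hmon, one_pow, one_mul]
      simp [hmon]
    have h3 := Rep.smul v _ hc h2
    convert h3 using 2 with Dv
    rw [Finset.prod_div_distrib, Finset.prod_const, Finset.card_univ, Fintype.card_fin, ← hΔ,
      inv_pow, div_eq_mul_inv]
    ring
  · push Not at hall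
    obtain ⟨j0, hj0⟩ := hall
    obtain ⟨t, ht0, ht1, htmax⟩ : ∃ t : K, t ≠ 0 ∧ v t < 1 ∧ ∀ y, v y < 1 → v y ≤ v t := by
      rcases lt_or_gt_of_ne hj0 with h | h
      · obtain ⟨t, ht0, ht1, htmax⟩ := MP_4329d7_ag_sq.exists_uniformizer v (D.ne j0) h
        exact ⟨t, ht0, ht1, htmax⟩
      · have h1 : v (x j0)⁻¹ < 1 := by
          rw [map_inv₀]
          exact inv_lt_one_of_one_lt₀ h
        obtain ⟨t, ht0, ht1, htmax⟩ := MP_4329d7_ag_sq.exists_uniformizer v
          (inv_ne_zero (D.ne j0)) h1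
        exact ⟨t, ht0, ht1, htmax⟩
    have hvt : v t ≠ 0 := (v.ne_zero_iff).2 ht0
    have hvt0 : 0 < v t := zero_lt_iff.2 hvt
    have hex := fun j => repdet_exists_zpow v ht0 ht1 htmax (D.ne j)
    choose b u hu hbu using hex
    have hxb : ∀ j, v (x j) = v t ^ b j := by
      intro j
      conv_lhs => rw [hbu j]
      rw [map_mul, hu j, mul_one, map_zpow₀]
    have hb0 : b ≠ 0 := by
      intro h0
      apply hj0
      rw [hxb, h0, Pi.zero_apply, zpow_zero]
    have hmon : ∀ χ, v (mon x χ) = v t ^ pair χ b := by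
      intro χ
      unfold mon pair
      rw [map_prod]
      have h1 : ∀ s : Finset (Fin d), ∏ j ∈ s, v (x j ^ χ j) = v t ^ ∑ j ∈ s, χ j * b j := by
        intro s
        induction s using Finset.induction_on with
        | empty => simp
        | insert j s hj ih =>
          rw [Finset.prod_insert hj, Finset.sum_insert hj, ih, zpow_add₀ hvt, map_zpow₀, hxb,
            ← zpow_mul, mul_comm (b j)]
      exact h1 _
    have hmn : ∀ q, v (mon x (χm q)) = v t ^ mn (f q) b := by
      intro q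
      obtain ⟨χ, hχ, h1⟩ := exists_mn (D.nz q) b
      rw [← h1, ← hmon]
      refine le_antisymm ?_ (hχmax q χ hχ)
      rw [hmon, hmon]
      refine (zpow_le_zpow_iff_right_of_lt_one₀ hvt0 ht1).2 ?_
      rw [h1]
      exact mn_le (hχm q) b
    have hΔv : v Δ = v t ^ ∑ q, mn (f q) b := by
      rw [hs]
      have h1 : ∀ s : Finset Q, ∏ q ∈ s, v (mon x (χm q)) = v t ^ ∑ q ∈ s, mn (f q) b := by
        intro s
        induction s using Finset.induction_on with
        | empty => simp
        | insert q s hq ih =>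
          rw [Finset.prod_insert hq, Finset.sum_insert hq, ih, zpow_add₀ hvt, hmn]
      exact h1 _
    have h1 : Rep v (fun D : Fin n → Derivation ℂ K K =>
        t * (Matrix.of fun i j : Fin n => D i (x (e j)) / x (e j)).det) :=
      det_log v (fun r : Fin n => some r) hsome t ht0 ht1 htmax (fun j => x (e j))
        (fun j => D.ne _) (fun _ _ => 0) (fun _ _ => by simp)
    have h2 := Rep.block (S := Fin (2 * M)) v (T := fun _ => _) (fun _ => h1)
    have hc : v ((mon x w) ^ 2 * (Δ⁻¹) ^ (2 * M) * (t⁻¹) ^ (2 * M)) ≤ 1 := by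
      have h3 : v ((mon x w) ^ 2 * (Δ⁻¹) ^ (2 * M) * (t⁻¹) ^ (2 * M)) =
          v t ^ (2 * (pair w b - M * (∑ q, mn (f q) b) - M)) := by
        rw [map_mul, map_mul, map_pow, map_pow, map_pow, map_inv₀, map_inv₀, hΔv, hmon,
          ← zpow_natCast (v t ^ pair w b) 2, ← zpow_natCast _ (2 * M), ← zpow_natCast _ (2 * M),
          ← zpow_neg, ← zpow_neg_one, ← zpow_mul, ← zpow_mul, ← zpow_mul, ← zpow_add₀ hvt,
          ← zpow_add₀ hvt]
        congr 1
        push_cast
        ring
      rw [h3]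
      have h4 := hw b hb0
      have h5 : 0 ≤ 2 * (pair w b - M * (∑ q, mn (f q) b) - M) := by linarith
      exact zpow_le_one₀ hvt0 ht1.le h5
    have h3 := Rep.smul v _ hc h2
    convert h3 using 2 with Dv
    rw [Finset.prod_div_distrib, Finset.prod_mul_distrib, Finset.prod_const, Finset.prod_const,
      Finset.card_univ, Fintype.card_fin, ← hΔ, div_eq_mul_inv]
    have h6 : (t⁻¹) ^ (2 * M) * t ^ (2 * M) = 1 := by
      rw [← mul_pow, inv_mul_cancel₀ ht0, one_pow]
    have h7 : (Δ⁻¹) ^ (2 * M) = (Δ ^ (2 * M))⁻¹ := inv_pow _ _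
    rw [h7]
    calc _ = (mon x w) ^ 2 * (Δ ^ (2 * M))⁻¹ * 1 *
          ∏ a : Fin (2 * M), (Matrix.of fun i j : Fin n => Dv (a, i) (x (e j)) / x (e j)).det := by
          ring
      _ = _ := by
          rw [← h6]
          ring

end Pool.Agent.Work.CI
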