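import Mathlib
import Pool.Agent.Work.MP_4329d7_ag_ci.Defs
import Pool.Agent.Work.MP_4329d7_ag_uni.Plur
import Pool.Agent.Work.MP_4329d7_ag_uni.FormsVal
import Pool.Agent.Work.MP_4329d7_ag_ci.FormMin
import Pool.Agent.Work.MP_4329d7_ag_ci.FormA
import Pool.Agent.Work.MP_4329d7_ag_ci.FormB

/-!
V-M2: the form `(x ^ w) ^ 2 * (Poincaré residue) ^ (2 M)`.

Notation: `J q j = ldv (f q) j x` (a `Q × d` matrix over `K`).
(1) For every derivation `D` of `K/ℂ`: `∑ j, J q j * (D (x j) / x j) = 0` (apply `D` to
    `ev (f q) x = 0`).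
(2) For `s : Q ↪ Fin d` with `det (J q (s q')) ≠ 0` let `I_s` be the complement of the range of
    `s` (it has `n` elements).  For `d × n` matrices `L` with `J L = 0` and for two such `s, s'`:
    `det (L on I_s) * det (J on s') = ± det (L on I_s') * det (J on s)`, with a sign that does not
    depend on `L`.  (Proof: let `Y` be the coordinate projection to `I_s`, `E'` the coordinate
    vectors of `s'`; multiply the `d × d` matrix `[L | E']` by `[Y ; J]` from the left:
    `[Y L, Y E' ; 0, J E']`; `det [Y ; J] = ± det J_s`, `det [L | E'] = ± det (L on I_s')`.)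
    The order `2 M` kills the sign.
(3) So `T = x ^ (2 w) * ∏_(blocks a < 2 M) det (D_(a,i) (x j) / x j)_(i, j ∈ I_s) / det J_s` does
    not depend on `s`.  It is `mForm e (x on I_s) c`, hence pluricanonical, and nonzero, since
    `x` on `I_s` is a transcendence basis: `K` is algebraic over `ℂ (x on I_s)` (a derivation
    which kills `x` on `I_s` kills all `x j` by (1)), and `trdeg = n`.  A first `s` exists by
    `loc` at the trivial valuation (rows independent).
(4) Regularity at `v`: if all `v (x j) = 1`: choose `s` with `v (det J_s) = 1`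
    (`exists_unit_minor`), everything is integral.  Otherwise `v (x j) = v t ^ b j`, `b ≠ 0`,
    `x j = t ^ b j * u j`; choose `s` with `v (det J_s) = ∏ q, v t ^ mn (f q) b`; the form
    `det (D (x j) / x j)` has at most a simple pole (`D x / x = b D t / t + D u / u`), so the order
    of `T` is `≥ 2 * (pair w b - M * ∑ q, mn (f q) b) - 2 * M ≥ 0`.  (The determinant calculus
    with one pole is in `MP_4329d7_ag_uni/FormsDet.lean`, `FormsVal.lean`,
    `MP_4329d7_ag_sq`, `MP_4329d7_ag/FF/Rep_det.lean`.)
-/

open scoped WithZero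

namespace Pool.Agent.Work.CI

open Pool.Agent.Work.Uni Pool.Agent.Work.MP_4329d7_ag.FF

variable {K : Type} [Field K] [Algebra ℂ K] {n d : ℕ} {Q : Type} [Fintype Q] [DecidableEq Q]
  {x : Fin d → K} {f : Q → Lau d}

/-- Linear algebra over a valuation: if `v (A q j) ≤ μ q` and `A` is independent in the normed
sense then some maximal minor has the maximal possible value.  HINT: divide by elements of value
`μ q`; the rows of the matrix over the residue field are independent; or Gauss elimination by
induction on the number of rows: pivot = entry with `v (A q j) = μ q`. -/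
theorem exists_unit_minor (v : Valuation K ℤᵐ⁰) (A : Q → Fin d → K) (μ : Q → ℤᵐ⁰)
    (hμ : ∀ q, μ q ≠ 0) (hμ' : ∀ q, ∃ c : K, v c = μ q) (hle : ∀ q j, v (A q j) ≤ μ q)
    (hnd : ∀ (a : Q → K) (q : Q), ∃ j, v (a q) * μ q ≤ v (∑ q', a q' * A q' j)) :
    ∃ s : Q → Fin d, Function.Injective s ∧
      v (Matrix.det (Matrix.of fun q q' => A q (s q'))) = ∏ q, μ q :=
  exists_unit_minor' v A μ hμ hμ' hle hnd

theorem exists_form (D : Data K n d Q x f) (w : Fin d → ℤ) (M : ℕ) (hM : 0 < M)
    (hw : ∀ b : Fin d → ℤ, b ≠ 0 → (M : ℤ) ≤ pair w b - M * ∑ q, mn (f q) b) :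
    ∃ T : TensorForm K (2 * M * n), IsPluricanonical (2 * M) n T ∧ IsRegular T ∧ T ≠ 0 := by
  exact formA_exists D w M fun v hv => formB_local D w M hw v hv

end Pool.Agent.Work.CI
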