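import Mathlib
import Pool.Agent.Work.MP_4329d7_ag_ci.Defs

/-!
V-M5a: extension of characters to a divisible group.
-/

namespace Pool.Agent.Work.CI

open Pool.Agent.Work.Uni

/-- the units of an algebraically closed field are divisible -/
@[instance_reducible] noncomputable def divisUnits (k : Type) [Field k] [IsAlgClosed k] : DivisibleBy (Additive kˣ) ℤ := by
  haveI : DivisibleBy (Additive kˣ) ℕ := divisibleByOfSMulRightSurj _ _ (by
    intro n hn a
    obtain ⟨z, hz⟩ := IsAlgClosed.exists_pow_nat_eq ((Additive.toMul a : kˣ) : k) (Nat.pos_of_ne_zero hn)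
    have hz0 : z ≠ 0 := by
      rintro rfl
      rw [zero_pow hn] at hz
      exact (Additive.toMul a : kˣ).ne_zero hz.symm
    refine ⟨Additive.ofMul (Units.mk0 z hz0), ?_⟩
    show n • Additive.ofMul (Units.mk0 z hz0) = a
    rw [← ofMul_pow]
    apply Additive.toMul.injective
    rw [toMul_ofMul]
    ext
    simpa using hz)
  exact AddGroup.divisibleByIntOfDivisibleByNat _

theorem divisible {k : Type} [Field k] [IsAlgClosed k] {d : ℕ} {T : Type} [Fintype T]
    (b : T → Fin d → ℤ) (ψ : Multiplicative (Fin d → ℤ) →* kˣ)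
    (hψ : ∀ χ : Fin d → ℤ, (∀ t, pair χ (b t) = 0) → ψ (Multiplicative.ofAdd χ) = 1) :
    ∃ y : T → kˣ, ∀ χ : Fin d → ℤ,
      ψ (Multiplicative.ofAdd χ) = ∏ t, y t ^ pair χ (b t) := by
  classical
  let _ := divisUnits k
  -- the additive form
  let ψ' : (Fin d → ℤ) →+ Additive kˣ :=
    { toFun := fun χ => Additive.ofMul (ψ (Multiplicative.ofAdd χ))
      map_zero' := by simp
      map_add' := fun x y => by simp [ofAdd_add] }
  let φ : (Fin d → ℤ) →+ (T → ℤ) :=
    { toFun := fun χ t => pair χ (b t)
      map_zero' := by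
        funext t
        simp [pair]
      map_add' := fun x y => by
        funext t
        simp [pair, add_mul, Finset.sum_add_distrib] }
  have hker : φ.ker ≤ ψ'.ker := by
    intro χ hχ
    rw [AddMonoidHom.mem_ker] at hχ ⊢
    have h1 : ∀ t, pair χ (b t) = 0 := fun t => congrFun hχ t
    show Additive.ofMul (ψ (Multiplicative.ofAdd χ)) = 0
    rw [hψ χ h1]
    rfl
  let g : (Fin d → ℤ) ⧸ φ.ker →+ Additive kˣ := QuotientAddGroup.lift φ.ker ψ' hker
  obtain ⟨h, hh⟩ := (Module.Baer.of_divisible (Additive kˣ)).extension_property_addMonoidHom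
    (QuotientAddGroup.kerLift φ) (QuotientAddGroup.kerLift_injective φ) g
  refine ⟨fun t => Additive.toMul (h (Pi.single t 1)), fun χ => ?_⟩
  have h2 : h (φ χ) = ψ' χ := by
    have := DFunLike.congr_fun hh (QuotientAddGroup.mk χ)
    exact this
  have h3 : h (φ χ) = ∑ t, pair χ (b t) • h (Pi.single t 1) := by
    have h4 : φ χ = ∑ t, pair χ (b t) • (Pi.single t (1 : ℤ) : T → ℤ) := by
      funext t
      show pair χ (b t) = _
      rw [Finset.sum_apply, Finset.sum_eq_single t]
      · simp
      · intro t' _ ht'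
        simp [Pi.single_eq_of_ne ht'.symm]
      · intro ht
        exact absurd (Finset.mem_univ t) ht
    rw [h4, map_sum]
    exact Finset.sum_congr rfl fun t _ => map_zsmul h _ _
  have h5 : ψ (Multiplicative.ofAdd χ) = Additive.toMul (ψ' χ) := rfl
  rw [h5, ← h2, h3, toMul_sum]
  rfl

end Pool.Agent.Work.CI
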