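import Mathlib

/-!
V-M5c: an element outside a subfield is moved by an embedding over the subfield.
-/

namespace Pool.Agent.Work.CI

open Polynomial

/-- An algebraically closed field which is transcendental over `F` has an automorphism over `F`
which adds `1` to the elements of a given transcendence basis. -/
theorem exists_shift {F k ι : Type} [Field F] [Field k] [Algebra F k] [IsAlgClosed k]
    (v : ι → k) (hv : IsTranscendenceBasis F v) :
    ∃ e : k ≃+* k, (∀ z : F, e (algebraMap F k z) = algebraMap F k z) ∧ ∀ i, e (v i) = v i + 1 := by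
  let := IsAlgClosed.isAlgClosure_of_transcendence_basis v hv
  let A := Algebra.adjoin F (Set.range v)
  let e0 : MvPolynomial ι F ≃ₐ[F] A := hv.1.aevalEquiv
  let sh : MvPolynomial ι F ≃ₐ[F] MvPolynomial ι F :=
    AlgEquiv.ofAlgHom (MvPolynomial.aeval fun i => MvPolynomial.X i + 1)
      (MvPolynomial.aeval fun i => MvPolynomial.X i - 1)
      (by
        apply MvPolynomial.algHom_ext
        intro i
        simp)
      (by
        apply MvPolynomial.algHom_ext
        intro i
        simp)
  let th : A ≃ₐ[F] A := (e0.symm.trans sh).trans e0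
  have he0 : ∀ i, ((e0 (MvPolynomial.X i) : A) : k) = v i := by
    intro i
    have := hv.1.aevalEquiv_apply_coe (MvPolynomial.X i)
    rw [MvPolynomial.aeval_X] at this
    exact this
  have hthv : ∀ i, (th ⟨v i, Algebra.subset_adjoin ⟨i, rfl⟩⟩ : k) = v i + 1 := by
    intro i
    have h1 : e0 (MvPolynomial.X i) = ⟨v i, Algebra.subset_adjoin ⟨i, rfl⟩⟩ := by
      apply Subtype.ext
      exact he0 i
    rw [← h1]
    have h2 : th (e0 (MvPolynomial.X i)) = e0 (MvPolynomial.X i + 1) := by
      simp [th, sh]
    rw [h2, map_add, map_one]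
    change ((e0 (MvPolynomial.X i) : A) : k) + 1 = _
    rw [he0]
  refine ⟨IsAlgClosure.equivOfEquiv k k th.toRingEquiv, ?_, ?_⟩
  · intro z
    have h1 := IsAlgClosure.equivOfEquiv_algebraMap k k th.toRingEquiv (algebraMap F A z)
    have h2 : algebraMap A k (algebraMap F A z) = algebraMap F k z := rfl
    have h3 : th.toRingEquiv (algebraMap F A z) = algebraMap F A z := th.commutes z
    rw [h3, h2] at h1
    exact h1
  · intro i
    have h1 := IsAlgClosure.equivOfEquiv_algebraMap k k th.toRingEquiv
      ⟨v i, Algebra.subset_adjoin ⟨i, rfl⟩⟩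
    have h2 : algebraMap A k ⟨v i, Algebra.subset_adjoin ⟨i, rfl⟩⟩ = v i := rfl
    have h3 : algebraMap A k (th.toRingEquiv ⟨v i, Algebra.subset_adjoin ⟨i, rfl⟩⟩) = v i + 1 :=
      hthv i
    rw [h3, h2] at h1
    exact h1

/-- If `F` is a proper subfield of `K` then some embedding of `K` in its algebraic closure over `F`
is different from the inclusion. -/
theorem exists_moving {K : Type} [Field K] [Algebra ℂ K] (F : IntermediateField ℂ K)
    (hF : F ≠ ⊤) :
    ∃ σ : K →+* AlgebraicClosure K, (∀ z ∈ F, σ z = algebraMap K (AlgebraicClosure K) z) ∧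
      ∃ z, σ z ≠ algebraMap K (AlgebraicClosure K) z := by
  have hc : CharZero K := charZero_of_injective_algebraMap (algebraMap ℂ K).injective
  have hcF : CharZero F := charZero_of_injective_algebraMap (algebraMap ℂ F).injective
  by_cases hA : Algebra.IsAlgebraic F K
  · obtain ⟨x, hx⟩ : ∃ x : K, x ∉ F := by
      by_contra h
      push Not at h
      exact hF (eq_top_iff.2 fun z _ => h z)
    have hint : ∀ z : K, IsIntegral F z := fun z => Algebra.IsIntegral.isIntegral z
    have hirr := minpoly.irreducible (hint x)
    have hsep := hirr.separable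
    have hdeg : (minpoly F x).natDegree ≠ 1 := by
      intro h
      have h1 := minpoly.natDegree_eq_one_iff.1 h
      rw [RingHom.mem_range] at h1
      obtain ⟨y, hy⟩ := h1
      exact hx (hy ▸ y.2)
    have hpos := minpoly.natDegree_pos (hint x)
    have hspl : ∀ z : K, ((minpoly F z).map (algebraMap F (AlgebraicClosure K))).Splits :=
      fun z => IsAlgClosed.splits _
    have hcard := card_rootSet_eq_natDegree (K := AlgebraicClosure K) hsep (hspl x)
    obtain ⟨y, hy⟩ : ∃ y : (minpoly F x).rootSet (AlgebraicClosure K),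
        (y : AlgebraicClosure K) ≠ algebraMap K (AlgebraicClosure K) x := by
      by_contra h
      push Not at h
      have h1 : Fintype.card ((minpoly F x).rootSet (AlgebraicClosure K)) ≤ 1 :=
        Fintype.card_le_one_iff.2 fun a b => Subtype.ext ((h a).trans (h b).symm)
      omega
    obtain ⟨φ, hφ⟩ := IntermediateField.exists_algHom_of_splits_of_aeval
      (fun z => ⟨hint z, hspl z⟩) (aeval_eq_zero_of_mem_rootSet y.2)
    refine ⟨φ.toRingHom, fun z hz => ?_, x, ?_⟩
    · exact φ.commutes (⟨z, hz⟩ : F)
    · change φ x ≠ _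
      rw [hφ]
      exact hy
  · obtain ⟨ι, v, hv⟩ := exists_isTranscendenceBasis' F K
    have hne : Nonempty ι := by
      rw [← not_isEmpty_iff, hv.isEmpty_iff_isAlgebraic]
      exact hA
    obtain ⟨i⟩ := hne
    obtain ⟨e, h1, h2⟩ := exists_shift (F := F) (k := AlgebraicClosure K) _
      (hv.algebraMap_comp (A := AlgebraicClosure K))
    refine ⟨e.toRingHom.comp (algebraMap K (AlgebraicClosure K)), fun z hz => ?_, v i, ?_⟩
    · exact h1 ⟨z, hz⟩
    · have h3 := h2 i
      change e (algebraMap K (AlgebraicClosure K) (v i)) ≠ _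
      change e (algebraMap K (AlgebraicClosure K) (v i)) =
        algebraMap K (AlgebraicClosure K) (v i) + 1 at h3
      rw [h3]
      intro h4
      exact one_ne_zero (add_eq_left.1 h4)

end Pool.Agent.Work.CI
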