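import Mathlib
import Pool.Agent.Work.MP_4329d7_ag_uni.Crit

/-!
V-M5a: the two point lemma (in the language of MP_4329d7_ag_uni).  For an extreme packing with
`∑ lam = ∑ m + 1` and `#types = #moving relations + 1`:

* `kernel_ext`: the matrix `(∑ p, a q p * b t p)_(q moving, t)` has kernel spanned by `lam`.
  HINT: its rows are independent, otherwise `exists_nonconst_sol_of_dep` (Sys.lean; roots
  `Σ t, Fin (lam t)`) gives a nonconstant solution, against `const_of_lam` (Crit.lean).  `lam` is
  in the kernel by `IsExt.pack` and `Coef.sum`.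
* `two_points`: if `y t ≠ 0` satisfies the moving relations `∑ p, a q p ∏ t, y t ^ b t p = 0` then
  `y t = ρ ^ lam t`.
  HINT: unknowns: the roots `z (t, k)`, `k < lam t`, and `s`.  Equations: for every `t`:
  `∏ k, (- z (t, k)) = y t * s ^ lam t`; for every moving `q` (`1 ≤ m (g q)`) the coefficients of
  `X ^ j`, `1 ≤ j < m (g q)` (`coefPoly a β q j`).  Together
  `#T + ∑ q moving, (m (g q) - 1) = ∑ lam` equations, homogeneous of positive degree (or just
  vanishing at `0`, as required by `exists_zero'`), in `∑ lam + 1` unknowns: a nonzero solution.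
  The coefficient of `X ^ 0` vanishes too: it is
  `∑ p, a q p ∏ t, (y t s ^ lam t) ^ b t p = s ^ m (g q) * ∑ p, a q p ∏ t, y t ^ b t p = 0`.
  For `q` not moving all `b t p = 0` (`a q p ≠ 0`) and the relation is trivial.  So `IsSol`;
  `const_of_lam`: all roots equal `z0`.  If `s = 0` then `z0 = 0` (`lam t ≥ 1`, `T` nonempty):
  contradiction.  So `y t = (- z0 / s) ^ lam t`.
-/

namespace Pool.Agent.Work.Uni

variable {k Pt Q I T : Type} [Field k] [IsAlgClosed k] [CharZero k] [Fintype Pt] [Fintype Q]
  [Fintype T]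

theorem kernel_ext (B : BlockData Pt) (f : Pt → I) (g : Q → I) (a : Q → Pt → k)
    (ha : Coef f g a) (hstar : Star B f a) (b : T → Pt → ℕ) (lam : T → ℕ) (m : I → ℕ)
    (hb : ∀ t, B.IsBlock (b t)) (hext : IsExt f b lam m)
    (h1 : ∑ t, lam t = ∑ q, m (g q) + 1)
    (h2 : Fintype.card T = (Finset.univ.filter fun q => 1 ≤ m (g q)).card + 1)
    (η : T → k) (hη : ∀ q, 1 ≤ m (g q) → ∑ t, (∑ p, a q p * (b t p : k)) * η t = 0) :
    ∃ ρ : k, ∀ t, η t = ρ * lam t := by
  classical
  have hconst : ∀ z : (Σ y, Fin (lam y)) → k, IsSol a (fun i => b i.1) z → ∀ i j, z i = z j :=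
    fun z hz i j => const_of_lam B f a hstar b lam m hb hext Sigma.fst (count_fst lam) z hz i j
  have hsum : ∀ p, ∑ i : (Σ y, Fin (lam y)), b i.1 p = m (f p) := by
    intro p
    rw [Fintype.sum_sigma, ← hext.pack p]
    refine Finset.sum_congr rfl fun y _ => ?_
    simp
  have hm : ∀ q p, a q p ≠ 0 → ∑ i : (Σ y, Fin (lam y)), b i.1 p = m (g q) := by
    intro q p h
    rw [hsum, ha.fac q p h]
  let Q' := {q : Q // 1 ≤ m (g q)}
  let A : Matrix Q' T k := Matrix.of fun q t => ∑ p, a q.1 p * (b t p : k)
  have hind : LinearIndependent k A.row := by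
    rw [Fintype.linearIndependent_iff]
    intro c hc
    by_contra hne
    push Not at hne
    obtain ⟨q0, hq0⟩ := hne
    obtain ⟨z, hz, i, j, hij⟩ := exists_nonconst_sol_of_dep a ha.sum
      (fun i : (Σ y, Fin (lam y)) => b i.1) (fun q => m (g q)) hm
      (by
        rw [Fintype.card_sigma]
        simp only [Fintype.card_fin]
        omega)
      (fun q => if h : 1 ≤ m (g q) then c ⟨q, h⟩ else 0)
      ⟨q0.1, by rw [dif_pos q0.2]; exact hq0⟩
      (fun q hq => by
        by_contra h
        rw [dif_neg h] at hq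
        exact hq rfl)
      (by
        rintro ⟨t, l⟩
        have h3 := congrFun hc t
        rw [Finset.sum_apply] at h3
        simp only [Pi.zero_apply, Pi.smul_apply, smul_eq_mul, A, Matrix.row_apply,
          Matrix.of_apply] at h3
        have h4 : ∑ q : Q, (if h : 1 ≤ m (g q) then c ⟨q, h⟩ else 0) *
            ∑ p, a q p * (b t p : k) = ∑ q : Q', c q * ∑ p, a q.1 p * (b t p : k) := by
          let G : Q → k := fun q => (if h : 1 ≤ m (g q) then c ⟨q, h⟩ else 0) *
            ∑ p, a q p * (b t p : k)
          have h5 : ∑ q ∈ Finset.univ.filter (fun q => 1 ≤ m (g q)), G q = ∑ q, G q := by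
            refine Finset.sum_filter_of_ne fun q _ hq => ?_
            by_contra h
            apply hq
            simp only [G]
            rw [dif_neg h, zero_mul]
          have h6 : ∑ q ∈ Finset.univ.filter (fun q => 1 ≤ m (g q)), G q = ∑ q : Q', G q.1 :=
            Finset.sum_subtype _ (by simp) _
          change ∑ q, G q = _
          rw [← h5, h6]
          refine Finset.sum_congr rfl fun q _ => ?_
          simp only [G]
          rw [dif_pos q.2]
        rw [h4]
        exact h3)
    exact hij (hconst z hz i j)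
  have hrank : A.rank = Fintype.card Q' := hind.rank_matrix
  have hker : Module.finrank k (LinearMap.ker A.mulVecLin) = 1 := by
    have h3 := LinearMap.finrank_range_add_finrank_ker A.mulVecLin
    rw [Module.finrank_fintype_fun_eq_card, h2] at h3
    have h4 : Module.finrank k (LinearMap.range A.mulVecLin) = Fintype.card Q' := hrank
    rw [h4, Fintype.card_subtype] at h3
    omega
  have hmem : ∀ v : T → k, v ∈ LinearMap.ker A.mulVecLin ↔
      ∀ q, 1 ≤ m (g q) → ∑ t, (∑ p, a q p * (b t p : k)) * v t = 0 := by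
    intro v
    rw [LinearMap.mem_ker, Matrix.mulVecLin_apply]
    constructor
    · intro h q hq
      exact congrFun h ⟨q, hq⟩
    · intro h
      funext q
      exact h q.1 q.2
  have hT : Nonempty T := Fintype.card_pos_iff.1 (by omega)
  have hlam : (fun t => (lam t : k)) ∈ LinearMap.ker A.mulVecLin := by
    rw [hmem]
    intro q _
    have h3 : ∑ t, (∑ p, a q p * (b t p : k)) * (lam t : k) =
        ∑ p, a q p * (m (g q) : k) := by
      simp only [Finset.sum_mul]
      rw [Finset.sum_comm]
      refine Finset.sum_congr rfl fun p _ => ?_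
      by_cases hp : a q p = 0
      · simp [hp]
      · have h4 := hext.pack p
        rw [ha.fac q p hp] at h4
        rw [← h4]
        push_cast
        rw [Finset.mul_sum]
        exact Finset.sum_congr rfl fun t _ => by ring
    rw [h3, ← Finset.sum_mul, ha.sum, zero_mul]
  have hne : (⟨_, hlam⟩ : LinearMap.ker A.mulVecLin) ≠ 0 := by
    intro h
    have h3 := congrArg Subtype.val h
    obtain ⟨t⟩ := hT
    have h4 := congrFun h3 t
    simp only [Submodule.coe_zero, Pi.zero_apply, Nat.cast_eq_zero] at h4
    have := hext.pos t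
    omega
  obtain ⟨ρ, hρ⟩ := (finrank_eq_one_iff_of_nonzero' _ hne).1 hker
    ⟨η, (hmem η).2 hη⟩
  refine ⟨ρ, fun t => ?_⟩
  have h3 := congrFun (congrArg Subtype.val hρ) t
  simp only [Submodule.coe_smul, Pi.smul_apply, smul_eq_mul] at h3
  exact h3.symm

theorem two_points (B : BlockData Pt) (f : Pt → I) (g : Q → I) (a : Q → Pt → k)
    (ha : Coef f g a) (hstar : Star B f a) (b : T → Pt → ℕ) (lam : T → ℕ) (m : I → ℕ)
    (hb : ∀ t, B.IsBlock (b t)) (hext : IsExt f b lam m)
    (h1 : ∑ t, lam t = ∑ q, m (g q) + 1)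
    (h2 : Fintype.card T = (Finset.univ.filter fun q => 1 ≤ m (g q)).card + 1)
    (y : T → k)
    (hpt : ∀ q, 1 ≤ m (g q) → ∑ p, a q p * ∏ t, y t ^ b t p = 0) :
    ∃ ρ : k, ∀ t, y t = ρ ^ lam t := by
  classical
  have hconst : ∀ z : (Σ y, Fin (lam y)) → k, IsSol a (fun i => b i.1) z → ∀ i j, z i = z j :=
    fun z hz i j => const_of_lam B f a hstar b lam m hb hext Sigma.fst (count_fst lam) z hz i j
  set β : (Σ y, Fin (lam y)) → Pt → ℕ := fun i => b i.1 with hβ
  have hsum : ∀ p, ∑ i, β i p = m (f p) := by
    intro p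
    rw [Fintype.sum_sigma, ← hext.pack p]
    refine Finset.sum_congr rfl fun y _ => ?_
    simp [hβ]
  have hm : ∀ q p, a q p ≠ 0 → ∑ i, β i p = m (g q) := by
    intro q p h
    rw [hsum, ha.fac q p h]
  let F : T ⊕ (Σ q : Q, Fin (m (g q) - 1)) → MvPolynomial (Option (Σ y, Fin (lam y))) k :=
    Sum.elim
      (fun t => ∏ l : Fin (lam t), (- MvPolynomial.X (some ⟨t, l⟩)) -
        MvPolynomial.C (y t) * MvPolynomial.X none ^ lam t)
      (fun j => MvPolynomial.rename some (coefPoly a β j.1 (j.2 + 1)))
  have hFl : ∀ (x : Option (Σ y, Fin (lam y)) → k) t, MvPolynomial.eval x (F (Sum.inl t)) =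
      ∏ l : Fin (lam t), (- x (some ⟨t, l⟩)) - y t * x none ^ lam t := by
    intro x t
    simp [F, map_prod]
  have hFr : ∀ (x : Option (Σ y, Fin (lam y)) → k) q (j : Fin (m (g q) - 1)),
      MvPolynomial.eval x (F (Sum.inr ⟨q, j⟩)) =
      MvPolynomial.eval (x ∘ some) (coefPoly a β q (j + 1)) := by
    intro x q j
    simp only [F, Sum.elim_inr]
    rw [MvPolynomial.eval_rename]
  have hcard : Fintype.card (T ⊕ (Σ q : Q, Fin (m (g q) - 1))) = ∑ t, lam t := by
    rw [Fintype.card_sum, Fintype.card_sigma, h2, h1]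
    simp only [Fintype.card_fin]
    have h3 : ∑ q, m (g q) = ∑ q, (m (g q) - 1) +
        (Finset.univ.filter fun q => 1 ≤ m (g q)).card := by
      rw [Finset.card_filter, ← Finset.sum_add_distrib]
      refine Finset.sum_congr rfl fun q _ => ?_
      split_ifs with h
      · omega
      · omega
    omega
  obtain ⟨x, hx, hF⟩ := exists_zero' F
    (by
      rintro (t | ⟨q, j⟩)
      · rw [hFl]
        have hl := hext.pos t
        rw [Finset.prod_eq_zero (Finset.mem_univ (⟨0, hl⟩ : Fin (lam t))) (by simp)]
        simp only [Pi.zero_apply]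
        rw [zero_pow (by omega), mul_zero, sub_zero]
      · rw [hFr]
        exact eval_zero_coefPoly a β q _ (hm q) _ (by have := j.2; omega))
    (by
      rw [hcard, Fintype.card_option, Fintype.card_sigma]
      simp only [Fintype.card_fin]
      omega)
  set z : (Σ y, Fin (lam y)) → k := x ∘ some with hz
  set s : k := x none with hs
  have hprod : ∀ t, ∏ l : Fin (lam t), (- z ⟨t, l⟩) = y t * s ^ lam t := by
    intro t
    have := hF (Sum.inl t)
    rw [hFl] at this
    exact sub_eq_zero.1 this
  have hsol : IsSol a β z := by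
    rw [isSol_iff a ha.sum β (fun q => m (g q)) hm]
    intro q d hd
    rcases Nat.eq_zero_or_pos d with rfl | hd0
    · rw [eval_coefPoly, Polynomial.finsetSum_coeff]
      have h3 : ∀ p, (Polynomial.C (a q p) * rootPoly β z p).coeff 0 =
          s ^ m (g q) * (a q p * ∏ t, y t ^ b t p) := by
        intro p
        rw [Polynomial.coeff_C_mul]
        by_cases hp : a q p = 0
        · rw [hp, zero_mul, zero_mul, mul_zero]
        · have h4 : (rootPoly β z p).coeff 0 = ∏ t, (∏ l : Fin (lam t), (- z ⟨t, l⟩)) ^ b t p := by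
            rw [Polynomial.coeff_zero_eq_eval_zero]
            unfold rootPoly
            rw [Polynomial.eval_prod, Fintype.prod_sigma]
            refine Finset.prod_congr rfl fun t _ => ?_
            rw [← Finset.prod_pow]
            refine Finset.prod_congr rfl fun l _ => ?_
            simp [hβ]
          have h5 := hext.pack p
          rw [ha.fac q p hp] at h5
          rw [h4, ← h5, ← Finset.prod_pow_eq_pow_sum]
          simp only [hprod, mul_pow, Finset.prod_mul_distrib, ← pow_mul]
          ring
      rw [Finset.sum_congr rfl fun p _ => h3 p, ← Finset.mul_sum, hpt q (by omega), mul_zero]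
    · have := hF (Sum.inr ⟨q, ⟨d - 1, by omega⟩⟩)
      rw [hFr] at this
      have e : d - 1 + 1 = d := by omega
      simp only [e] at this
      exact this
  have hT : Nonempty T := Fintype.card_pos_iff.1 (by omega)
  obtain ⟨t0⟩ := hT
  have hl0 := hext.pos t0
  set z0 : k := z ⟨t0, ⟨0, hl0⟩⟩ with hz0
  have hall : ∀ i, z i = z0 := fun i => hconst z hsol i _
  have hpow : ∀ t, (- z0) ^ lam t = y t * s ^ lam t := by
    intro t
    rw [← hprod t]
    simp [hall]
  have hs0 : s ≠ 0 := by
    intro h0
    have h3 := hpow t0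
    rw [h0, zero_pow (by omega), mul_zero] at h3
    have h4 : z0 = 0 := neg_eq_zero.1 (pow_eq_zero_iff (by omega) |>.1 h3)
    apply hx
    funext i
    cases i with
    | none => exact h0
    | some i => exact (hall i).trans h4
  refine ⟨- z0 / s, fun t => ?_⟩
  rw [div_pow, hpow t, mul_div_cancel_right₀ _ (pow_ne_zero _ hs0)]

end Pool.Agent.Work.Uni
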