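import Mathlib
import Pool.Agent.Work.MP_4329d7_ag_ci.Defs
import Pool.Agent.Work.MP_4329d7_ag_ci.TwoPt
import Pool.Agent.Work.MP_4329d7_ag_ci.Divis
import Pool.Agent.Work.MP_4329d7_ag_ci.Moving

/-!
V-M5b: in the equality case `K` is generated by the monomials orthogonal to the types.
(Step (2) is not needed: `exists_moving` gives an embedding which moves an element also if `K / K1`
is transcendental.)

Let `K1 = ℂ(x ^ χ : χ ⊥ all b t)`, `k` = the algebraic closure of `K`.
(0) `∑ t, lam t • b t = 0` (from `IsExt.pack` and `Full`).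
(1) `divisible`: if `ψ : (Fin d → ℤ) → kˣ` is a homomorphism which is trivial on `{χ ⊥ b t}` then
    there is `y : T → kˣ` with `ψ χ = ∏ t, y t ^ pair χ (b t)`: `ψ` factors through the image of
    `χ ↦ (pair χ (b t))_t` in `ℤ ^ T`; `kˣ` is divisible, hence injective (Baer).
(2) `K / K1` is algebraic: let `D` be a derivation of `K / ℂ` which vanishes on `K1` (if `K / K1`
    is not algebraic there is a nonzero one); `η j = D (x j) / x j` satisfies
    `∑ j, χ j * η j = 0` for all `χ ⊥ b t`, so `η = ∑ t, η' t * b t` with `η' t ∈ K` (linear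
    algebra over `ℚ`: the annihilator of the annihilator of the span of the `b t`); then
    `∑ j, ldv (f q) j x * η j = 0` reads `∑ t, (∑ p, a q p * blk f (b t) p) * η' t = 0`
    (the correction `mn` is killed by `∑ p, a q p = 0`), so `η' = ρ lam` by `kernel_ext` and
    `η = ρ ∑ lam t b t = 0`.
(3) If `K ≠ K1` there is a `K1`-embedding `σ : K → k` different from the inclusion (char 0).  Put
    `ψ χ = σ (x ^ χ) / x ^ χ`, `y` as in (1).  The point `σ (x)` satisfies `ev (f q) (σ x) = 0`,
    which reads `∑ p, a q p * ∏ t, y t ^ blk f (b t) p = 0`, `a = coef f x`.  By `two_points`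
    `y t = ρ ^ lam t`, so `ψ χ = ρ ^ (∑ lam t pair χ (b t)) = 1`: `σ` fixes all `x j`, so it is
    the inclusion, contradiction.
-/

namespace Pool.Agent.Work.CI

open Pool.Agent.Work.Uni

variable {K : Type} [Field K] [Algebra ℂ K] {n d : ℕ} {Q : Type} [Fintype Q]
  {x : Fin d → K} {f : Q → Lau d}

omit [Fintype Q] in
/-- an extreme packing is a relation between the weights -/
theorem gen_sum_lam_smul {f : Q → Lau d} (hfull : Full f)
    {T : Type} [Fintype T] (b : T → Fin d → ℤ) (lam : T → ℕ) (m : Q → ℕ)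
    (hpack : IsPack (Sigma.fst : Pts f → Q) (fun t => blk f (b t)) lam m) :
    ∑ t, (lam t : ℤ) • b t = 0 := by
  refine hfull _ fun q χ hχ χ' hχ' => ?_
  have h1 := hpack ⟨q, ⟨χ, hχ⟩⟩
  have h2 := hpack ⟨q, ⟨χ', hχ'⟩⟩
  have e1 : ∑ t, (lam t : ℤ) * (pair χ (b t) - mn (f q) (b t)) = m q := by
    simp only at h1
    rw [← h1]
    push_cast
    refine Finset.sum_congr rfl fun t _ => ?_
    rw [blk_cast]
  have e2 : ∑ t, (lam t : ℤ) * (pair χ' (b t) - mn (f q) (b t)) = m q := by
    simp only at h2
    rw [← h2]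
    push_cast
    refine Finset.sum_congr rfl fun t _ => ?_
    rw [blk_cast]
  rw [pair_sum, pair_sum]
  simp only [pair_smul]
  simp only [mul_sub, Finset.sum_sub_distrib] at e1 e2
  linarith

theorem gen_of_ext (D : Data K n d Q x f) (hfull : Full f)
    (hstar : Star (blocks f) (Sigma.fst : Pts f → Q)
      (coef f fun j => algebraMap K (AlgebraicClosure K) (x j)))
    {T : Type} [Fintype T] (b : T → Fin d → ℤ) (lam : T → ℕ) (m : Q → ℕ) (hb : ∀ t, b t ≠ 0)
    (hext : IsExt (Sigma.fst : Pts f → Q) (fun t => blk f (b t)) lam m)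
    (h1 : ∑ t, lam t = ∑ q, m q + 1)
    (h2 : Fintype.card T = (Finset.univ.filter fun q => 1 ≤ m q).card + 1) :
    IntermediateField.adjoin ℂ
      {z : K | ∃ χ : Fin d → ℤ, (∀ t, pair χ (b t) = 0) ∧ z = mon x χ} = ⊤ := by
  classical
  have hcK : CharZero K := charZero_of_injective_algebraMap (algebraMap ℂ K).injective
  by_contra hne
  obtain ⟨σ, hσ, z, hz⟩ := exists_moving _ hne
  set k := AlgebraicClosure K with hk
  set ι : K →+* k := algebraMap K k with hι
  have hck : CharZero k := charZero_of_injective_algebraMap ι.injective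
  -- both embeddings on constants
  have hσC : ∀ c : ℂ, σ (algebraMap ℂ K c) = algebraMap ℂ k c := by
    intro c
    rw [hσ _ (IntermediateField.algebraMap_mem _ c)]
    exact (IsScalarTower.algebraMap_apply ℂ K k c).symm
  -- some coordinate is moved
  have hmove : ∃ j, σ (x j) ≠ ι (x j) := by
    by_contra h
    push Not at h
    apply hz
    have h3 : z ∈ IntermediateField.adjoin ℂ (Set.range x) := by
      rw [D.gen]; exact IntermediateField.mem_top
    have h4 : (IntermediateField.adjoin ℂ (Set.range x)).toSubfield ≤ σ.eqLocusField ι := by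
      rw [IntermediateField.adjoin_toSubfield, Subfield.closure_le]
      rintro w (⟨c, rfl⟩ | ⟨j, rfl⟩)
      · change σ (algebraMap ℂ K c) = ι (algebraMap ℂ K c)
        rw [hσC]
        exact IsScalarTower.algebraMap_apply ℂ K k c
      · exact h j
    exact h4 h3
  -- the character
  have hx' : ∀ j, ι (x j) ≠ 0 := fun j => by
    rw [Ne, map_eq_zero]; exact D.ne j
  have hσx : ∀ j, σ (x j) ≠ 0 := fun j => by
    rw [Ne, map_eq_zero]; exact D.ne j
  set u : Fin d → k := fun j => σ (x j) / ι (x j) with hu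
  have hu0 : ∀ j, u j ≠ 0 := fun j => div_ne_zero (hσx j) (hx' j)
  have hmonu : ∀ χ, mon (fun j => σ (x j)) χ = mon u χ * mon (fun j => ι (x j)) χ := by
    intro χ
    unfold mon
    rw [← Finset.prod_mul_distrib]
    refine Finset.prod_congr rfl fun j _ => ?_
    rw [← mul_zpow, hu]
    simp only
    rw [div_mul_cancel₀ _ (hx' j)]
  have hσmon : ∀ χ, σ (mon x χ) = mon (fun j => σ (x j)) χ := by
    intro χ
    simp [mon, map_prod, map_zpow₀]
  have hιmon : ∀ χ, ι (mon x χ) = mon (fun j => ι (x j)) χ := by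
    intro χ
    simp [mon, map_prod, map_zpow₀]
  let ψ : Multiplicative (Fin d → ℤ) →* kˣ :=
    { toFun := fun χ => Units.mk0 (mon u (Multiplicative.toAdd χ)) (mon_ne_zero hu0 _)
      map_one' := by
        apply Units.ext
        exact mon_zero u
      map_mul' := fun χ χ' => by
        apply Units.ext
        exact mon_add hu0 _ _ }
  have hψv : ∀ χ : Fin d → ℤ, ((ψ (Multiplicative.ofAdd χ) : kˣ) : k) = mon u χ := fun χ => rfl
  obtain ⟨y, hy⟩ := divisible b ψ (fun χ hχ => by
    apply Units.ext
    rw [hψv, Units.val_one]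
    have h3 : σ (mon x χ) = ι (mon x χ) :=
      hσ _ (IntermediateField.subset_adjoin _ _ ⟨χ, hχ, rfl⟩)
    rw [hσmon, hιmon, hmonu] at h3
    have h4 := mon_ne_zero hx' χ
    exact mul_right_cancel₀ h4 (by rw [h3, one_mul]))
  have hy' : ∀ χ : Fin d → ℤ, mon u χ = ∏ t, (y t : k) ^ pair χ (b t) := by
    intro χ
    rw [← hψv, hy]
    simp
  -- the second point
  have hcoef := coef_isCoef f (fun j => ι (x j)) (by
    intro q
    have h3 := congrArg ι (D.eq q)
    rw [map_zero] at h3
    rw [← h3]
    unfold ev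
    simp only [map_sum, map_mul, hιmon]
    refine Finset.sum_congr rfl fun χ _ => ?_
    rw [IsScalarTower.algebraMap_apply ℂ K k])
  have hpt : ∀ q, ∑ p, coef f (fun j => ι (x j)) q p * ∏ t, (y t : k) ^ blk f (b t) p = 0 := by
    intro q
    have h3 := congrArg σ (D.eq q)
    rw [map_zero] at h3
    unfold ev at h3
    simp only [map_sum, map_mul, hσmon, hσC, hmonu, hy'] at h3
    rw [Fintype.sum_sigma, Finset.sum_eq_single q]
    · simp only [coef, if_true]
      have h4 : ∀ χ : (f q).support, algebraMap ℂ k (f q χ.1) * mon (fun j => ι (x j)) χ.1 *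
          ∏ t, (y t : k) ^ blk f (b t) ⟨q, χ⟩ =
          (∏ t, (y t : k) ^ (- mn (f q) (b t))) * (algebraMap ℂ k (f q χ.1) *
            ((∏ t, (y t : k) ^ pair χ.1 (b t)) * mon (fun j => ι (x j)) χ.1)) := by
        intro χ
        have h5 : ∏ t, (y t : k) ^ blk f (b t) ⟨q, χ⟩ =
            (∏ t, (y t : k) ^ (- mn (f q) (b t))) * ∏ t, (y t : k) ^ pair χ.1 (b t) := by
          rw [← Finset.prod_mul_distrib]
          refine Finset.prod_congr rfl fun t _ => ?_
          rw [← zpow_add₀ (Units.ne_zero _), ← zpow_natCast, blk_cast]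
          congr 1
          ring
        rw [h5]
        ring
      rw [Finset.sum_congr rfl fun χ _ => h4 χ, ← Finset.mul_sum,
        Finset.sum_coe_sort (f q).support (fun χ => algebraMap ℂ k (f q χ) *
          ((∏ t, (y t : k) ^ pair χ (b t)) * mon (fun j => ι (x j)) χ)), h3, mul_zero]
    · intro q' _ hq'
      refine Finset.sum_eq_zero fun χ _ => ?_
      unfold coef
      rw [if_neg hq', zero_mul]
    · intro hq
      exact absurd (Finset.mem_univ _) hq
  obtain ⟨ρ, hρ⟩ := two_points (blocks f) (Sigma.fst : Pts f → Q) id _ hcoef hstar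
    (fun t => blk f (b t)) lam m (fun t => isBlock_blk f D.nz hfull (hb t)) hext h1 h2
    (fun t => (y t : k)) (fun q _ => hpt q)
  have hT : Nonempty T := Fintype.card_pos_iff.1 (by omega)
  obtain ⟨t0⟩ := hT
  have hρ0 : ρ ≠ 0 := by
    rintro rfl
    have h3 := hρ t0
    rw [zero_pow (by have := hext.pos t0; omega)] at h3
    exact Units.ne_zero _ h3
  have hone : ∀ χ, mon u χ = 1 := by
    intro χ
    rw [hy']
    have h3 : ∀ t, (y t : k) ^ pair χ (b t) = ρ ^ ((lam t : ℤ) * pair χ (b t)) := by
      intro t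
      rw [hρ t, zpow_mul, zpow_natCast]
    rw [Finset.prod_congr rfl fun t _ => h3 t]
    have h4 : ∏ t, ρ ^ ((lam t : ℤ) * pair χ (b t)) = ρ ^ (∑ t, (lam t : ℤ) * pair χ (b t)) := by
      induction (Finset.univ : Finset T) using Finset.induction_on with
      | empty => simp
      | insert t s ht ih => rw [Finset.prod_insert ht, Finset.sum_insert ht, zpow_add₀ hρ0, ih]
    have h5 : ∑ t, (lam t : ℤ) * pair χ (b t) = 0 := by
      have h6 := congrArg (pair χ) (gen_sum_lam_smul hfull b lam m hext.pack)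
      rw [pair_sum, pair_zero] at h6
      rw [← h6]
      exact Finset.sum_congr rfl fun t _ => (pair_smul _ _ _).symm
    rw [h4, h5, zpow_zero]
  obtain ⟨j, hj⟩ := hmove
  apply hj
  have h3 := hone (Pi.single j 1)
  have h4 : mon u (Pi.single j 1) = u j := by
    unfold mon
    rw [Finset.prod_eq_single j]
    · simp
    · intro j' _ hj'
      rw [Pi.single_eq_of_ne hj', zpow_zero]
    · intro h
      exact absurd (Finset.mem_univ _) h
  rw [h4, hu] at h3
  simp only at h3
  rwa [div_eq_one_iff_eq (hx' j)] at h3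

end Pool.Agent.Work.CI
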