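import Mathlib
import Pool.Agent.Work.MP_4329d7_ag_ci.Defs

/-!
V-M3a: finitely many weights `b` suffice (Dickson).

HINT: `Φ b = (b⁺, b⁻, (⟨χ, b⟩ - mn (f q) b)_(q, χ)) ∈ ℕ ^ N`.  If `Φ b0 ≤ Φ b` then every `χ_q`
minimal for `b` is minimal for `b0` and for `b - b0`, so `mn (f q) b = mn (f q) b0 +
mn (f q) (b - b0)`, and `|b - b0| = |b| - |b0|`.  `G` = the `b ≠ 0` with `Φ b` minimal among
`Φ b'`, `b' ≠ 0` (finite by Dickson, `Φ` is injective).  Then strong induction on `|b|`: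
`b ∈ G` or there is `b0 ∈ G` with `Φ b0 ≤ Φ b`, `b - b0 ≠ 0`, and the linear expressions add up.
-/

namespace Pool.Agent.Work.CI

namespace Gens

/-- the positive parts, the negative parts and the block of `b` -/
noncomputable def Phi {Q : Type} {d : ℕ} (f : Q → Lau d) (b : Fin d → ℤ) :
    Fin d ⊕ (Fin d ⊕ Pts f) → ℕ :=
  Sum.elim (fun j => (b j).toNat) (Sum.elim (fun j => (-(b j)).toNat) (blk f b))

/-- the size of `b` -/
def size {d : ℕ} (b : Fin d → ℤ) : ℕ := ∑ j, (b j).natAbs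

theorem size_sub {Q : Type} {d : ℕ} (f : Q → Lau d) {b0 b : Fin d → ℤ} (h : Phi f b0 ≤ Phi f b) :
    size (b - b0) + size b0 = size b := by
  unfold size
  rw [← Finset.sum_add_distrib]
  refine Finset.sum_congr rfl fun j _ => ?_
  have h1 := h (Sum.inl j)
  have h2 := h (Sum.inr (Sum.inl j))
  simp only [Phi, Sum.elim_inl, Sum.elim_inr] at h1 h2
  rw [Pi.sub_apply]
  omega

theorem size_pos {d : ℕ} {b : Fin d → ℤ} (h : b ≠ 0) : 0 < size b := by
  rcases Nat.eq_zero_or_pos (size b) with h0 | h0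
  · exfalso
    apply h
    funext j
    unfold size at h0
    rw [Finset.sum_eq_zero_iff] at h0
    have := h0 j (Finset.mem_univ _)
    simpa using this
  · exact h0

theorem mn_sub {Q : Type} {d : ℕ} (f : Q → Lau d) (hf : ∀ q, f q ≠ 0) {b0 b : Fin d → ℤ}
    (h : Phi f b0 ≤ Phi f b) (q : Q) : mn (f q) b = mn (f q) b0 + mn (f q) (b - b0) := by
  have key : ∀ χ (hχ : χ ∈ (f q).support),
      pair χ b0 - mn (f q) b0 ≤ pair χ b - mn (f q) b := by
    intro χ hχ
    have h1 := h (Sum.inr (Sum.inr ⟨q, ⟨χ, hχ⟩⟩))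
    simp only [Phi, Sum.elim_inr] at h1
    have h2 := blk_cast f b0 ⟨q, ⟨χ, hχ⟩⟩
    have h3 := blk_cast f b ⟨q, ⟨χ, hχ⟩⟩
    simp only at h2 h3
    have h4 : (blk f b0 ⟨q, ⟨χ, hχ⟩⟩ : ℤ) ≤ blk f b ⟨q, ⟨χ, hχ⟩⟩ := by exact_mod_cast h1
    linarith
  obtain ⟨χ, hχ, e⟩ := exists_mn (hf q) b
  have h1 := key χ hχ
  have h2 := mn_le hχ b0
  have h3 : pair χ b0 = mn (f q) b0 := by linarith
  have h4 : mn (f q) (b - b0) ≤ mn (f q) b - mn (f q) b0 := by
    have := mn_le hχ (b - b0)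
    rw [pair_sub, e, h3] at this
    exact this
  obtain ⟨χ', hχ', e'⟩ := exists_mn (hf q) (b - b0)
  have h5 := key χ' hχ'
  rw [pair_sub] at e'
  linarith

end Gens

open Gens

theorem exists_gens {Q : Type} [Fintype Q] {d : ℕ} (f : Q → Lau d) (hf : ∀ q, f q ≠ 0) :
    ∃ G : Finset (Fin d → ℤ), (∀ b ∈ G, b ≠ 0) ∧ ∀ (w : Fin d → ℤ) (M : ℕ),
      (∀ b ∈ G, (M : ℤ) ≤ pair w b - M * ∑ q, mn (f q) b) →
      ∀ b, b ≠ 0 → (M : ℤ) ≤ pair w b - M * ∑ q, mn (f q) b := by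
  classical
  set S : Set (Fin d ⊕ (Fin d ⊕ Pts f) → ℕ) := Phi f '' {b | b ≠ 0} with hS
  have hpwo : S.IsPWO := Set.isPWO_of_wellQuasiOrderedLE S
  have hfin : {u | Minimal (· ∈ S) u}.Finite :=
    (setOfPred_minimal_antichain _).finite_of_partiallyWellOrderedOn
      (hpwo.mono (setOfPred_minimal_subset _))
  have hch : ∀ u : Fin d ⊕ (Fin d ⊕ Pts f) → ℕ, ∃ b : Fin d → ℤ,
      u ∈ S → b ≠ 0 ∧ Phi f b = u := by
    intro u
    by_cases hu : u ∈ S
    · obtain ⟨b, hb, e⟩ := hu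
      exact ⟨b, fun _ => ⟨hb, e⟩⟩
    · exact ⟨0, fun h => absurd h hu⟩
  choose c hc using hch
  refine ⟨hfin.toFinset.image c, ?_, ?_⟩
  · intro b hb
    rw [Finset.mem_image] at hb
    obtain ⟨u, hu, rfl⟩ := hb
    rw [Set.Finite.mem_toFinset] at hu
    exact (hc u hu.1).1
  · intro w M hG b
    induction hs : size b using Nat.strong_induction_on generalizing b with
    | _ s ih =>
    intro hb
    obtain ⟨u, hu, hmin⟩ := hpwo.exists_le_minimal (a := Phi f b) ⟨b, hb, rfl⟩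
    obtain ⟨h1, h2⟩ := hc u hmin.1
    have h3 : (M : ℤ) ≤ pair w (c u) - M * ∑ q, mn (f q) (c u) := by
      apply hG
      rw [Finset.mem_image]
      exact ⟨u, by rw [Set.Finite.mem_toFinset]; exact hmin, rfl⟩
    rw [← h2] at hu
    by_cases h4 : b - c u = 0
    · rw [sub_eq_zero] at h4
      rw [h4]
      exact h3
    · have h5 := size_sub f hu
      have h6 := size_pos h1
      have h7 := ih (size (b - c u)) (by omega) (b - c u) rfl h4
      have h8 : ∑ q, mn (f q) b = ∑ q, mn (f q) (c u) + ∑ q, mn (f q) (b - c u) := by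
        rw [← Finset.sum_add_distrib]
        exact Finset.sum_congr rfl fun q _ => mn_sub f hf hu q
      have h9 : pair w b = pair w (c u) + pair w (b - c u) := by
        rw [← pair_add, add_sub_cancel]
      rw [h8, h9]
      have h10 : (0 : ℤ) ≤ M := Int.natCast_nonneg _
      nlinarith

end Pool.Agent.Work.CI
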