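import Mathlib
import Pool.Agent.Work.MP_4329d7_ag_ci.Gens
import Pool.Agent.Work.MP_4329d7_ag_uni.LP

/-!
V-M3b: the alternative weights / extreme packing.

HINT: `farkas` (Uni, LP.lean) for `W = (Fin d → ℚ) × ℚ` and the functionals
`(w, s) ↦ s - ⟨w, b⟩ + s * ∑ q, mn (f q) b`, `b ∈ G` (from `exists_gens`), objective `s`.
If `s > 0` is possible: clear denominators (both signs), `M = s * den`.
Otherwise `λ : G → ℕ` with `∑ λ_b b = 0` and `∑ λ_b (1 + ∑ q, mn (f q) b) > 0`.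
Put `Bs = G.image (blk f)`, `m q = - ∑ λ_b mn (f q) b ≥ 0`; then
`∑ λ_b blk f b p = m p.1`; `exists_ext` (Uni, LPExt.lean) with `κ = 1` gives the extreme packing
(`Sigma.fst` is surjective because `f q ≠ 0`); every element of `Bs` is `blk f b`, `b ≠ 0`.
-/

namespace Pool.Agent.Work.CI

open Pool.Agent.Work.Uni

namespace LPV

/-- a common denominator, both signs -/
theorem common_den {ι : Type*} [Fintype ι] (q : ι → ℚ) :
    ∃ (D : ℕ) (z : ι → ℤ), 0 < D ∧ ∀ i, (z i : ℚ) = q i * D := by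
  classical
  refine ⟨∏ i, (q i).den, fun i => (q i).num * ∏ j ∈ Finset.univ.erase i, ((q j).den : ℤ),
    Finset.prod_pos fun i _ => (q i).den_pos, fun i => ?_⟩
  rw [← Finset.mul_prod_erase Finset.univ _ (Finset.mem_univ i)]
  push_cast
  rw [← mul_assoc, Rat.mul_den_eq_num]

/-- the functional of `b` -/
noncomputable def fnl {Q : Type} [Fintype Q] {d : ℕ} (f : Q → Lau d) (b : Fin d → ℤ) :
    ((Fin d → ℚ) × ℚ) →ₗ[ℚ] ℚ where
  toFun x := x.2 - ∑ j, x.1 j * (b j : ℚ) + x.2 * ((∑ q, mn (f q) b : ℤ) : ℚ)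
  map_add' x y := by
    simp only [Prod.fst_add, Prod.snd_add, Pi.add_apply, add_mul, Finset.sum_add_distrib]
    ring
  map_smul' c x := by
    simp only [Prod.smul_fst, Prod.smul_snd, Pi.smul_apply, smul_eq_mul, RingHom.id_apply,
      mul_assoc, ← Finset.mul_sum]
    ring

theorem fnl_apply {Q : Type} [Fintype Q] {d : ℕ} (f : Q → Lau d) (b : Fin d → ℤ)
    (x : (Fin d → ℚ) × ℚ) :
    fnl f b x = x.2 - ∑ j, x.1 j * (b j : ℚ) + x.2 * ((∑ q, mn (f q) b : ℤ) : ℚ) := rfl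

theorem alt {Q : Type} [Fintype Q] {d : ℕ} (f : Q → Lau d) (G : Finset (Fin d → ℤ)) :
    (∃ (w : Fin d → ℤ) (M : ℕ), 0 < M ∧
      ∀ b ∈ G, (M : ℤ) ≤ pair w b - M * ∑ q, mn (f q) b) ∨
    (∃ z : G → ℕ, (∑ b : G, (z b : ℤ) • b.1 = 0) ∧
      0 < ∑ b : G, (z b : ℤ) * (1 + ∑ q, mn (f q) b.1)) := by
  classical
  let e := Fintype.equivFin G
  by_cases hex : ∃ x, (∀ i, fnl f (e.symm i).1 x ≤ 0) ∧
      0 < LinearMap.snd ℚ (Fin d → ℚ) ℚ x
  · left
    obtain ⟨⟨w, s⟩, h1, hs⟩ := hex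
    have hs' : 0 < s := hs
    obtain ⟨D, z, hD, hz⟩ := common_den (fun o : Option (Fin d) => o.elim s w)
    have hD' : (0 : ℚ) < D := by exact_mod_cast hD
    have hzs : ((z none : ℤ) : ℚ) = s * D := hz none
    have hzp : ∀ p, ((z (some p) : ℤ) : ℚ) = w p * D := fun p => hz (some p)
    have hpos : 0 < z none := by
      have : (0 : ℚ) < (z none : ℤ) := by
        rw [hzs]
        exact mul_pos hs' hD'
      exact_mod_cast this
    refine ⟨fun j => z (some j), (z none).toNat, by omega, fun b hb => ?_⟩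
    rw [Int.toNat_of_nonneg hpos.le]
    have h2 := h1 (e ⟨b, hb⟩)
    rw [Equiv.symm_apply_apply, fnl_apply] at h2
    simp only at h2
    have h3 : ((z none : ℤ) : ℚ) ≤
        ((pair (fun j => z (some j)) b - z none * ∑ q, mn (f q) b : ℤ) : ℚ) := by
      have h4 : ((pair (fun j => z (some j)) b : ℤ) : ℚ) = (∑ j, w j * (b j : ℚ)) * D := by
        unfold pair
        push_cast
        rw [Finset.sum_mul]
        exact Finset.sum_congr rfl fun j _ => by rw [hzp]; ring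
      rw [Int.cast_sub, Int.cast_mul, h4, hzs]
      have h5 := mul_nonpos_of_nonpos_of_nonneg h2 hD'.le
      linarith
    exact_mod_cast h3
  · right
    obtain ⟨c, hc0, hc⟩ := farkas (fun i => fnl f (e.symm i).1) (LinearMap.snd ℚ (Fin d → ℚ) ℚ) hex
    obtain ⟨D, z, hD, hz⟩ := lp_common_den (fun b : G => c (e b)) (fun s => hc0 _)
    have hD' : (0 : ℚ) < D := by exact_mod_cast hD
    have hev : ∀ x : (Fin d → ℚ) × ℚ, x.2 * D = ∑ b : G, (z b : ℚ) *
        (x.2 - ∑ j, x.1 j * (b.1 j : ℚ) + x.2 * ((∑ q, mn (f q) b.1 : ℤ) : ℚ)) := by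
      intro x
      have h1 := LinearMap.congr_fun hc x
      rw [LinearMap.sum_apply] at h1
      have h2 : x.2 = ∑ b : G, c (e b) * fnl f b.1 x := by
        rw [← Equiv.sum_comp e.symm]
        simp only [Equiv.apply_symm_apply]
        exact h1
      rw [h2, Finset.sum_mul]
      refine Finset.sum_congr rfl fun b _ => ?_
      rw [hz b, ← h2, fnl_apply]
      ring
    refine ⟨z, ?_, ?_⟩
    · funext j
      have h1 := hev (Pi.single j 1, 0)
      have h2 : ∀ b : G, (∑ i, (Pi.single j 1 : Fin d → ℚ) i * (b.1 i : ℚ)) = b.1 j := by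
        intro b
        rw [Finset.sum_eq_single j]
        · rw [Pi.single_eq_same, one_mul]
        · intro q _ hq
          rw [Pi.single_eq_of_ne hq]
          simp
        · intro h
          exact absurd (Finset.mem_univ j) h
      simp only [h2, zero_mul, zero_sub, add_zero, mul_neg, Finset.sum_neg_distrib] at h1
      rw [Finset.sum_apply]
      simp only [Pi.smul_apply, smul_eq_mul, Pi.zero_apply]
      have h3 : ((∑ b : G, (z b : ℤ) * b.1 j : ℤ) : ℚ) = 0 := by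
        push_cast
        linarith
      exact_mod_cast h3
    · have h1 := hev (0, 1)
      simp only [Pi.zero_apply, zero_mul, Finset.sum_const_zero, sub_zero, one_mul] at h1
      have h3 : (0 : ℚ) < ((∑ b : G, (z b : ℤ) * (1 + ∑ q, mn (f q) b.1) : ℤ) : ℚ) := by
        rw [Int.cast_sum]
        have h4 : ∀ b : G, (((z b : ℤ) * (1 + ∑ q, mn (f q) b.1) : ℤ) : ℚ) =
            (z b : ℚ) * (1 + ((∑ q, mn (f q) b.1 : ℤ) : ℚ)) := by
          intro b
          push_cast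
          ring
        rw [Finset.sum_congr rfl fun b _ => h4 b, ← h1]
        exact hD'
      exact_mod_cast h3

end LPV

theorem weights_or_ext {Q : Type} [Fintype Q] {d : ℕ} (f : Q → Lau d) (hf : ∀ q, f q ≠ 0)
    (hfull : Full f) :
    (∃ (w : Fin d → ℤ) (M : ℕ), 0 < M ∧
      ∀ b, b ≠ 0 → (M : ℤ) ≤ pair w b - M * ∑ q, mn (f q) b) ∨
    (∃ (T : Type) (_ : Fintype T) (b : T → Fin d → ℤ) (lam : T → ℕ) (m : Q → ℕ),
      (∀ t, b t ≠ 0) ∧ IsExt (Sigma.fst : Pts f → Q) (fun t => blk f (b t)) lam m ∧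
      ∑ q, m q < ∑ t, lam t) := by
  classical
  obtain ⟨G, hG0, hG⟩ := exists_gens f hf
  rcases LPV.alt f G with ⟨w, M, hM, hw⟩ | ⟨z, hz0, hz1⟩
  · exact Or.inl ⟨w, M, hM, hG w M hw⟩
  right
  -- the chosen exponents
  have hsup : ∀ q, ∃ χ, χ ∈ (f q).support := fun q => Finsupp.support_nonempty_iff.2 (hf q)
  choose χ hχ using hsup
  have hkey : ∀ p : Pts f, ((∑ b : G, z b * blk f b.1 p : ℕ) : ℤ) =
      -∑ b : G, (z b : ℤ) * mn (f p.1) b.1 := by
    intro p
    push_cast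
    have h1 : ∑ b : G, (z b : ℤ) * (blk f b.1 p : ℤ) =
        ∑ b : G, (z b : ℤ) * pair p.2.1 b.1 - ∑ b : G, (z b : ℤ) * mn (f p.1) b.1 := by
      rw [← Finset.sum_sub_distrib]
      exact Finset.sum_congr rfl fun b _ => by rw [blk_cast]; ring
    have h2 : ∑ b : G, (z b : ℤ) * pair p.2.1 b.1 = 0 := by
      have h3 := congrArg (pair p.2.1) hz0
      rw [pair_zero, pair_sum] at h3
      rw [← h3]
      exact Finset.sum_congr rfl fun b _ => (pair_smul _ _ _).symm
    rw [h1, h2, zero_sub]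
  let m : Q → ℕ := fun q => ∑ b : G, z b * blk f b.1 ⟨q, ⟨χ q, hχ q⟩⟩
  have hm : ∀ q, (m q : ℤ) = -∑ b : G, (z b : ℤ) * mn (f q) b.1 := fun q =>
    hkey ⟨q, ⟨χ q, hχ q⟩⟩
  let Bs : Finset (Pts f → ℕ) := Finset.univ.image fun b : G => blk f b.1
  let lam : (Pts f → ℕ) → ℕ := fun β => ∑ b : G with blk f b.1 = β, z b
  have hmaps : ∀ b ∈ (Finset.univ : Finset G), blk f b.1 ∈ Bs := fun b _ =>
    Finset.mem_image_of_mem _ (Finset.mem_univ b)
  have hpack : ∀ p, ∑ β ∈ Bs, lam β * β p = m p.1 := by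
    intro p
    have h1 : ∑ β ∈ Bs, lam β * β p = ∑ b : G, z b * blk f b.1 p := by
      rw [← Finset.sum_fiberwise_of_maps_to hmaps fun b : G => z b * blk f b.1 p]
      refine Finset.sum_congr rfl fun β _ => ?_
      rw [Finset.sum_mul]
      refine Finset.sum_congr rfl fun b hb => ?_
      rw [(Finset.mem_filter.1 hb).2]
    rw [h1]
    have h2 : ((∑ b : G, z b * blk f b.1 p : ℕ) : ℤ) = (m p.1 : ℤ) := by
      rw [hkey, hm]
    exact_mod_cast h2
  have hlam : ∑ β ∈ Bs, lam β = ∑ b : G, z b :=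
    Finset.sum_fiberwise_of_maps_to hmaps fun b : G => z b
  have hdelta : ∑ q, 1 * m q < ∑ β ∈ Bs, lam β := by
    rw [hlam]
    have h1 : ((∑ q, 1 * m q : ℕ) : ℤ) < ((∑ b : G, z b : ℕ) : ℤ) := by
      simp only [one_mul]
      rw [Nat.cast_sum, Finset.sum_congr rfl fun q _ => hm q, Finset.sum_neg_distrib,
        Finset.sum_comm]
      simp only [mul_add, mul_one, Finset.sum_add_distrib, Finset.mul_sum] at hz1
      push_cast
      linarith
    exact_mod_cast h1
  obtain ⟨T, hT, β, lam', m', h1, h2, h3⟩ := exists_ext (Sigma.fst : Pts f → Q)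
    (fun q => ⟨⟨q, ⟨χ q, hχ q⟩⟩, rfl⟩) (fun _ => 1) Bs (by
      intro β hβ
      obtain ⟨b, _, rfl⟩ := Finset.mem_image.1 hβ
      exact (isBlock_blk f hf hfull (hG0 b.1 b.2)).1) lam m hpack hdelta
  have hb : ∀ t, ∃ b : Fin d → ℤ, b ≠ 0 ∧ blk f b = β t := by
    intro t
    obtain ⟨b, _, hb⟩ := Finset.mem_image.1 (h1 t)
    exact ⟨b.1, hG0 b.1 b.2, hb⟩
  choose b hb0 hb1 using hb
  refine ⟨T, hT, b, lam', m', hb0, ?_, ?_⟩
  · have : (fun t => blk f (b t)) = β := funext hb1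
    rw [this]
    exact h2
  · simpa using h3

end Pool.Agent.Work.CI
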