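import Mathlib
import Pool.Agent.Work.MP_4329d7_ag_ci.Defs
import Pool.Agent.Work.MP_4329d7_ag_sq.Form

/-!
V-M1: nondegenerate systems satisfy the local condition `Data.loc` at every valuation.

`exists_complex_point` (Nullstellensatz): the `ℂ`-algebra `A` generated by
`y j, (y j)⁻¹, α q, (α q0)⁻¹` in `F` is finitely generated and nonzero, hence has a `ℂ`-point.

`data_of_nondegenerate`: given `v`.  Case A: `v` is trivial on all `x j` (`v (x j) = 1`
for all `j`), take `b = 0`, `t = 1`.  Case B: some `v (x j) ≠ 1`: there is a uniformizer `t`,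
`v (x j) = v t ^ b j`, with `u j = x j / t ^ b j` of value `1`.  Reduction to the residue field
of `v` gives a degenerate common zero of the initial forms if the local condition fails.
-/

namespace Pool.Agent.Work.CI

open Pool.Agent.Work.Uni

/-- a nonzero finitely generated algebra has a complex point -/
theorem nd_algHom (A : Type*) [CommRing A] [Algebra ℂ A] [Nontrivial A]
    [Algebra.FiniteType ℂ A] : Nonempty (A →ₐ[ℂ] ℂ) := by
  obtain ⟨m, hm⟩ := Ideal.exists_maximal A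
  let _ : Field (A ⧸ m) := Ideal.Quotient.field m
  have h2 : Module.Finite ℂ (A ⧸ m) := finite_of_finite_type_of_isJacobsonRing ℂ (A ⧸ m)
  have h3 : Function.Bijective (algebraMap ℂ (A ⧸ m)) :=
    IsAlgClosed.algebraMap_bijective_of_isIntegral
  exact ⟨(AlgEquiv.ofBijective (Algebra.ofId ℂ (A ⧸ m)) h3).symm.toAlgHom.comp
    (Ideal.Quotient.mkₐ ℂ m)⟩

/-- `mon` for units -/
theorem nd_mon {A F : Type*} [CommRing A] [Field F] (ψ : A →+* F) {d : ℕ} (u : Fin d → Aˣ)
    (χ : Fin d → ℤ) : mon (fun j => ψ (u j)) χ = ψ ((∏ j, u j ^ χ j : Aˣ) : A) := by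
  unfold mon
  rw [Units.coe_prod, map_prod]
  refine Finset.prod_congr rfl fun j _ => ?_
  have : ψ ((u j ^ χ j : Aˣ) : A) = ((Units.map (ψ : A →* F) (u j) ^ χ j : Fˣ) : F) := by
    rw [← map_zpow]; rfl
  rw [this, Units.val_zpow_eq_zpow_val]
  rfl

/-- general sums -/
noncomputable def gsum {F : Type*} [Field F] [Algebra ℂ F] {d : ℕ} (s : Finset (Fin d → ℤ))
    (w : (Fin d → ℤ) → ℂ) (x : Fin d → F) : F :=
  ∑ χ ∈ s, algebraMap ℂ F (w χ) * mon x χ

theorem nd_gsum {A F : Type*} [CommRing A] [Algebra ℂ A] [Field F] [Algebra ℂ F] (ψ : A →ₐ[ℂ] F)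
    {d : ℕ} (u : Fin d → Aˣ) (s : Finset (Fin d → ℤ)) (w : (Fin d → ℤ) → ℂ) :
    gsum s w (fun j => ψ (u j)) =
      ψ (∑ χ ∈ s, algebraMap ℂ A (w χ) * ((∏ j, u j ^ χ j : Aˣ) : A)) := by
  unfold gsum
  rw [map_sum]
  refine Finset.sum_congr rfl fun χ _ => ?_
  rw [map_mul, ψ.commutes]
  congr 1
  exact nd_mon (ψ : A →+* F) u χ

theorem ev_gsum {F : Type*} [Field F] [Algebra ℂ F] {d : ℕ} (f : Lau d) (x : Fin d → F) :
    ev f x = gsum f.support f x := rfl

theorem ldv_gsum {F : Type*} [Field F] [Algebra ℂ F] {d : ℕ} (f : Lau d) (j : Fin d)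
    (x : Fin d → F) : ldv f j x = gsum f.support (fun χ => f χ * (χ j : ℂ)) x := by
  unfold ldv gsum
  refine Finset.sum_congr rfl fun χ _ => ?_
  rw [map_mul, map_intCast]

/-- if the initial forms have a degenerate zero over some extension field `F` of `ℂ`, they have
one over `ℂ` -/
theorem exists_complex_point {Q : Type} [Fintype Q] {d : ℕ} (f : Q → Lau d)
    {F : Type} [Field F] [Algebra ℂ F] (y : Fin d → F) (hy : ∀ j, y j ≠ 0)
    (hev : ∀ q, ev (f q) y = 0) (α : Q → F) (q0 : Q) (hα : α q0 ≠ 0)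
    (hdep : ∀ j, ∑ q, α q * ldv (f q) j y = 0) :
    ∃ (z : Fin d → ℂ) (γ : Q → ℂ), (∀ j, z j ≠ 0) ∧ (∀ q, ev (f q) z = 0) ∧ γ q0 ≠ 0 ∧
      ∀ j, ∑ q, γ q * ldv (f q) j z = 0 := by
  classical
  let S : Set F := Set.range y ∪ Set.range (fun j => (y j)⁻¹) ∪ Set.range α ∪ {(α q0)⁻¹}
  have hS : S.Finite := (((Set.finite_range _).union (Set.finite_range _)).union
    (Set.finite_range _)).union (Set.finite_singleton _)
  let A := Algebra.adjoin ℂ S
  have : Algebra.FiniteType ℂ A := (Subalgebra.fg_iff_finiteType _).1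
    (Subalgebra.fg_adjoin_finset hS.toFinset |> fun h => by
      rw [hS.coe_toFinset] at h; exact h)
  obtain ⟨φ⟩ := nd_algHom A
  have hsub : S ⊆ A := Algebra.subset_adjoin
  have m1 : ∀ j, y j ∈ A := fun j => hsub (Or.inl (Or.inl (Or.inl ⟨j, rfl⟩)))
  have m2 : ∀ j, (y j)⁻¹ ∈ A := fun j => hsub (Or.inl (Or.inl (Or.inr ⟨j, rfl⟩)))
  have m3 : ∀ q, α q ∈ A := fun q => hsub (Or.inl (Or.inr ⟨q, rfl⟩))
  have m4 : (α q0)⁻¹ ∈ A := hsub (Or.inr rfl)
  let u : Fin d → Aˣ := fun j =>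
    { val := ⟨y j, m1 j⟩
      inv := ⟨(y j)⁻¹, m2 j⟩
      val_inv := Subtype.ext (mul_inv_cancel₀ (hy j))
      inv_val := Subtype.ext (inv_mul_cancel₀ (hy j)) }
  let β : Q → A := fun q => ⟨α q, m3 q⟩
  have huy : (fun j => A.val (u j)) = y := rfl
  have hinj : Function.Injective A.val := Subtype.val_injective
  refine ⟨fun j => φ (u j), fun q => φ (β q), fun j => ?_, fun q => ?_, ?_, fun j => ?_⟩
  · exact ((u j).isUnit.map φ).ne_zero
  · rw [ev_gsum, nd_gsum]
    have h := hev q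
    rw [ev_gsum, ← huy, nd_gsum] at h
    rw [hinj (h.trans (map_zero _).symm), map_zero]
  · have h : φ (β q0) * φ ⟨(α q0)⁻¹, m4⟩ = 1 := by
      rw [← map_mul]
      have : β q0 * ⟨(α q0)⁻¹, m4⟩ = 1 := Subtype.ext (mul_inv_cancel₀ hα)
      rw [this, map_one]
    exact left_ne_zero_of_mul_eq_one h
  · have h := hdep j
    simp only [ldv_gsum] at h ⊢
    rw [← huy] at h
    simp only [nd_gsum] at h ⊢
    have h2 : A.val (∑ q, β q * ∑ χ ∈ (f q).support, algebraMap ℂ A (f q χ * (χ j : ℂ)) *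
        ((∏ j, u j ^ χ j : Aˣ) : A)) = 0 := by
      rw [map_sum, ← h]
      refine Finset.sum_congr rfl fun q _ => ?_
      rw [map_mul]
      rfl
    have h3 := hinj (h2.trans (map_zero _).symm)
    have h4 := congrArg φ h3
    rw [map_zero, map_sum] at h4
    rw [← h4]
    refine Finset.sum_congr rfl fun q _ => ?_
    rw [map_mul]

section loc

variable {K : Type} [Field K]

/-- the factorisation of the coordinates at a valuation -/
theorem nd_factor (v : Valuation K (WithZero (Multiplicative ℤ))) {d : ℕ} (x : Fin d → K)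
    (hx : ∀ j, x j ≠ 0) :
    ∃ (t : K) (b : Fin d → ℤ) (u : Fin d → K), t ≠ 0 ∧ (∀ j, v (u j) = 1) ∧
      (∀ j, x j = t ^ b j * u j) ∧
      ∀ χ χ' : Fin d → ℤ, pair χ b < pair χ' b → v t ^ (pair χ' b - pair χ b) < 1 := by
  by_cases h : ∀ j, v (x j) = 1
  · refine ⟨1, 0, x, one_ne_zero, h, fun j => by simp, fun χ χ' hlt => ?_⟩
    rw [pair_zero, pair_zero] at hlt
    exact absurd hlt (lt_irrefl _)
  push Not at h
  obtain ⟨j0, hj0⟩ := h
  obtain ⟨z, hz0, hz1⟩ : ∃ z : K, z ≠ 0 ∧ v z < 1 := by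
    rcases lt_or_gt_of_ne hj0 with h | h
    · exact ⟨x j0, hx j0, h⟩
    · refine ⟨(x j0)⁻¹, inv_ne_zero (hx j0), ?_⟩
      rw [map_inv₀]
      exact inv_lt_one_of_one_lt₀ h
  obtain ⟨t, ht0, ht1, htmax⟩ := Pool.Agent.Work.MP_4329d7_ag_sq.exists_uniformizer v hz0 hz1
  choose b u hu hxu using fun j =>
    Pool.Agent.Work.MP_4329d7_ag.FF.repdet_exists_zpow v ht0 ht1 htmax (hx j)
  refine ⟨t, b, u, ht0, hu, hxu, fun χ χ' hlt => ?_⟩
  obtain ⟨k, hk⟩ : ∃ k : ℕ, pair χ' b - pair χ b = k := ⟨(pair χ' b - pair χ b).toNat, by omega⟩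
  rw [hk, zpow_natCast]
  exact pow_lt_one₀ zero_le ht1 (by omega)

theorem nd_mon_factor {d : ℕ} {x u : Fin d → K} {b : Fin d → ℤ} {t : K} (ht : t ≠ 0)
    (h : ∀ j, x j = t ^ b j * u j) (χ : Fin d → ℤ) : mon x χ = t ^ pair χ b * mon u χ := by
  unfold mon pair
  have h1 : ∀ s : Finset (Fin d), t ^ (∑ j ∈ s, χ j * b j) = ∏ j ∈ s, t ^ (χ j * b j) := by
    intro s
    induction s using Finset.induction_on with
    | empty => simp
    | insert j s hj ih => rw [Finset.sum_insert hj, Finset.prod_insert hj, zpow_add₀ ht, ih]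
  rw [h1, ← Finset.prod_mul_distrib]
  refine Finset.prod_congr rfl fun j _ => ?_
  rw [h j, mul_zpow, ← zpow_mul, mul_comm (b j)]

theorem nd_v_mon (v : Valuation K (WithZero (Multiplicative ℤ))) {d : ℕ} {u : Fin d → K}
    (hu : ∀ j, v (u j) = 1) (χ : Fin d → ℤ) : v (mon u χ) = 1 := by
  unfold mon
  rw [map_prod]
  refine Finset.prod_eq_one fun j _ => ?_
  rw [map_zpow₀, hu j, one_zpow]

end loc

section red

variable {K : Type} [Field K] [Algebra ℂ K]

/-- Reduction modulo `v`: `R` is the residue field, `res` is the residue, as a function on `K`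
(any value for `v z > 1`). -/
theorem nd_reduction (v : Valuation K (WithZero (Multiplicative ℤ)))
    (hv : ∀ c : ℂ, v (algebraMap ℂ K c) ≤ 1) :
    ∃ (R : Type) (_ : Field R) (_ : Algebra ℂ R) (ρ : v.integer →+* R),
      (∀ z, ρ z = 0 ↔ v (z : K) < 1) ∧
      ∀ c : ℂ, ρ ⟨algebraMap ℂ K c, hv c⟩ = algebraMap ℂ R c := by
  let ι : ℂ →+* v.integer :=
    { toFun := fun c => ⟨algebraMap ℂ K c, hv c⟩
      map_one' := Subtype.ext (map_one _)
      map_mul' := fun a b => Subtype.ext (map_mul _ _ _)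
      map_zero' := Subtype.ext (map_zero _)
      map_add' := fun a b => Subtype.ext (map_add _ _ _) }
  let I : Ideal v.integer :=
    { carrier := {z | v (z : K) < 1}
      add_mem' := fun {a b} ha hb => (v.map_add a b).trans_lt (max_lt ha hb)
      zero_mem' := by
        show v ((0 : v.integer) : K) < 1
        rw [ZeroMemClass.coe_zero, map_zero]
        exact zero_lt_one
      smul_mem' := fun c z hz => by
        show v ((c * z : v.integer) : K) < 1
        rw [Subring.coe_mul, map_mul]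
        exact (mul_le_of_le_one_left zero_le c.2).trans_lt hz }
  have hI : I.IsMaximal := by
    rw [Ideal.isMaximal_iff]
    refine ⟨?_, fun J z hIJ hz hzJ => ?_⟩
    · intro h
      have h1 : v ((1 : v.integer) : K) < 1 := h
      rw [Subring.coe_one, map_one] at h1
      exact lt_irrefl _ h1
    · have h1 : v (z : K) = 1 := le_antisymm z.2 (not_lt.1 hz)
      have h2 : v (z : K)⁻¹ ≤ 1 := by rw [map_inv₀, h1, inv_one]
      have h3 : (1 : v.integer) = ⟨(z : K)⁻¹, h2⟩ * z := by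
        apply Subtype.ext
        have h4 : (z : K) ≠ 0 := by
          intro h0
          rw [h0, map_zero] at h1
          exact zero_ne_one h1
        exact (inv_mul_cancel₀ h4).symm
      rw [h3]
      exact J.mul_mem_left _ hzJ
  let _ : Field (v.integer ⧸ I) := Ideal.Quotient.field I
  let _ : Algebra ℂ (v.integer ⧸ I) := ((Ideal.Quotient.mk I).comp ι).toAlgebra
  refine ⟨v.integer ⧸ I, inferInstance, inferInstance, Ideal.Quotient.mk I, fun z => ?_,
    fun c => rfl⟩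
  exact Ideal.Quotient.eq_zero_iff_mem

theorem nd_ini_support {d : ℕ} (b : Fin d → ℤ) (f : Lau d) (hf : f ≠ 0) (χ : Fin d → ℤ) :
    χ ∈ (ini b f).support ↔ χ ∈ f.support ∧ pair χ b = mn f b := by
  classical
  unfold ini
  rw [Finsupp.support_filter, Finset.mem_filter]
  refine and_congr_right fun hχ => ⟨fun h => ?_, fun h χ' hχ' => ?_⟩
  · obtain ⟨χ0, h0, h1⟩ := exists_mn hf b
    exact le_antisymm (h1 ▸ h χ0 h0) (mn_le hχ b)
  · rw [h]
    exact mn_le hχ' b

theorem nd_ini_apply {d : ℕ} (b : Fin d → ℤ) (f : Lau d) {χ : Fin d → ℤ}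
    (h : χ ∈ (ini b f).support) : ini b f χ = f χ := by
  classical
  unfold ini at h ⊢
  rw [Finsupp.support_filter, Finset.mem_filter] at h
  exact Finsupp.filter_apply_pos _ _ h.2

/-- the reduction of a Laurent polynomial -/
theorem nd_red_gsum (v : Valuation K (WithZero (Multiplicative ℤ)))
    (hv : ∀ c : ℂ, v (algebraMap ℂ K c) ≤ 1) {R : Type} [Field R] [Algebra ℂ R]
    (ρ : v.integer →+* R) (hρ0 : ∀ z, ρ z = 0 ↔ v (z : K) < 1)
    (hρc : ∀ c : ℂ, ρ ⟨algebraMap ℂ K c, hv c⟩ = algebraMap ℂ R c)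
    {d : ℕ} {x u : Fin d → K} {t : K} {b : Fin d → ℤ} (ht : t ≠ 0) (hu : ∀ j, v (u j) = 1)
    (hx : ∀ j, x j = t ^ b j * u j)
    (hlt : ∀ χ χ' : Fin d → ℤ, pair χ b < pair χ' b → v t ^ (pair χ' b - pair χ b) < 1)
    (f : Lau d) (w : (Fin d → ℤ) → ℂ) (hf : f ≠ 0) :
    ∃ z : v.integer, (z : K) = t ^ (- mn f b) * gsum f.support w x ∧
      ρ z = gsum (ini b f).support w (fun j => ρ ⟨u j, (hu j).le⟩) := by
  classical
  have hu0 : ∀ j, u j ≠ 0 := fun j h => by
    have := hu j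
    rw [h, map_zero] at this
    exact zero_ne_one this
  let U : Fin d → (v.integer)ˣ := fun j =>
    { val := ⟨u j, (hu j).le⟩
      inv := ⟨(u j)⁻¹, by
        show v (u j)⁻¹ ≤ 1
        rw [map_inv₀, hu j, inv_one]⟩
      val_inv := Subtype.ext (mul_inv_cancel₀ (hu0 j))
      inv_val := Subtype.ext (inv_mul_cancel₀ (hu0 j)) }
  have hM1 : ∀ χ : Fin d → ℤ, (((∏ j, U j ^ χ j : (v.integer)ˣ) : v.integer) : K) = mon u χ :=
    fun χ => (nd_mon v.integer.subtype U χ).symm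
  have hM2 : ∀ χ : Fin d → ℤ, ρ ((∏ j, U j ^ χ j : (v.integer)ˣ) : v.integer) =
      mon (fun j => ρ ⟨u j, (hu j).le⟩) χ :=
    fun χ => (nd_mon ρ U χ).symm
  obtain ⟨χ0, hχ0, hmn⟩ := exists_mn hf b
  have hle : ∀ χ ∈ f.support, v (t ^ (pair χ b - mn f b)) ≤ 1 ∧
      (pair χ b ≠ mn f b → v (t ^ (pair χ b - mn f b)) < 1) := by
    intro χ hχ
    rw [map_zpow₀]
    rcases (mn_le hχ b).eq_or_lt with h | h
    · rw [← h, sub_self, zpow_zero]
      exact ⟨le_rfl, fun h => absurd rfl h⟩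
    · rw [← hmn] at h ⊢
      exact ⟨(hlt _ _ h).le, fun _ => hlt _ _ h⟩
  let e : (Fin d → ℤ) → v.integer := fun χ =>
    if h : v (t ^ (pair χ b - mn f b)) ≤ 1 then ⟨t ^ (pair χ b - mn f b), h⟩ else 0
  have he1 : ∀ χ ∈ f.support, ((e χ : v.integer) : K) = t ^ (pair χ b - mn f b) := by
    intro χ hχ
    simp only [e]
    rw [dif_pos (hle χ hχ).1]
  refine ⟨∑ χ ∈ f.support, ⟨algebraMap ℂ K (w χ), hv _⟩ * e χ *
    ((∏ j, U j ^ χ j : (v.integer)ˣ) : v.integer), ?_, ?_⟩
  · rw [AddSubmonoidClass.coe_finsetSum]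
    unfold gsum
    rw [Finset.mul_sum]
    refine Finset.sum_congr rfl fun χ hχ => ?_
    rw [Subring.coe_mul, Subring.coe_mul, he1 χ hχ, hM1, nd_mon_factor ht hx, sub_eq_add_neg,
      zpow_add₀ ht]
    ring
  · rw [map_sum]
    unfold gsum
    have hsub : (ini b f).support ⊆ f.support := fun χ hχ => ((nd_ini_support b f hf χ).1 hχ).1
    rw [← Finset.sum_subset hsub]
    · refine Finset.sum_congr rfl fun χ hχ => ?_
      obtain ⟨h1, h2⟩ := (nd_ini_support b f hf χ).1 hχ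
      have h3 : e χ = 1 := by
        apply Subtype.ext
        rw [he1 χ h1, h2, sub_self, zpow_zero]
        rfl
      rw [map_mul, map_mul, h3, map_one, mul_one, hM2, hρc]
    · intro χ h1 h2
      have h3 : pair χ b ≠ mn f b := fun h => h2 ((nd_ini_support b f hf χ).2 ⟨h1, h⟩)
      have h4 : ρ (e χ) = 0 := by
        rw [hρ0, he1 χ h1]
        exact (hle χ h1).2 h3
      rw [map_mul, map_mul, h4, mul_zero, zero_mul]

theorem nd_ev_ini {F : Type*} [Field F] [Algebra ℂ F] {d : ℕ} (b : Fin d → ℤ) (f : Lau d)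
    (y : Fin d → F) : ev (ini b f) y = gsum (ini b f).support f y := by
  rw [ev_gsum]
  exact Finset.sum_congr rfl fun χ hχ => by rw [nd_ini_apply b f hχ]

theorem nd_ldv_ini {F : Type*} [Field F] [Algebra ℂ F] {d : ℕ} (b : Fin d → ℤ) (f : Lau d)
    (j : Fin d) (y : Fin d → F) :
    ldv (ini b f) j y = gsum (ini b f).support (fun χ => f χ * (χ j : ℂ)) y := by
  rw [ldv_gsum]
  exact Finset.sum_congr rfl fun χ hχ => by simp only [nd_ini_apply b f hχ]

theorem nd_loc {Q : Type} [Fintype Q] {d : ℕ} {f : Q → Lau d} (hf : Nondegenerate f)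
    {x : Fin d → K} (hx0 : ∀ j, x j ≠ 0) (heq : ∀ q, ev (f q) x = 0) (hnz : ∀ q, f q ≠ 0)
    (j0 : Fin d) (v : Valuation K (WithZero (Multiplicative ℤ)))
    (hv : ∀ c : ℂ, v (algebraMap ℂ K c) ≤ 1) (a : Q → K) (q : Q) (χ : Fin d → ℤ)
    (hχ : χ ∈ (f q).support) :
    ∃ j, v (a q) * v (mon x χ) ≤ v (∑ q', a q' * ldv (f q') j x) := by
  classical
  by_contra hcon
  push Not at hcon
  obtain ⟨t, b, u, ht, hu, hxu, hlt⟩ := nd_factor v x hx0
  obtain ⟨R, _, _, ρ, hρ0, hρc⟩ := nd_reduction v hv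
  have hvt : v t ≠ 0 := (v.ne_zero_iff).2 ht
  obtain ⟨q0, -, hq0⟩ := Finset.exists_max_image Finset.univ
    (fun q => v (a q) * v t ^ mn (f q) b) ⟨q, Finset.mem_univ _⟩
  have hM : v (a q) * v (mon x χ) ≤ v (a q0 * t ^ mn (f q0) b) := by
    rw [map_mul, map_zpow₀]
    refine le_trans ?_ (hq0 q (Finset.mem_univ _))
    refine mul_le_mul_right ?_ _
    rw [nd_mon_factor ht hxu, map_mul, nd_v_mon v hu, mul_one, map_zpow₀]
    obtain ⟨χ0, hχ0, hmn⟩ := exists_mn (hnz q) b
    rcases (mn_le hχ b).eq_or_lt with h | h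
    · rw [h]
    · rw [← hmn] at h ⊢
      have h1 := hlt _ _ h
      have h2 : v t ^ pair χ b = v t ^ (pair χ b - pair χ0 b) * v t ^ pair χ0 b := by
        rw [← zpow_add₀ hvt, sub_add_cancel]
      rw [h2]
      exact mul_le_of_le_one_left zero_le h1.le
  have hM0 : a q0 * t ^ mn (f q0) b ≠ 0 := by
    intro h
    rw [h, map_zero] at hM
    exact absurd ((hcon j0).trans_le hM) (not_lt.2 zero_le)
  have hvM0 : v (a q0 * t ^ mn (f q0) b) ≠ 0 := (v.ne_zero_iff).2 hM0
  have hα : ∀ q, v (a q * t ^ mn (f q) b / (a q0 * t ^ mn (f q0) b)) ≤ 1 := by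
    intro q'
    rw [map_div₀]
    refine div_le_one_of_le₀ ?_ zero_le
    rw [map_mul, map_mul, map_zpow₀, map_zpow₀]
    exact hq0 q' (Finset.mem_univ _)
  choose E hE1 hE2 using fun q => nd_red_gsum v hv ρ hρ0 hρc ht hu hxu hlt (f q) (f q) (hnz q)
  choose L hL1 hL2 using fun q j => nd_red_gsum v hv ρ hρ0 hρc ht hu hxu hlt (f q)
    (fun χ => f q χ * (χ j : ℂ)) (hnz q)
  let α : Q → v.integer := fun q =>
    ⟨a q * t ^ mn (f q) b / (a q0 * t ^ mn (f q0) b), hα q⟩
  have hy0 : ∀ j, ρ ⟨u j, (hu j).le⟩ ≠ 0 := by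
    intro j h
    rw [hρ0] at h
    have h1 : v (u j) < 1 := h
    rw [hu j] at h1
    exact lt_irrefl _ h1
  obtain ⟨z, γ, hz, hev, hγ, hdep⟩ := exists_complex_point (fun q => ini b (f q))
    (fun j => ρ ⟨u j, (hu j).le⟩) hy0 (fun q => by
      rw [nd_ev_ini, ← hE2 q, hρ0, hE1 q, ← ev_gsum, heq q, mul_zero, map_zero]
      exact zero_lt_one) (fun q => ρ (α q)) q0 (by
      have h1 : α q0 = 1 := Subtype.ext (div_self hM0)
      rw [h1, map_one]
      exact one_ne_zero) (fun j => by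
      have h1 : ∀ q, ρ (α q) * ldv (ini b (f q)) j (fun j => ρ ⟨u j, (hu j).le⟩) =
          ρ (α q * L q j) := by
        intro q
        rw [map_mul, hL2 q j, nd_ldv_ini]
      rw [Finset.sum_congr rfl fun q _ => h1 q, ← map_sum, hρ0, AddSubmonoidClass.coe_finsetSum]
      have h2 : ∀ q, ((α q * L q j : v.integer) : K) =
          a q * ldv (f q) j x / (a q0 * t ^ mn (f q0) b) := by
        intro q
        rw [Subring.coe_mul, hL1 q j, ← ldv_gsum, zpow_neg]
        have h3 : t ^ mn (f q) b ≠ 0 := zpow_ne_zero _ ht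
        show a q * t ^ mn (f q) b / (a q0 * t ^ mn (f q0) b) * _ = _
        field_simp
      rw [Finset.sum_congr rfl fun q _ => h2 q, ← Finset.sum_div, map_div₀]
      rw [div_lt_one₀ (zero_lt_iff.2 hvM0)]
      exact (hcon j).trans_le hM)
  have hli := hf b z hz hev
  rw [Fintype.linearIndependent_iff] at hli
  apply hγ
  refine hli γ ?_ q0
  funext j
  rw [Finset.sum_apply, Pi.zero_apply, ← hdep j]
  exact Finset.sum_congr rfl fun q _ => rfl

end red

theorem nd_ini_zero {d : ℕ} (f : Lau d) : ini 0 f = f := by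
  classical
  unfold ini
  rw [Finsupp.filter_eq_self_iff]
  intro χ _ χ' _
  rw [pair_zero, pair_zero]

theorem data_of_nondegenerate {K : Type} [Field K] [Algebra ℂ K] {n d : ℕ} {Q : Type} [Fintype Q]
    {x : Fin d → K} {f : Q → Lau d} (hf : Nondegenerate f)
    (ne : ∀ j, x j ≠ 0) (gen : IntermediateField.adjoin ℂ (Set.range x) = ⊤)
    (eq : ∀ q, ev (f q) x = 0) (trdeg : Algebra.trdeg ℂ K = n) (dim : n + Fintype.card Q = d) :
    Data K n d Q x f := by
  classical
  have hnz : ∀ q, f q ≠ 0 := by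
    intro q0 h0
    obtain ⟨z, γ, hz, hev, hγ, hdep⟩ := exists_complex_point f x ne eq (Pi.single q0 1) q0
      (by simp) (fun j => by
        rw [Finset.sum_eq_single q0]
        · rw [h0]
          simp [ldv]
        · intro q _ hq
          rw [Pi.single_eq_of_ne hq, zero_mul]
        · intro h
          exact absurd (Finset.mem_univ _) h)
    have hli := hf 0 z hz (fun q => by rw [nd_ini_zero]; exact hev q)
    rw [Fintype.linearIndependent_iff] at hli
    apply hγ
    refine hli γ ?_ q0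
    funext j
    rw [Finset.sum_apply, Pi.zero_apply, ← hdep j]
    refine Finset.sum_congr rfl fun q _ => ?_
    rw [nd_ini_zero]
    rfl
  refine ⟨ne, gen, eq, hnz, trdeg, dim, fun v hv a q χ hχ => ?_⟩
  have hd : 0 < d := by
    have : 0 < Fintype.card Q := Fintype.card_pos_iff.2 ⟨q⟩
    omega
  exact nd_loc hf ne eq hnz ⟨0, hd⟩ v hv a q χ hχ

end Pool.Agent.Work.CI
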