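import Mathlib
import Pool.Agent.Work.MP_4329d7_ag_ci.Defs

/-!
The rank of the lattice orthogonal to the types of an extreme packing.
-/

namespace Pool.Agent.Work.CI

open Pool.Agent.Work.Uni

variable {d : ℕ} {Q : Type} {f : Q → Lau d}

/-- a packing of the blocks of `b` gives the relation `∑ nu t b t = 0` -/
theorem rank_rel_of_pack (hfull : Full f) {T : Type} [Fintype T]
    (b : T → Fin d → ℤ) (nu : T → ℕ) (m : Q → ℕ)
    (h : IsPack (Sigma.fst : Pts f → Q) (fun t => blk f (b t)) nu m) :
    ∑ t, (nu t : ℤ) • b t = 0 := by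
  refine hfull _ fun q χ hχ χ' hχ' => ?_
  have key : ∀ χ (hχ : χ ∈ (f q).support), pair χ (∑ t, (nu t : ℤ) • b t)
      = m q + ∑ t, (nu t : ℤ) * mn (f q) (b t) := by
    intro χ hχ
    have h1 := h ⟨q, ⟨χ, hχ⟩⟩
    have h2 : ((∑ t, nu t * blk f (b t) ⟨q, ⟨χ, hχ⟩⟩ : ℕ) : ℤ) = m q := by exact_mod_cast h1
    rw [← h2, pair_sum]
    push_cast
    rw [← Finset.sum_add_distrib]
    refine Finset.sum_congr rfl fun t _ => ?_
    rw [blk_cast, pair_smul]
    simp only
    ring
  rw [key χ hχ, key χ' hχ']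

/-- a relation `∑ nu t b t = 0` gives a packing of the blocks of `b` -/
theorem rank_pack_of_rel (hf : ∀ q, f q ≠ 0) {T : Type} [Fintype T]
    (b : T → Fin d → ℤ) (nu : T → ℕ) (h : ∑ t, (nu t : ℤ) • b t = 0) :
    ∃ m : Q → ℕ, IsPack (Sigma.fst : Pts f → Q) (fun t => blk f (b t)) nu m := by
  have hne : ∀ q, ∃ χ, χ ∈ (f q).support := fun q => Finsupp.support_nonempty_iff.2 (hf q)
  choose χ0 hχ0 using hne
  refine ⟨fun q => ∑ t, nu t * blk f (b t) ⟨q, ⟨χ0 q, hχ0 q⟩⟩, fun p => ?_⟩
  have key : ∀ p : Pts f, ((∑ t, nu t * blk f (b t) p : ℕ) : ℤ)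
      = - ∑ t, (nu t : ℤ) * mn (f p.1) (b t) := by
    intro p
    have h1 : pair p.2.1 (∑ t, (nu t : ℤ) • b t) = 0 := by rw [h, pair_zero]
    rw [pair_sum] at h1
    push_cast
    have h2 : ∑ t, (nu t : ℤ) * (blk f (b t) p : ℤ)
        = ∑ t, pair p.2.1 ((nu t : ℤ) • b t) - ∑ t, (nu t : ℤ) * mn (f p.1) (b t) := by
      rw [← Finset.sum_sub_distrib]
      refine Finset.sum_congr rfl fun t _ => ?_
      rw [blk_cast, pair_smul]
      ring
    rw [h2, h1]
    ring
  have h1 := key p
  have h2 := key ⟨p.1, ⟨χ0 p.1, hχ0 p.1⟩⟩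
  have h3 : ((∑ t, nu t * blk f (b t) p : ℕ) : ℤ)
      = ((∑ t, nu t * blk f (b t) ⟨p.1, ⟨χ0 p.1, hχ0 p.1⟩⟩ : ℕ) : ℤ) := by
    rw [h1, h2]
  exact_mod_cast h3

/-- every integer relation is a multiple of `lam` -/
theorem rank_int_rel (hf : ∀ q, f q ≠ 0) (hfull : Full f) {T : Type} [Fintype T]
    (b : T → Fin d → ℤ) (lam : T → ℕ)
    (m : Q → ℕ) (hext : IsExt (Sigma.fst : Pts f → Q) (fun t => blk f (b t)) lam m)
    (nu : T → ℤ) (h : ∑ t, nu t • b t = 0) : ∃ j : ℤ, ∀ t, nu t = j * lam t := by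
  have h0 := rank_rel_of_pack hfull b lam m hext.pack
  -- add a multiple of `lam`
  obtain ⟨N, hN⟩ : ∃ N : ℕ, ∀ t, 0 ≤ nu t + N * lam t := by
    refine ⟨∑ t, (nu t).natAbs, fun t => ?_⟩
    have h1 : (nu t).natAbs ≤ ∑ t, (nu t).natAbs :=
      Finset.single_le_sum (f := fun t => (nu t).natAbs) (fun _ _ => Nat.zero_le _)
        (Finset.mem_univ t)
    have h2 := hext.pos t
    have h3 : (nu t).natAbs ≤ (∑ t, (nu t).natAbs) * lam t := h1.trans (Nat.le_mul_of_pos_right _ h2)
    have h4 : ((nu t).natAbs : ℤ) ≤ ((∑ t, (nu t).natAbs : ℕ) : ℤ) * lam t := by exact_mod_cast h3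
    omega
  have h1 : ∑ t, (((nu t + N * lam t).toNat : ℕ) : ℤ) • b t = 0 := by
    have : ∀ t, (((nu t + N * lam t).toNat : ℕ) : ℤ) • b t
        = nu t • b t + (N : ℤ) • ((lam t : ℤ) • b t) := by
      intro t
      rw [Int.toNat_of_nonneg (hN t), add_smul, smul_smul]
    rw [Finset.sum_congr rfl fun t _ => this t, Finset.sum_add_distrib, ← Finset.smul_sum, h, h0]
    simp
  obtain ⟨m', hm'⟩ := rank_pack_of_rel hf b _ h1
  obtain ⟨j, hj⟩ := hext.uniq _ m' hm'
  refine ⟨j - N, fun t => ?_⟩
  have h2 := hj t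
  have h3 : (((nu t + N * lam t).toNat : ℕ) : ℤ) = (j : ℤ) * lam t := by exact_mod_cast h2
  rw [Int.toNat_of_nonneg (hN t)] at h3
  linarith

/-- the rank of the orthogonal lattice is the rank over `ℚ` -/
theorem rank_rat {T : Type} [Fintype T] (b : T → Fin d → ℤ)
    (Λ : Submodule ℤ (Fin d → ℤ)) (hΛ : ∀ χ, χ ∈ Λ ↔ ∀ t, pair χ (b t) = 0) :
    Module.finrank ℤ Λ = Module.finrank ℚ
      (LinearMap.ker (Matrix.mulVecLin (fun t j => (b t j : ℚ) : Matrix T (Fin d) ℚ))) := by
  set V := LinearMap.ker (Matrix.mulVecLin (fun t j => (b t j : ℚ) : Matrix T (Fin d) ℚ)) with hV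
  have hmem : ∀ c : Fin d → ℚ, c ∈ V ↔ ∀ t, ∑ j, (b t j : ℚ) * c j = 0 := by
    intro c
    rw [hV, LinearMap.mem_ker]
    constructor
    · intro h t
      have h' : ∑ j, (b t j : ℚ) * c j = 0 := congrFun h t
      exact h'
    · intro h
      funext t
      exact h t
  -- the inclusion
  have hcast : ∀ χ : Fin d → ℤ, χ ∈ Λ ↔ (fun j => (χ j : ℚ)) ∈ V := by
    intro χ
    rw [hΛ, hmem]
    refine forall_congr' fun t => ?_
    unfold pair
    constructor
    · intro h
      have : ((∑ j, χ j * b t j : ℤ) : ℚ) = 0 := by rw [h]; simp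
      push_cast at this
      rw [← this]
      exact Finset.sum_congr rfl fun j _ => mul_comm _ _
    · intro h
      have : ((∑ j, χ j * b t j : ℤ) : ℚ) = 0 := by
        push_cast
        rw [← h]
        exact Finset.sum_congr rfl fun j _ => mul_comm _ _
      exact_mod_cast this
  apply le_antisymm
  · -- a basis of `Λ` is independent over `ℚ`
    let e := Module.finBasis ℤ Λ
    have h1 : LinearIndependent ℤ (fun i => (e i : Fin d → ℤ)) :=
      e.linearIndependent.map' (Submodule.subtype Λ) (Submodule.ker_subtype Λ)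
    have h2 : LinearIndependent ℤ (fun i j => ((e i : Fin d → ℤ) j : ℚ)) := by
      let F : (Fin d → ℤ) →ₗ[ℤ] (Fin d → ℚ) :=
        { toFun := fun χ j => (χ j : ℚ)
          map_add' := fun χ χ' => by funext j; simp
          map_smul' := fun c χ => by funext j; simp }
      have hF : LinearMap.ker F = ⊥ := by
        rw [LinearMap.ker_eq_bot]
        intro χ χ' h
        funext j
        have h' : (χ j : ℚ) = (χ' j : ℚ) := congrFun h j
        exact_mod_cast h'
      exact h1.map' F hF
    have h3 : LinearIndependent ℚ (fun i j => ((e i : Fin d → ℤ) j : ℚ)) :=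
      (LinearIndependent.iff_fractionRing ℤ ℚ).1 h2
    have h4 : LinearIndependent ℚ (fun i => (⟨fun j => ((e i : Fin d → ℤ) j : ℚ),
        (hcast _).1 (e i).2⟩ : V)) := by
      apply LinearIndependent.of_comp V.subtype
      exact h3
    have h5 := h4.fintype_card_le_finrank
    simpa using h5
  · -- a basis over `ℚ` has integral multiples
    let e := Module.finBasis ℚ V
    have hden : ∀ c : Fin d → ℚ, ∃ N : ℕ, 0 < N ∧ ∃ χ : Fin d → ℤ, ∀ j, (χ j : ℚ) = N * c j := by
      intro c
      refine ⟨∏ j, (c j).den, Finset.prod_pos fun j _ => (c j).den_pos, ?_⟩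
      have : ∀ j, ∃ z : ℤ, (z : ℚ) = ((∏ j, (c j).den : ℕ) : ℚ) * c j := by
        intro j
        obtain ⟨k, hk⟩ := Finset.dvd_prod_of_mem (fun j => (c j).den) (Finset.mem_univ j)
        refine ⟨k * (c j).num, ?_⟩
        rw [hk]
        push_cast
        have h1 : (c j).num = (c j).den * c j := by
          rw [mul_comm]; exact (Rat.mul_den_eq_num _).symm
        rw [h1]
        ring
      choose χ hχ using this
      exact ⟨χ, hχ⟩
    choose N hN χ hχ using fun i => hden (e i : Fin d → ℚ)
    have h1 : LinearIndependent ℚ (fun i => ((e i : V) : Fin d → ℚ)) :=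
      e.linearIndependent.map' (Submodule.subtype V) (Submodule.ker_subtype V)
    have h2 : LinearIndependent ℚ (fun i j => (χ i j : ℚ)) := by
      have h3 : (fun i j => (χ i j : ℚ))
          = (fun i => Units.mk0 (N i : ℚ) (by have := hN i; positivity)) •
            (fun i => ((e i : V) : Fin d → ℚ)) := by
        funext i j
        rw [hχ i j]
        rfl
      rw [h3]
      exact h1.units_smul _
    have h3 : LinearIndependent ℤ (fun i j => (χ i j : ℚ)) :=
      (LinearIndependent.iff_fractionRing ℤ ℚ).2 h2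
    have hmemΛ : ∀ i, χ i ∈ Λ := by
      intro i
      rw [hcast]
      have : (fun j => (χ i j : ℚ)) = (N i : ℚ) • ((e i : V) : Fin d → ℚ) := by
        funext j
        rw [hχ i j]
        rfl
      rw [this]
      exact V.smul_mem _ (e i).2
    have h4 : LinearIndependent ℤ (fun i => (⟨χ i, hmemΛ i⟩ : Λ)) := by
      let F : Λ →ₗ[ℤ] (Fin d → ℚ) :=
        { toFun := fun χ j => ((χ : Fin d → ℤ) j : ℚ)
          map_add' := fun χ χ' => by funext j; simp
          map_smul' := fun c χ => by funext j; simp }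
      apply LinearIndependent.of_comp F
      exact h3
    have h5 := h4.fintype_card_le_finrank
    simpa using h5

/-- the rank of the orthogonal lattice -/
theorem rank_orth [Fintype Q] (hf : ∀ q, f q ≠ 0) (hfull : Full f) {T : Type} [Fintype T]
    (b : T → Fin d → ℤ) (lam : T → ℕ)
    (m : Q → ℕ) (hext : IsExt (Sigma.fst : Pts f → Q) (fun t => blk f (b t)) lam m)
    (Λ : Submodule ℤ (Fin d → ℤ)) (hΛ : ∀ χ, χ ∈ Λ ↔ ∀ t, pair χ (b t) = 0) [Nonempty T] :
    Module.finrank ℤ Λ + Fintype.card T = d + 1 := by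
  classical
  rw [rank_rat b Λ hΛ]
  set B : Matrix T (Fin d) ℚ := fun t j => (b t j : ℚ) with hB
  have h1 := LinearMap.finrank_range_add_finrank_ker B.mulVecLin
  have h2 := LinearMap.finrank_range_add_finrank_ker B.transpose.mulVecLin
  have h3 : Module.finrank ℚ (LinearMap.range B.transpose.mulVecLin)
      = Module.finrank ℚ (LinearMap.range B.mulVecLin) := Matrix.rank_transpose B
  rw [Module.finrank_fintype_fun_eq_card] at h1 h2
  rw [Fintype.card_fin] at h1
  have h4 : Module.finrank ℚ (LinearMap.ker B.transpose.mulVecLin) = 1 := by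
    have hmem : ∀ c : T → ℚ, c ∈ LinearMap.ker B.transpose.mulVecLin ↔
        ∀ j, ∑ t, (b t j : ℚ) * c t = 0 := by
      intro c
      rw [LinearMap.mem_ker]
      constructor
      · intro h j
        have h' : ∑ t, (b t j : ℚ) * c t = 0 := congrFun h j
        exact h'
      · intro h
        funext j
        exact h j
    have h0 := rank_rel_of_pack hfull b lam m hext.pack
    have hl : (fun t => (lam t : ℚ)) ∈ LinearMap.ker B.transpose.mulVecLin := by
      rw [hmem]
      intro j
      have := congrFun h0 j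
      rw [Finset.sum_apply] at this
      simp only [Pi.smul_apply, smul_eq_mul, Pi.zero_apply] at this
      have h5 : ((∑ t, (lam t : ℤ) * b t j : ℤ) : ℚ) = 0 := by rw [this]; simp
      push_cast at h5
      rw [← h5]
      exact Finset.sum_congr rfl fun t _ => mul_comm _ _
    refine finrank_eq_one (⟨fun t => (lam t : ℚ), hl⟩ : LinearMap.ker B.transpose.mulVecLin)
      ?_ ?_
    · intro h
      have h5 := congrArg Subtype.val h
      obtain ⟨t⟩ := ‹Nonempty T›
      have h6 := congrFun h5 t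
      have h7 := hext.pos t
      simp only [ZeroMemClass.coe_zero, Pi.zero_apply, Nat.cast_eq_zero] at h6
      omega
    · rintro ⟨c, hc⟩
      rw [hmem] at hc
      -- clear denominators
      have hz : ∀ t, ∃ z : ℤ, (z : ℚ) = ((∏ t, (c t).den : ℕ) : ℚ) * c t := by
        intro t
        obtain ⟨k, hk⟩ := Finset.dvd_prod_of_mem (fun t => (c t).den) (Finset.mem_univ t)
        refine ⟨k * (c t).num, ?_⟩
        rw [hk]
        push_cast
        have h1 : (c t).num = (c t).den * c t := by
          rw [mul_comm]; exact (Rat.mul_den_eq_num _).symm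
        rw [h1]
        ring
      have hN : (0 : ℚ) < ((∏ t, (c t).den : ℕ) : ℚ) := by
        have : 0 < ∏ t, (c t).den := Finset.prod_pos fun t _ => (c t).den_pos
        exact_mod_cast this
      choose z hz using hz
      have h6 : ∑ t, z t • b t = 0 := by
        funext j
        rw [Finset.sum_apply]
        simp only [Pi.smul_apply, smul_eq_mul, Pi.zero_apply]
        have h7 : ((∑ t, z t * b t j : ℤ) : ℚ) = 0 := by
          push_cast
          have h8 : ∑ t, (z t : ℚ) * (b t j : ℚ)
              = ((∏ t, (c t).den : ℕ) : ℚ) * ∑ t, (b t j : ℚ) * c t := by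
            rw [Finset.mul_sum]
            refine Finset.sum_congr rfl fun t _ => ?_
            rw [hz t]
            ring
          rw [h8, hc j, mul_zero]
        exact_mod_cast h7
      obtain ⟨j, hj⟩ := rank_int_rel hf hfull b lam m hext z h6
      refine ⟨(j : ℚ) / ((∏ t, (c t).den : ℕ) : ℚ), ?_⟩
      apply Subtype.ext
      funext t
      change (j : ℚ) / ((∏ t, (c t).den : ℕ) : ℚ) * (lam t : ℚ) = c t
      have h7 : (z t : ℚ) = (j : ℚ) * lam t := by rw [hj t]; push_cast; ring
      rw [hz t] at h7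
      field_simp
      linarith
  omega

end Pool.Agent.Work.CI
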