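import Mathlib
import Pool.Agent.Work.MP_4329d7_ag_ci.Defs
import Pool.Agent.Work.MP_4329d7_ag_ci.Rank

/-!
V-M5c: the quotient torus.  If `K` is generated by the monomials orthogonal to the types of an
extreme packing with `#types = #moving equations + 1`, then `K` has data with fewer equations.

Let `Λ = {χ ∈ ℤ ^ d : pair χ (b t) = 0 for all t}`.  It is free; `d'` = its rank, basis
`χ_1, …, χ_d'` (`Module.finBasis ℤ Λ`); `x' i = mon x (χ_i)`.  `Q' = {q // m q = 0}`.
(1) For `q ∈ Q'` all `blk f (b t) (q, χ) = 0` (pack, `lam t ≥ 1`), so `pair χ (b t) = mn (f q) (b t)`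
    for all `χ` in the support; fix `χ_0(q)` in the support; all `χ - χ_0(q)` are in `Λ`;
    `f' q` = the Laurent polynomial with `f' q u = f q (χ_0(q) + ∑ u_i χ_i)` (`Finsupp.mapDomain`
    or `comapDomain` along the injective map `u ↦ χ_0(q) + ∑ i, u i • χ_i`).
(2) `ev (f' q) x' = ev (f q) x / mon x (χ_0(q)) = 0`,
    `∑ i, χ_i j * ldv (f' q) i x' = ldv (f q) j x / mon x (χ_0(q))` (uses `ev (f q) x = 0`).
(3) `loc`: given `v`, `a : Q' → K`: apply `D.loc` to `A q = a q * (mon x (χ_0(q)))⁻¹` on `Q'`, `0`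
    elsewhere; the sum is `∑ i, χ_i j * (∑ q, a q * ldv (f' q) i x')`; ultrametric inequality,
    `v (integer) ≤ 1`.  If `d' = 0` then `Q'` is empty (by `dim`).
(4) `dim`: rank of `span (b t)` is `card T - 1` because the integer relations between the `b t`
    are the multiples of `lam` (`hext.uniq`; a relation `ν ∈ ℤ ^ T` becomes natural after adding
    a multiple of `lam`; by `Full` a packing of the `blk f (b t)` is the same as a relation), so
    `d' = d - (card T - 1) = d - #moving` and `n + card Q' = d'`.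
(5) `card Q' < card Q`: otherwise nothing moves, `card T = 1`, and `lam t * blk f (b t) = 0`, so
    `b t = 0` by `Full`.
-/

namespace Pool.Agent.Work.CI

open Pool.Agent.Work.Uni

section quotaux

theorem quot_mon_zsmul {F : Type*} [Field F] {d : ℕ} (x : Fin d → F) (k : ℤ) (χ : Fin d → ℤ) :
    mon x (k • χ) = mon x χ ^ k := by
  unfold mon
  rw [← Finset.prod_zpow]
  refine Finset.prod_congr rfl fun j _ => ?_
  rw [Pi.smul_apply, smul_eq_mul, mul_comm, zpow_mul]

theorem quot_mon_sum {F : Type*} [Field F] {d d' : ℕ} {x : Fin d → F} (hx : ∀ j, x j ≠ 0)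
    (X : Fin d' → Fin d → ℤ) (u : Fin d' → ℤ) :
    mon x (∑ i, u i • X i) = mon (fun i => mon x (X i)) u := by
  classical
  have key : ∀ s : Finset (Fin d'), mon x (∑ i ∈ s, u i • X i) = ∏ i ∈ s, mon x (X i) ^ u i := by
    intro s
    induction s using Finset.induction_on with
    | empty => simp [mon_zero]
    | insert i s hi ih =>
      rw [Finset.sum_insert hi, Finset.prod_insert hi, mon_add hx, ih, quot_mon_zsmul]
  exact key Finset.univ

/-- the substitution `u ↦ χ₀ + ∑ u_i χ_i` -/
def quotMap {d d' : ℕ} (c : Fin d → ℤ) (X : Fin d' → Fin d → ℤ) (u : Fin d' → ℤ) : Fin d → ℤ :=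
  c + ∑ i, u i • X i

theorem quotMap_inj {d d' : ℕ} (c : Fin d → ℤ) {X : Fin d' → Fin d → ℤ}
    (hX : LinearIndependent ℤ X) : Function.Injective (quotMap c X) := by
  intro u u' h
  unfold quotMap at h
  have h1 : ∑ i, (u i - u' i) • X i = 0 := by
    simp only [sub_smul, Finset.sum_sub_distrib]
    exact sub_eq_zero.2 (add_left_cancel h)
  funext i
  exact sub_eq_zero.1 (Fintype.linearIndependent_iff.1 hX _ h1 i)

/-- the Laurent polynomial in the new variables -/
noncomputable def quotLau {d d' : ℕ} (c : Fin d → ℤ) (X : Fin d' → Fin d → ℤ)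
    (hX : LinearIndependent ℤ X) (f : Lau d) : Lau d' :=
  Finsupp.comapDomain (quotMap c X) f ((quotMap_inj c hX).injOn)

theorem quotLau_mem {d d' : ℕ} {c : Fin d → ℤ} {X : Fin d' → Fin d → ℤ}
    {hX : LinearIndependent ℤ X} {f : Lau d} {u : Fin d' → ℤ} :
    u ∈ (quotLau c X hX f).support ↔ quotMap c X u ∈ f.support := by
  unfold quotLau
  rw [Finsupp.mem_support_iff, Finsupp.comapDomain_apply, Finsupp.mem_support_iff]

theorem quotLau_sum {d d' : ℕ} {c : Fin d → ℤ} {X : Fin d' → Fin d → ℤ}
    {hX : LinearIndependent ℤ X} {f : Lau d}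
    (hc : ∀ χ ∈ f.support, χ ∈ Set.range (quotMap c X)) {M : Type*} [AddCommMonoid M]
    (G : (Fin d → ℤ) → M) :
    ∑ u ∈ (quotLau c X hX f).support, G (quotMap c X u) = ∑ χ ∈ f.support, G χ := by
  have h : (quotLau c X hX f).support
      = f.support.preimage (quotMap c X) ((quotMap_inj c hX).injOn) := by
    ext u
    rw [quotLau_mem, Finset.mem_preimage]
  rw [h]
  exact Finset.sum_preimage _ _ _ _ fun χ h1 h2 => absurd (hc χ h1) h2

variable {K : Type} [Field K] [Algebra ℂ K] {d d' : ℕ}

theorem quotLau_ev {c : Fin d → ℤ} {X : Fin d' → Fin d → ℤ} {hX : LinearIndependent ℤ X}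
    {f : Lau d} (hc : ∀ χ ∈ f.support, χ ∈ Set.range (quotMap c X)) {x : Fin d → K}
    (hx : ∀ j, x j ≠ 0) :
    ev f x = mon x c * ev (quotLau c X hX f) (fun i => mon x (X i)) := by
  unfold ev
  rw [← quotLau_sum (hX := hX) hc, Finset.mul_sum]
  refine Finset.sum_congr rfl fun u _ => ?_
  have h1 : (quotLau c X hX f) u = f (quotMap c X u) := rfl
  have h2 : mon x (quotMap c X u) = mon x c * mon (fun i => mon x (X i)) u := by
    unfold quotMap
    rw [mon_add hx, quot_mon_sum hx]
  rw [h1, h2]
  ring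

theorem quotLau_ldv {c : Fin d → ℤ} {X : Fin d' → Fin d → ℤ} {hX : LinearIndependent ℤ X}
    {f : Lau d} (hc : ∀ χ ∈ f.support, χ ∈ Set.range (quotMap c X)) {x : Fin d → K}
    (hx : ∀ j, x j ≠ 0) (h0 : ev f x = 0) (j : Fin d) :
    ldv f j x = mon x c *
      ∑ i, (X i j : K) * ldv (quotLau c X hX f) i (fun i => mon x (X i)) := by
  have h3 : ev (quotLau c X hX f) (fun i => mon x (X i)) = 0 := by
    have := quotLau_ev (hX := hX) hc hx
    rw [h0] at this
    exact (mul_eq_zero.1 this.symm).resolve_left (mon_ne_zero hx c)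
  have h4 : ldv f j x = mon x c * ((c j : K) * ev (quotLau c X hX f) (fun i => mon x (X i)) +
      ∑ i, (X i j : K) * ldv (quotLau c X hX f) i (fun i => mon x (X i))) := by
    unfold ldv ev
    rw [← quotLau_sum (hX := hX) hc]
    simp only [Finset.mul_sum]
    rw [Finset.sum_comm, ← Finset.sum_add_distrib, Finset.mul_sum]
    refine Finset.sum_congr rfl fun u _ => ?_
    have h1 : (quotLau c X hX f) u = f (quotMap c X u) := rfl
    have h2 : mon x (quotMap c X u) = mon x c * mon (fun i => mon x (X i)) u := by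
      unfold quotMap
      rw [mon_add hx, quot_mon_sum hx]
    have h5 : (quotMap c X u j : K) = (c j : K) + ∑ i, (u i : K) * (X i j : K) := by
      unfold quotMap
      simp only [Pi.add_apply, Finset.sum_apply, Pi.smul_apply, smul_eq_mul]
      push_cast
      rfl
    rw [h1, h2, h5, mul_add, mul_add, add_mul]
    congr 1
    · ring
    · rw [Finset.mul_sum, Finset.sum_mul, Finset.mul_sum]
      refine Finset.sum_congr rfl fun i _ => ?_
      ring
  rw [h4, h3, mul_zero, zero_add]

end quotaux

variable {K : Type} [Field K] [Algebra ℂ K] {n d : ℕ} {Q : Type} [Fintype Q]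
  {x : Fin d → K} {f : Q → Lau d}

theorem quot_data (D : Data K n d Q x f) (hfull : Full f) {T : Type} [Fintype T]
    (b : T → Fin d → ℤ) (lam : T → ℕ) (m : Q → ℕ) (hb : ∀ t, b t ≠ 0)
    (hext : IsExt (Sigma.fst : Pts f → Q) (fun t => blk f (b t)) lam m)
    (h2 : Fintype.card T = (Finset.univ.filter fun q => 1 ≤ m q).card + 1)
    (hgen : IntermediateField.adjoin ℂ
      {z : K | ∃ χ : Fin d → ℤ, (∀ t, pair χ (b t) = 0) ∧ z = mon x χ} = ⊤) :
    ∃ (d' : ℕ) (Q' : Type) (_ : Fintype Q') (x' : Fin d' → K) (f' : Q' → Lau d'),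
      Data K n d' Q' x' f' ∧ Fintype.card Q' < Fintype.card Q := by
  classical
  have hT : 0 < Fintype.card T := by omega
  have : Nonempty T := Fintype.card_pos_iff.1 hT
  -- the orthogonal lattice
  let Λ : Submodule ℤ (Fin d → ℤ) :=
    { carrier := {χ | ∀ t, pair χ (b t) = 0}
      add_mem' := fun {u v} hu hv t => by rw [add_pair, hu t, hv t, add_zero]
      zero_mem' := fun t => by simp [pair]
      smul_mem' := fun k u hu t => by
        have h1 : pair (k • u) (b t) = k * pair u (b t) := by
          simp only [pair, Pi.smul_apply, smul_eq_mul, Finset.mul_sum]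
          exact Finset.sum_congr rfl fun j _ => by ring
        rw [h1, hu t, mul_zero] }
  have hΛ : ∀ χ, χ ∈ Λ ↔ ∀ t, pair χ (b t) = 0 := fun χ => Iff.rfl
  have hrank := rank_orth D.nz hfull b lam m hext Λ hΛ
  set d' := Module.finrank ℤ Λ with hd'
  let B : Module.Basis (Fin d') ℤ Λ := Module.finBasis ℤ Λ
  let X : Fin d' → Fin d → ℤ := fun i => (B i : Fin d → ℤ)
  have hX : LinearIndependent ℤ X := B.linearIndependent.map' Λ.subtype Λ.ker_subtype
  have hXspan : ∀ χ ∈ Λ, ∃ u : Fin d' → ℤ, χ = ∑ i, u i • X i := by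
    intro χ hχ
    refine ⟨fun i => B.repr ⟨χ, hχ⟩ i, ?_⟩
    have h1 := B.sum_repr ⟨χ, hχ⟩
    have h3 := congrArg (fun z : Λ => (z : Fin d → ℤ)) h1
    simp only [Submodule.coe_sum, Submodule.coe_smul] at h3
    exact h3.symm
  have hex : ∀ q, ∃ χ, χ ∈ (f q).support := fun q => Finsupp.support_nonempty_iff.2 (D.nz q)
  choose c hc using hex
  have hlam := hext.pos
  have hblk : ∀ q, m q = 0 → ∀ t, ∀ χ ∈ (f q).support, pair χ (b t) = mn (f q) (b t) := by
    intro q hq t χ hχ
    have h1 := hext.pack ⟨q, ⟨χ, hχ⟩⟩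
    simp only [hq] at h1
    have h3 := (Finset.sum_eq_zero_iff.1 h1) t (Finset.mem_univ t)
    have h4 : blk f (b t) ⟨q, ⟨χ, hχ⟩⟩ = 0 := by
      rcases Nat.mul_eq_zero.1 h3 with h | h
      · have := hlam t
        omega
      · exact h
    have h5 := blk_cast f (b t) ⟨q, ⟨χ, hχ⟩⟩
    rw [h4] at h5
    simp only [Nat.cast_zero] at h5
    linarith
  have hrange : ∀ q, m q = 0 → ∀ χ ∈ (f q).support, χ ∈ Set.range (quotMap (c q) X) := by
    intro q hq χ hχ
    have h1 : χ - c q ∈ Λ := by
      intro t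
      rw [sub_pair, hblk q hq t χ hχ, hblk q hq t (c q) (hc q), sub_self]
    obtain ⟨u, hu⟩ := hXspan _ h1
    exact ⟨u, by unfold quotMap; rw [← hu]; abel⟩
  let Q' : Type := {q : Q // m q = 0}
  let x' : Fin d' → K := fun i => mon x (X i)
  let f' : Q' → Lau d' := fun q => quotLau (c q.1) X hX (f q.1)
  have hcard : Fintype.card Q' + (Finset.univ.filter fun q => 1 ≤ m q).card = Fintype.card Q := by
    have h1 : Fintype.card Q' = (Finset.univ.filter fun q => m q = 0).card :=
      Fintype.card_subtype _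
    rw [h1, ← Finset.card_univ,
      ← Finset.card_filter_add_card_filter_not (s := Finset.univ) (fun q => m q = 0)]
    congr 2
    ext q
    simp only [Finset.mem_filter, Finset.mem_univ, true_and]
    omega
  have hdim : n + Fintype.card Q' = d' := by
    have := D.dim
    omega
  have hx' : ∀ i, x' i ≠ 0 := fun i => mon_ne_zero D.ne _
  refine ⟨d', Q', inferInstance, x', f', ?_, ?_⟩
  · refine ⟨hx', ?_, ?_, ?_, D.trdeg, hdim, ?_⟩
    · -- gen
      rw [eq_top_iff, ← hgen, IntermediateField.adjoin_le_iff]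
      rintro z ⟨χ, hχ, rfl⟩
      obtain ⟨u, hu⟩ := hXspan χ hχ
      rw [hu, quot_mon_sum D.ne]
      unfold mon
      refine prod_mem fun i _ => zpow_mem ?_ _
      exact IntermediateField.subset_adjoin ℂ _ ⟨i, rfl⟩
    · -- eq
      intro q
      have h1 := quotLau_ev (hX := hX) (hrange q.1 q.2) D.ne
      rw [D.eq] at h1
      exact (mul_eq_zero.1 h1.symm).resolve_left (mon_ne_zero D.ne _)
    · -- nz
      intro q h
      obtain ⟨u, hu⟩ := hrange q.1 q.2 (c q.1) (hc q.1)
      have h1 : u ∈ (f' q).support := quotLau_mem.2 (by rw [hu]; exact hc q.1)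
      rw [h] at h1
      simp at h1
    · -- loc
      intro v hv a q u hu
      let A : Q → K := fun q => if h : m q = 0 then a ⟨q, h⟩ * (mon x (c q))⁻¹ else 0
      have hu' : quotMap (c q.1) X u ∈ (f q.1).support := quotLau_mem.1 hu
      obtain ⟨j, hj⟩ := D.loc v hv A q.1 _ hu'
      have hA : A q.1 = a q * (mon x (c q.1))⁻¹ := by
        simp only [A]
        rw [dif_pos q.2]
      have hm : mon x (quotMap (c q.1) X u) = mon x (c q.1) * mon x' u := by
        unfold quotMap
        rw [mon_add D.ne, quot_mon_sum D.ne]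
      have hleft : v (A q.1) * v (mon x (quotMap (c q.1) X u)) = v (a q) * v (mon x' u) := by
        rw [← map_mul, ← map_mul, hA, hm]
        congr 1
        have := mon_ne_zero D.ne (c q.1)
        field_simp
      have hright : ∑ q', A q' * ldv (f q') j x
          = ∑ i, (X i j : K) * ∑ q' : Q', a q' * ldv (f' q') i x' := by
        have h1 : ∑ q', A q' * ldv (f q') j x = ∑ q' : Q', A q'.1 * ldv (f q'.1) j x := by
          have h3 : ∑ q' : Q', A q'.1 * ldv (f q'.1) j x
              = ∑ q' ∈ Finset.univ.filter (fun q => m q = 0), A q' * ldv (f q') j x :=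
            (Finset.sum_subtype (Finset.univ.filter (fun q => m q = 0)) (by simp)
              (fun q' => A q' * ldv (f q') j x)).symm
          rw [h3]
          refine (Finset.sum_subset (Finset.filter_subset _ _) fun q' _ hq' => ?_).symm
          rw [Finset.mem_filter] at hq'
          have h4 : ¬ m q' = 0 := fun h => hq' ⟨Finset.mem_univ _, h⟩
          simp only [A]
          rw [dif_neg h4, zero_mul]
        rw [h1]
        simp only [Finset.mul_sum]
        rw [Finset.sum_comm]
        refine Finset.sum_congr rfl fun q' _ => ?_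
        rw [quotLau_ldv (hX := hX) (hrange q'.1 q'.2) D.ne (D.eq _)]
        have h4 : A q'.1 = a q' * (mon x (c q'.1))⁻¹ := by
          simp only [A]
          rw [dif_pos q'.2]
        rw [h4, Finset.mul_sum, Finset.mul_sum]
        refine Finset.sum_congr rfl fun i _ => ?_
        have h5 := mon_ne_zero D.ne (c q'.1)
        simp only [f', x']
        field_simp
      have hpos : 0 < d' := by
        have h1 : 0 < Fintype.card Q' := Fintype.card_pos_iff.2 ⟨q⟩
        omega
      have hint : ∀ k : ℤ, v (k : K) ≤ 1 := fun k => by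
        have h1 := hv (k : ℂ)
        rwa [map_intCast] at h1
      obtain ⟨i, -, hi⟩ := Finset.exists_max_image (Finset.univ : Finset (Fin d'))
        (fun i => v (∑ q' : Q', a q' * ldv (f' q') i x')) ⟨⟨0, hpos⟩, Finset.mem_univ _⟩
      refine ⟨i, ?_⟩
      rw [← hleft]
      refine hj.trans ?_
      rw [hright]
      refine Valuation.map_sum_le v fun i' _ => ?_
      rw [map_mul]
      calc v (X i' j : K) * v (∑ q' : Q', a q' * ldv (f' q') i' x')
          ≤ 1 * v (∑ q' : Q', a q' * ldv (f' q') i' x') := mul_le_mul_left (hint _) _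
        _ = v (∑ q' : Q', a q' * ldv (f' q') i' x') := one_mul _
        _ ≤ _ := hi i' (Finset.mem_univ _)
  · by_contra hlt
    have h0 : (Finset.univ.filter fun q => 1 ≤ m q).card = 0 := by omega
    have hm0 : ∀ q, m q = 0 := by
      intro q
      rw [Finset.card_eq_zero, Finset.filter_eq_empty_iff] at h0
      have := h0 (Finset.mem_univ q)
      omega
    obtain ⟨t⟩ := ‹Nonempty T›
    apply hb t
    refine hfull (b t) fun q χ hχ χ' hχ' => ?_
    rw [hblk q (hm0 q) t χ hχ, hblk q (hm0 q) t χ' hχ']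

end Pool.Agent.Work.CI
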