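import Mathlib
import Pool.Agent.Work.MP_4329d7_ag_ci.Defs
import Pool.Agent.Work.MP_4329d7_ag_uni.LP
import Pool.Agent.Work.MP_4329d7_ag_uni.Wqo

/-!
V, one exponent: for every `d` there is `M > 0` such that for all lattice polytopes in `ℤ ^ d`
(Minkowski sums of Newton polytopes) with a nonempty Fine interior the Fine interior contains a
point with denominator `M`.

Proof: a point `w / M₀` of the Fine interior is a convex combination of at most `d + 1` lattice
points `v` of the form `∑ q, σ q`, `σ q ∈ supp (f q)` (Farkas, Carathéodory), with weights `A v`;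
for all `b ≠ 0`: `∑ A v * β_b v ≥ 1`, where `β_b v = ⟨v, b⟩ - ∑ mn (f q) b ∈ ℕ`.  The weights are
dominated by weights with a bounded denominator (`exists_denom'`: Dickson and Higman).
-/

namespace Pool.Agent.Work.CI

open Pool.Agent.Work.Uni

section

variable {Q : Type} [Fintype Q] {d : ℕ}

open Classical in
/-- the sums of exponents, one for every equation -/
noncomputable def vsum (f : Q → Lau d) : Finset (Fin d → ℤ) :=
  (Fintype.piFinset fun q => (f q).support).image fun σ => ∑ q, σ q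

theorem sum_pair {ι : Type*} (s : Finset ι) (χ : ι → Fin d → ℤ) (b : Fin d → ℤ) :
    pair (∑ i ∈ s, χ i) b = ∑ i ∈ s, pair (χ i) b := by
  classical
  induction s using Finset.induction_on with
  | empty => simp [pair]
  | insert i s hi ih => rw [Finset.sum_insert hi, Finset.sum_insert hi, add_pair, ih]

theorem vsum_le (f : Q → Lau d) {v : Fin d → ℤ} (hv : v ∈ vsum f) (b : Fin d → ℤ) :
    ∑ q, mn (f q) b ≤ pair v b := by
  classical
  unfold vsum at hv
  obtain ⟨σ, hσ, rfl⟩ := Finset.mem_image.1 hv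
  rw [Fintype.mem_piFinset] at hσ
  rw [sum_pair]
  exact Finset.sum_le_sum fun q _ => mn_le (hσ q) b

theorem exists_vsum (f : Q → Lau d) (hf : ∀ q, f q ≠ 0) (b : Fin d → ℤ) :
    ∃ v ∈ vsum f, pair v b = ∑ q, mn (f q) b := by
  classical
  choose σ hσ h using fun q => exists_mn (hf q) b
  refine ⟨∑ q, σ q, ?_, ?_⟩
  · unfold vsum
    exact Finset.mem_image.2 ⟨σ, Fintype.mem_piFinset.2 hσ, rfl⟩
  · rw [sum_pair]
    exact Finset.sum_congr rfl fun q _ => h q

/-- a common denominator of finitely many rationals -/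
theorem exists_int_scale {n : ℕ} (y : Fin n → ℚ) (s : ℚ) :
    ∃ (D : ℕ) (z : Fin n → ℤ) (t : ℤ), 0 < D ∧ (∀ j, (z j : ℚ) = D * y j) ∧ (t : ℚ) = D * s := by
  have hdvd : ∀ (q : ℚ) (D : ℕ), q.den ∣ D → ∃ z : ℤ, (z : ℚ) = D * q := by
    intro q D h
    obtain ⟨c, rfl⟩ := h
    refine ⟨c * q.num, ?_⟩
    have := Rat.mul_den_eq_num q
    push_cast
    rw [← this]
    ring
  have hpos : 0 < s.den * ∏ j, (y j).den :=
    Nat.mul_pos s.den_pos (Finset.prod_pos fun j _ => (y j).den_pos)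
  have h1 : ∀ j, ∃ z : ℤ, (z : ℚ) = ((s.den * ∏ j, (y j).den : ℕ) : ℚ) * y j := fun j =>
    hdvd _ _ (Dvd.dvd.mul_left (Finset.dvd_prod_of_mem (fun j => (y j).den) (Finset.mem_univ j)) _)
  obtain ⟨t, ht⟩ := hdvd s (s.den * ∏ j, (y j).den) (Dvd.intro _ rfl)
  choose z hz using h1
  exact ⟨_, z, t, hpos, hz, ht⟩

theorem mem_hull (f : Q → Lau d) (hf : ∀ q, f q ≠ 0) (w : Fin d → ℤ) (M : ℕ) (hM : 0 < M)
    (hw : ∀ b, b ≠ 0 → (M : ℤ) ≤ pair w b - M * ∑ q, mn (f q) b) :
    ∃ c : vsum f → ℚ, (∀ v, 0 ≤ c v) ∧ ∑ v, c v = M ∧ ∀ j, ∑ v, c v * (v.1 j : ℚ) = w j := by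
  classical
  let e := Fintype.equivFin (vsum f)
  let G : (Fin d → ℤ) → ℚ → ((Fin d → ℚ) × ℚ) →ₗ[ℚ] ℚ := fun v r =>
    (∑ j, (v j : ℚ) • (LinearMap.proj j).comp (LinearMap.fst ℚ (Fin d → ℚ) ℚ)) +
      r • LinearMap.snd ℚ (Fin d → ℚ) ℚ
  have hG : ∀ v r (x : (Fin d → ℚ) × ℚ), G v r x = ∑ j, (v j : ℚ) * x.1 j + r * x.2 := by
    intro v r x
    simp [G, LinearMap.sum_apply]
  obtain ⟨c, hc0, hc⟩ := farkas (fun i => G (e.symm i).1 1) (G w M) (by
    rintro ⟨⟨y, s⟩, h1, h2⟩
    obtain ⟨D, z, t, hD, hz, ht⟩ := exists_int_scale y s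
    have hD' : (0 : ℚ) < D := by exact_mod_cast hD
    have h3 : ∀ v ∈ vsum f, t ≤ pair v (-z) := by
      intro v hv
      have := h1 (e ⟨v, hv⟩)
      rw [Equiv.symm_apply_apply, hG] at this
      have h4 : ((pair v (-z) : ℤ) : ℚ) = - (D * ∑ j, (v j : ℚ) * y j) := by
        simp only [pair, Pi.neg_apply, mul_neg, Finset.sum_neg_distrib]
        push_cast
        rw [Finset.mul_sum]
        congr 1
        refine Finset.sum_congr rfl fun j _ => ?_
        rw [hz]
        ring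
      have h5 : (t : ℚ) ≤ ((pair v (-z) : ℤ) : ℚ) := by
        rw [h4, ht]
        simp only [one_mul] at this
        nlinarith
      exact_mod_cast h5
    obtain ⟨v, hv, hv2⟩ := exists_vsum f hf (-z)
    have h4 := h3 v hv
    rw [hv2] at h4
    rw [hG] at h2
    have h5 : ((pair w (-z) : ℤ) : ℚ) = - (D * ∑ j, (w j : ℚ) * y j) := by
      simp only [pair, Pi.neg_apply, mul_neg, Finset.sum_neg_distrib]
      push_cast
      rw [Finset.mul_sum]
      congr 1
      refine Finset.sum_congr rfl fun j _ => ?_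
      rw [hz]
      ring
    have h6 : pair w (-z) < M * t := by
      have : ((pair w (-z) : ℤ) : ℚ) < M * (t : ℚ) := by
        rw [h5, ht]
        simp only at h2
        nlinarith
      exact_mod_cast this
    have hM' : (0 : ℤ) < M := by exact_mod_cast hM
    by_cases hz0 : -z = 0
    · rw [hz0] at h4 h6
      simp only [pair_zero] at h6
      have h7 : ∑ q, mn (f q) 0 = 0 := by
        refine Finset.sum_eq_zero fun q _ => ?_
        obtain ⟨χ, _, h8⟩ := exists_mn (hf q) 0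
        rw [← h8, pair_zero]
      rw [h7] at h4
      nlinarith
    · have h7 := hw (-z) hz0
      nlinarith)
  have hsum : G w M = ∑ v : vsum f, c (e v) • G v.1 1 := by
    rw [hc, ← Equiv.sum_comp e]
    simp only [Equiv.symm_apply_apply]
  have hev : ∀ x : (Fin d → ℚ) × ℚ, ∑ j, (w j : ℚ) * x.1 j + M * x.2 =
      ∑ v : vsum f, c (e v) * (∑ j, (v.1 j : ℚ) * x.1 j + x.2) := by
    intro x
    have h1 := LinearMap.congr_fun hsum x
    simp only [LinearMap.sum_apply, LinearMap.smul_apply, smul_eq_mul, hG, one_mul] at h1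
    exact h1
  refine ⟨fun v => c (e v), fun v => hc0 _, ?_, fun j => ?_⟩
  · have := hev (0, 1)
    simpa using this.symm
  · have := hev (Pi.single j 1, 0)
    simpa [Pi.single_apply] using this.symm

end

theorem unif_point (d : ℕ) : ∃ M : ℕ, 0 < M ∧ ∀ (Q : Type) [Fintype Q] (f : Q → Lau d),
    (∀ q, f q ≠ 0) → ∀ (w : Fin d → ℤ) (M₀ : ℕ), 0 < M₀ →
    (∀ b, b ≠ 0 → (M₀ : ℤ) ≤ pair w b - M₀ * ∑ q, mn (f q) b) →
    ∃ w' : Fin d → ℤ, ∀ b, b ≠ 0 → (M : ℤ) ≤ pair w' b - M * ∑ q, mn (f q) b := by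
  classical
  obtain ⟨M, hM2, hM⟩ := exists_denom' (d + 1)
  refine ⟨M, by omega, fun Q _ f hf w M₀ hM₀ hw => ?_⟩
  obtain ⟨c, hc0, hc1, hcw⟩ := mem_hull f hf w M₀ hM₀ hw
  have hM₀' : (0 : ℚ) < M₀ := by exact_mod_cast hM₀
  -- the point is in the convex hull
  let emb : (Fin d → ℤ) → (Fin d → ℚ) := fun v j => (v j : ℚ)
  let x : Fin d → ℚ := fun j => (w j : ℚ) / M₀
  have hx : x ∈ convexHull ℚ (emb '' (vsum f : Set (Fin d → ℤ))) := by
    have h1 : x = ∑ v : vsum f, (c v / M₀) • emb v.1 := by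
      funext j
      rw [Finset.sum_apply]
      simp only [Pi.smul_apply, smul_eq_mul, x, emb]
      rw [← hcw j, Finset.sum_div]
      exact Finset.sum_congr rfl fun v _ => by ring
    rw [h1]
    refine (convex_convexHull ℚ _).sum_mem (fun v _ => div_nonneg (hc0 v) hM₀'.le) ?_
      (fun v _ => subset_convexHull ℚ _ ⟨v.1, v.2, rfl⟩)
    rw [← Finset.sum_div, hc1, div_self hM₀'.ne']
  obtain ⟨ι, _, z, A, hz, hai, hA, hA1, hAx⟩ := eq_pos_convex_span_of_mem_convexHull hx
  have hcard : Fintype.card ι ≤ d + 1 := by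
    refine hai.card_le_finrank_succ.trans ?_
    have := Submodule.finrank_le (vectorSpan ℚ (Set.range z))
    rw [Module.finrank_fin_fun] at this
    omega
  have hzv : ∀ i, ∃ v ∈ vsum f, emb v = z i := fun i => hz ⟨i, rfl⟩
  choose v hv hvz using hzv
  -- the naturals `β_b`
  have hβ : ∀ (b : Fin d → ℤ) (i : ι), ∃ β : ℕ, (β : ℤ) = pair (v i) b - ∑ q, mn (f q) b := by
    intro b i
    have := vsum_le f (hv i) b
    exact ⟨(pair (v i) b - ∑ q, mn (f q) b).toNat, Int.toNat_of_nonneg (by linarith)⟩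
  choose β hβ using hβ
  have hpair : ∀ (χ b : Fin d → ℤ), ((pair χ b : ℤ) : ℚ) = ∑ j, (χ j : ℚ) * (b j : ℚ) := by
    intro χ b
    unfold pair
    push_cast
    rfl
  have hAβ : ∀ b, b ≠ 0 → 1 ≤ ∑ i, A i * (β b i : ℚ) := by
    intro b hb
    have h1 : ∑ i, A i * (β b i : ℚ) =
        ((pair w b : ℤ) : ℚ) / M₀ - ((∑ q, mn (f q) b : ℤ) : ℚ) := by
      have h2 : ∀ i, (β b i : ℚ) = ((pair (v i) b : ℤ) : ℚ) - ((∑ q, mn (f q) b : ℤ) : ℚ) := by
        intro i
        have := hβ b i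
        exact_mod_cast this
      simp only [h2, mul_sub, Finset.sum_sub_distrib]
      rw [← Finset.sum_mul, hA1, one_mul]
      congr 1
      rw [hpair, Finset.sum_div]
      have h3 : ∀ j, (w j : ℚ) / M₀ = ∑ i, A i * (v i j : ℚ) := by
        intro j
        have := congrFun hAx j
        rw [Finset.sum_apply] at this
        change _ = x j at this
        change x j = _
        rw [← this]
        refine Finset.sum_congr rfl fun i _ => ?_
        rw [Pi.smul_apply, smul_eq_mul, ← hvz i]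
      calc ∑ i, A i * ((pair (v i) b : ℤ) : ℚ) = ∑ i, ∑ j, A i * (v i j : ℚ) * (b j : ℚ) := by
            refine Finset.sum_congr rfl fun i _ => ?_
            rw [hpair, Finset.mul_sum]
            exact Finset.sum_congr rfl fun j _ => by ring
        _ = ∑ j, (w j : ℚ) * (b j : ℚ) / M₀ := by
            rw [Finset.sum_comm]
            refine Finset.sum_congr rfl fun j _ => ?_
            rw [← Finset.sum_mul, ← h3 j]
            ring
    have h4 : (M₀ : ℚ) ≤ ((pair w b : ℤ) : ℚ) - M₀ * ((∑ q, mn (f q) b : ℤ) : ℚ) := by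
      exact_mod_cast hw b hb
    rw [h1, le_sub_iff_add_le, le_div_iff₀ hM₀']
    linarith
  have hAle : ∀ i, A i ≤ 1 := by
    intro i
    rw [← hA1]
    exact Finset.single_le_sum (fun j _ => (hA j).le) (Finset.mem_univ i)
  obtain ⟨A', -, hA'1, -, hA'2⟩ := hM ι hcard A fun i => ⟨(hA i).le, hAle i⟩
  have hsum : ∑ i, A' i ≤ M := by
    have := hA'2 Finset.univ 1 (by rw [hA1]; norm_num)
    simpa using this
  have hne : Nonempty ι := by
    by_contra h
    rw [not_nonempty_iff] at h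
    rw [Finset.univ_eq_empty, Finset.sum_empty] at hA1
    exact zero_ne_one hA1
  obtain ⟨i0⟩ := hne
  let A'' : ι → ℕ := fun i => A' i + if i = i0 then M - ∑ i, A' i else 0
  have hsum'' : ∑ i, A'' i = M := by
    simp only [A'', Finset.sum_add_distrib, Finset.sum_ite_eq', Finset.mem_univ, if_true]
    omega
  refine ⟨∑ i, (A'' i : ℤ) • v i, fun b hb => ?_⟩
  have h1 : pair (∑ i, (A'' i : ℤ) • v i) b - M * ∑ q, mn (f q) b =
      ((∑ i, A'' i * β b i : ℕ) : ℤ) := by
    rw [sum_pair]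
    push_cast
    have h2 : ∀ i, pair ((A'' i : ℤ) • v i) b = (A'' i : ℤ) * pair (v i) b := by
      intro i
      unfold pair
      rw [Finset.mul_sum]
      exact Finset.sum_congr rfl fun j _ => by simp [mul_assoc]
    simp only [h2, hβ, mul_sub, Finset.sum_sub_distrib]
    rw [← Finset.sum_mul]
    have h3 : (∑ i, (A'' i : ℤ)) = M := by exact_mod_cast hsum''
    rw [h3]
  rw [h1]
  have h2 : M ≤ ∑ i, A' i * β b i := hA'1 (β b) (hAβ b hb)
  have h3 : ∑ i, A' i * β b i ≤ ∑ i, A'' i * β b i :=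
    Finset.sum_le_sum fun i _ => Nat.mul_le_mul_right _ (Nat.le_add_right _ _)
  exact_mod_cast h2.trans h3

end Pool.Agent.Work.CI
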