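import Mathlib
import Pool.Agent.Work.MP_4329d7_ag_ci.Nondeg
import Pool.Agent.Work.MP_4329d7_ag_ci.Form
import Pool.Agent.Work.MP_4329d7_ag_ci.LPV
import Pool.Agent.Work.MP_4329d7_ag_ci.CurveStar
import Pool.Agent.Work.MP_4329d7_ag_ci.Gen
import Pool.Agent.Work.MP_4329d7_ag_ci.Quot
import Pool.Agent.Work.MP_4329d7_ag_ci.UnifV

/-!
THEOREM V: if all pluricanonical forms on a nondegenerate complete intersection in a torus vanish
then it is uniruled.
-/

namespace Pool.Agent.Work.CI

open Pool.Agent.Work.Uni Pool.Agent.Work.MP_4329d7_ag.FF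

/-- if `K` is not uniruled then, after passing to a quotient torus finitely often, there are
weights (a rational point of the Fine interior) -/
theorem main_aux {K : Type} [Field K] [Algebra ℂ K] [Algebra.EssFiniteType ℂ K] (n : ℕ)
    (hK : ¬ Uniruled K) (N : ℕ) : ∀ (d : ℕ) (Q : Type) [Fintype Q] (x : Fin d → K)
    (f : Q → Lau d), Data K n d Q x f → Fintype.card Q < N →
    ∃ (d' : ℕ) (Q' : Type) (_ : Fintype Q') (x' : Fin d' → K) (f' : Q' → Lau d'),
      Data K n d' Q' x' f' ∧ d' ≤ d ∧ ∃ (w : Fin d' → ℤ) (M : ℕ), 0 < M ∧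
        ∀ b, b ≠ 0 → (M : ℤ) ≤ pair w b - M * ∑ q, mn (f' q) b := by
  classical
  have : CharZero K := charZero_of_injective_algebraMap (algebraMap ℂ K).injective
  induction N with
  | zero => exact fun d Q _ x f D hN => absurd hN (Nat.not_lt_zero _)
  | succ N ih =>
    intro d Q _ x f D hN
    have hfull := full_of_not_uniruled D hK
    have hstar := star_of_not_uniruled D hK
    rcases weights_or_ext f D.nz hfull with
      ⟨w, M, hM, hw⟩ | ⟨T, _, b, lam, m, hb, hext, hlt⟩
    · exact ⟨d, Q, inferInstance, x, f, D, le_rfl, w, M, hM, hw⟩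
    · have hsol : ∀ q, ev (f q) (fun j => algebraMap K (AlgebraicClosure K) (x j)) = 0 := by
        intro q
        have h1 := congrArg (algebraMap K (AlgebraicClosure K)) (D.eq q)
        rw [map_zero] at h1
        rw [← h1]
        unfold ev mon
        simp only [map_sum, map_mul, map_prod, map_zpow₀]
        refine Finset.sum_congr rfl fun χ _ => ?_
        rw [← IsScalarTower.algebraMap_apply ℂ K (AlgebraicClosure K)]
      have hcoef := coef_isCoef f _ hsol
      have hcrit := crit_of_star (blocks f) (Sigma.fst : Pts f → Q) id _ hcoef hstar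
      obtain ⟨h1, h2⟩ := hcrit T (fun t => blk f (b t)) lam m
        (fun t => isBlock_blk f D.nz hfull (hb t)) hext
      simp only [id_eq] at h1 h2
      have h3 : ∑ t, lam t = ∑ q, m q + 1 := by omega
      have h4 := h2 h3 1 le_rfl
      have h5 : Fintype.card T = (Finset.univ.filter fun q => 1 ≤ m q).card + 1 := by
        have e1 : ∑ t, min (lam t) 1 = Fintype.card T := by
          rw [Finset.sum_congr rfl fun t _ => min_eq_right (hext.pos t)]
          simp
        have e2 : ∑ q, min (m q) 1 = (Finset.univ.filter fun q => 1 ≤ m q).card := by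
          rw [Finset.card_filter]
          refine Finset.sum_congr rfl fun q _ => ?_
          split_ifs with h
          · exact min_eq_right h
          · have : m q = 0 := by omega
            rw [this]
            rfl
        rw [← e1, ← e2]
        exact h4
      have hgen := gen_of_ext D hfull hstar b lam m hb hext h3 h5
      obtain ⟨d', Q', _, x', f', D', hlt'⟩ := quot_data D hfull b lam m hb hext h5 hgen
      obtain ⟨d'', Q'', i'', x'', f'', D'', hle, w, M, hM, hw⟩ :=
        ih d' Q' x' f' D' (by omega)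
      have h6 : d' ≤ d := by
        have e1 := D.dim
        have e2 := D'.dim
        omega
      exact ⟨d'', Q'', i'', x'', f'', D'', hle.trans h6, w, M, hM, hw⟩

/-- THEOREM V: for every `d` there is one exponent `M` for all nondegenerate complete
intersections in tori of dimension `d`. -/
theorem main (d : ℕ) : ∃ M : ℕ, 0 < M ∧
    ∀ (K : Type) [Field K] [Algebra ℂ K] [Algebra.EssFiniteType ℂ K] (n : ℕ) (Q : Type)
      [Fintype Q] (x : Fin d → K) (f : Q → Lau d), Nondegenerate f →
      (∀ j, x j ≠ 0) → IntermediateField.adjoin ℂ (Set.range x) = ⊤ → (∀ q, ev (f q) x = 0) →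
      Algebra.trdeg ℂ K = n → n + Fintype.card Q = d →
      (∀ T : TensorForm K (M * n), IsPluricanonical M n T → IsRegular T → T = 0) →
      Uniruled K := by
  classical
  choose M hM hMw using unif_point
  refine ⟨2 * ∏ j ∈ Finset.range (d + 1), M j,
    Nat.mul_pos two_pos (Finset.prod_pos fun j _ => hM j), ?_⟩
  intro K _ _ _ n Q _ x f hf ne gen eq trdeg dim h
  by_contra hK
  obtain ⟨d', Q', _, x', f', D, hd', w, M₀, hM₀, hw⟩ := main_aux n hK (Fintype.card Q + 1) d Q x f
    (data_of_nondegenerate hf ne gen eq trdeg dim) (Nat.lt_succ_self _)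
  obtain ⟨w', hw'⟩ := hMw d' Q' f' D.nz w M₀ hM₀ hw
  obtain ⟨c, hc⟩ : M d' ∣ ∏ j ∈ Finset.range (d + 1), M j :=
    Finset.dvd_prod_of_mem M (Finset.mem_range.2 (by omega))
  have hprod : 0 < ∏ j ∈ Finset.range (d + 1), M j := Finset.prod_pos fun j _ => hM j
  obtain ⟨T, hTp, hT, hT0⟩ := exists_form D ((c : ℤ) • w') (∏ j ∈ Finset.range (d + 1), M j)
    hprod (by
      intro b hb
      have h1 := hw' b hb
      have h2 : pair ((c : ℤ) • w') b = c * pair w' b := by
        unfold pair
        rw [Finset.mul_sum]
        exact Finset.sum_congr rfl fun j _ => by simp [mul_assoc]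
      rw [h2, hc]
      push_cast
      have h3 : (0 : ℤ) ≤ c := Int.natCast_nonneg c
      nlinarith)
  exact hT0 (h T hTp hT)

end Pool.Agent.Work.CI
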