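import Mathlib
import Pool.Agent.Work.MP_4329d7_ag.FF.RatExt
import Pool.Agent.Work.MP_4329d7_ag_uni.Plur

/-!
Pullback of regular block alternating tensor forms to an extension field.
`ratExt_form` of `MP_4329d7_ag/FF/RatExt.lean` is regular and nonzero; block alternation: involution
`w ↦ w ∘ swap` on the sum.
-/

namespace Pool.Agent.Work.CI

open Pool.Agent.Work.MP_4329d7_ag.FF Pool.Agent.Work.Uni

namespace PullAux

/-- a multilinear map which vanishes on equal arguments in two positions is antisymmetric -/
theorem swap_neg {K V W : Type*} [Field K] [AddCommGroup V] [Module K V] [AddCommGroup W]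
    [Module K W] {N : ℕ} (T : MultilinearMap K (fun _ : Fin N => V) W) {P Q : Fin N} (hPQ : P ≠ Q)
    (h : ∀ v : Fin N → V, v P = v Q → T v = 0) (v : Fin N → V) :
    T (fun s => v (Equiv.swap P Q s)) = - T v := by
  classical
  have h1 := h (Function.update (Function.update v P (v P + v Q)) Q (v P + v Q)) (by
    rw [Function.update_self, Function.update_of_ne hPQ, Function.update_self])
  rw [T.map_update_add] at h1
  have c : ∀ a b : V, Function.update (Function.update v P a) Q b =
      Function.update (Function.update v Q b) P a := fun a b =>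
    Function.update_comm hPQ.symm b a v |>.symm ▸ rfl
  rw [c, c, T.map_update_add, T.map_update_add] at h1
  have e1 : T (Function.update (Function.update v Q (v P)) P (v P)) = 0 := by
    apply h
    rw [Function.update_self, Function.update_of_ne hPQ.symm, Function.update_self]
  have e2 : T (Function.update (Function.update v Q (v Q)) P (v Q)) = 0 := by
    apply h
    rw [Function.update_self, Function.update_of_ne hPQ.symm, Function.update_self]
  have e3 : Function.update (Function.update v Q (v Q)) P (v P) = v := by
    rw [Function.update_eq_self, Function.update_eq_self]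
  have e4 : Function.update (Function.update v Q (v P)) P (v Q) =
      fun s => v (Equiv.swap P Q s) := by
    funext s
    by_cases hP : s = P
    · subst hP
      rw [Function.update_self, Equiv.swap_apply_left]
    · rw [Function.update_of_ne hP]
      by_cases hQ : s = Q
      · subst hQ
        rw [Function.update_self, Equiv.swap_apply_right]
      · rw [Function.update_of_ne hQ, Equiv.swap_apply_of_ne_of_ne hP hQ]
  rw [e1, e2, e3, e4, zero_add, add_zero] at h1
  exact eq_neg_of_add_eq_zero_left h1

end PullAux

open PullAux

theorem exists_pull {F K : Type} [Field F] [Algebra ℂ F] [Field K] [Algebra ℂ K] [Algebra F K]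
    [IsScalarTower ℂ F K] {M p : ℕ} (htr : Algebra.trdeg ℂ F = p) (T : TensorForm F (M * p))
    (hp : IsPluricanonical M p T) (hT : IsRegular T) (h0 : T ≠ 0) :
    ∃ T' : TensorForm K (M * p), IsPluricanonical M p T' ∧ IsRegular T' ∧ T' ≠ 0 := by
  classical
  obtain ⟨s, hs⟩ := exists_isTranscendenceBasis ℂ F
  have hcard : Cardinal.mk s = p := by rw [hs.cardinalMk_eq_trdeg, htr]
  haveI : Finite s := by
    rw [← Cardinal.lt_aleph0_iff_finite, hcard]
    exact Cardinal.natCast_lt_aleph0
  letI : Fintype s := Fintype.ofFinite s
  obtain ⟨Fr, -⟩ := ratExt_exists_frame (K := F) (Subtype.val : s → F) hs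
  refine ⟨ratExt_form (L := K) Fr T, ?_, ratExt_regular Fr T hT, ratExt_ne_zero Fr T h0⟩
  intro D a i j hij hD
  set P := finProdFinEquiv (a, i) with hP
  set Q := finProdFinEquiv (a, j) with hQ
  have hPQ : P ≠ Q := fun h => hij (congrArg Prod.snd (finProdFinEquiv.injective h))
  have hv : ∀ v : Fin (M * p) → Derivation ℂ F F, v P = v Q → T v = 0 := fun v h =>
    hp v a i j hij h
  rw [ratExt_form_apply]
  have hDs : ∀ s', D (Equiv.swap P Q s') = D s' := by
    intro s'
    by_cases h1 : s' = P
    · rw [h1, Equiv.swap_apply_left, hD]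
    · by_cases h2 : s' = Q
      · rw [h2, Equiv.swap_apply_right, hD]
      · rw [Equiv.swap_apply_of_ne_of_ne h1 h2]
  refine Finset.sum_involution (fun w _ => fun s' => w (Equiv.swap P Q s')) ?_ ?_ ?_ ?_
  · intro w _
    have h1 : ∏ s', D s' (algebraMap F K (Fr.z (w (Equiv.swap P Q s')))) =
        ∏ s', D s' (algebraMap F K (Fr.z (w s'))) := by
      rw [← Equiv.prod_comp (Equiv.swap P Q) (fun s' => D s' (algebraMap F K (Fr.z (w s'))))]
      exact Finset.prod_congr rfl fun s' _ => by rw [hDs s']
    have h2 : T (fun s' => Fr.d (w (Equiv.swap P Q s'))) = - T (fun s' => Fr.d (w s')) :=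
      swap_neg T hPQ hv (fun s' => Fr.d (w s'))
    rw [h1, h2, map_neg, mul_neg, add_neg_cancel]
  · intro w _ hne h1
    apply hne
    have h2 : w Q = w P := by
      have := congrFun h1 P
      simpa [Equiv.swap_apply_left] using this
    have h3 : T (fun s' => Fr.d (w s')) = 0 := hv _ (by rw [h2])
    rw [h3, map_zero, mul_zero]
  · intro w _
    exact Finset.mem_univ _
  · intro w _
    funext s'
    change w (Equiv.swap P Q (Equiv.swap P Q s')) = w s'
    rw [← Equiv.Perm.mul_apply, Equiv.swap_mul_self]
    rfl

end Pool.Agent.Work.CI
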