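import Mathlib
import Pool.Agent.Work.MP_4329d7_ag_ci.Defs

/-!
The function field of a toric quotient.
-/

namespace Pool.Agent.Work.CI

variable {K : Type} [Field K] [Algebra ℂ K] {d : ℕ}

/-- the function field of the toric quotient -/
noncomputable abbrev subF {K : Type} [Field K] [Algebra ℂ K] {d d' : ℕ} (x : Fin d → K)
    (χ : Fin d' → Fin d → ℤ) : IntermediateField ℂ K :=
  IntermediateField.adjoin ℂ (Set.range fun i => mon x (χ i))

theorem subF_essFinite {d' : ℕ} (x : Fin d → K) (χ : Fin d' → Fin d → ℤ) :
    Algebra.EssFiniteType ℂ (subF x χ) :=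
  IntermediateField.essFiniteType_iff.2
    (IntermediateField.fg_adjoin_of_finite (Set.finite_range _))

end Pool.Agent.Work.CI
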