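import Mathlib
import Pool.Agent.Work.MP_4329d7_ag.GaussVal

/-!
Discrete valuations extend to finitely generated extension fields.
Plan: transcendence basis `s` of `K` over `F`; purely transcendental extensions by `gaussVal`
(`MP_4329d7_ag/GaussVal.lean`, one variable at a time); finite separable extensions: the trivial
valuation extends trivially; otherwise `O` = valuation ring (a DVR), integral closure in `K` is a
Dedekind domain, take a prime above the maximal ideal and its adic valuation; `w a ≤ 1 ↔ v a ≤ 1`
(`Valuation.isEquiv_iff_val_le_one`).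
-/

open scoped WithZero

namespace Pool.Agent.Work.CI

theorem isCyclic_units : IsCyclic (ℤᵐ⁰)ˣ :=
  isCyclic_of_surjective (WithZero.unitsWithZeroEquiv (α := Multiplicative ℤ)).symm
    (WithZero.unitsWithZeroEquiv (α := Multiplicative ℤ)).symm.surjective

/-- finite separable extensions -/
theorem val_ext_finite {F K : Type} [Field F] [Field K] [Algebra F K] [FiniteDimensional F K]
    [Algebra.IsSeparable F K] (v : Valuation F ℤᵐ⁰) :
    ∃ w : Valuation K ℤᵐ⁰, ∀ a : F, w (algebraMap F K a) ≤ 1 ↔ v a ≤ 1 := by
  classical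
  by_cases htriv : ∀ a : F, a ≠ 0 → v a = 1
  · refine ⟨1, fun a => ⟨fun _ => ?_, fun _ => Valuation.one_apply_le_one _⟩⟩
    by_cases ha : a = 0
    · rw [ha, map_zero]; exact zero_le
    · exact (htriv a ha).le
  push Not at htriv
  obtain ⟨a0, ha0, hva0⟩ := htriv
  have := isCyclic_units
  have hnt : Nontrivial (MonoidWithZeroHom.valueGroup (MonoidWithZeroHom.ofClass v)) := by
    rw [Subgroup.nontrivial_iff_exists_ne_one]
    have hne : v a0 ≠ 0 := (Valuation.ne_zero_iff v).2 ha0
    refine ⟨Units.mk0 (v a0) hne, ?_, ?_⟩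
    · exact MonoidWithZeroHom.mem_valueGroup _ ⟨a0, rfl⟩
    · intro h
      apply hva0
      have := congrArg Units.val h
      simpa using this
  let O := v.valuationSubring
  let : Algebra O K := ((algebraMap F K).comp (algebraMap O F)).toAlgebra
  have : IsScalarTower O F K := IsScalarTower.of_algebraMap_eq fun _ => rfl
  have hD : IsDedekindDomain O := inferInstance
  have hB : IsDedekindDomain (integralClosure O K) := integralClosure.isDedekindDomain O F K
  have hFr : IsFractionRing (integralClosure O K) K :=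
    integralClosure.isFractionRing_of_finite_extension F K
  have : FaithfulSMul O (integralClosure O K) := by
    rw [faithfulSMul_iff_algebraMap_injective]
    intro x y hxy
    have h1 := congrArg (algebraMap (integralClosure O K) K) hxy
    rw [← IsScalarTower.algebraMap_apply, ← IsScalarTower.algebraMap_apply] at h1
    exact Subtype.ext ((algebraMap F K).injective h1)
  obtain ⟨Q, hQ, hQO⟩ := Ideal.exists_maximal_ideal_liesOver_of_isIntegral
    (S := integralClosure O K) (IsLocalRing.maximalIdeal O)
  have hmem : ∀ a : F, v a < 1 → ∃ b : integralClosure O K, algebraMap _ K b = algebraMap F K a ∧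
      b ∈ Q := by
    intro a ha
    have haO : a ∈ v.valuationSubring := ha.le
    refine ⟨algebraMap O (integralClosure O K) ⟨a, haO⟩, ?_, ?_⟩
    · rw [← IsScalarTower.algebraMap_apply]
      rfl
    · rw [← Ideal.mem_of_liesOver Q (IsLocalRing.maximalIdeal O)]
      rw [IsLocalRing.mem_maximalIdeal, mem_nonunits_iff]
      exact fun hu => ha.ne (Valuation.Integers.one_of_isUnit
        (Valuation.integer.integers v) (x := (⟨a, haO⟩ : v.integer)) hu)
  have hQ0 : Q ≠ ⊥ := by
    rcases lt_or_gt_of_ne hva0 with h | h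
    · obtain ⟨b, hb1, hb2⟩ := hmem a0 h
      rintro rfl
      rw [Ideal.mem_bot] at hb2
      rw [hb2, map_zero] at hb1
      exact ha0 ((map_eq_zero (algebraMap F K)).1 hb1.symm)
    · have h' : v a0⁻¹ < 1 := by
        rw [map_inv₀]
        exact inv_lt_one_of_one_lt₀ h
      obtain ⟨b, hb1, hb2⟩ := hmem a0⁻¹ h'
      rintro rfl
      rw [Ideal.mem_bot] at hb2
      rw [hb2, map_zero] at hb1
      exact inv_ne_zero ha0 ((map_eq_zero (algebraMap F K)).1 hb1.symm)
  let P : IsDedekindDomain.HeightOneSpectrum (integralClosure O K) := ⟨Q, hQ.isPrime, hQ0⟩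
  refine ⟨P.valuation K, fun a => ⟨fun h => ?_, fun h => ?_⟩⟩
  · by_contra hcon
    push Not at hcon
    have h' : v a⁻¹ < 1 := by
      rw [map_inv₀]
      exact inv_lt_one_of_one_lt₀ hcon
    obtain ⟨b, hb1, hb2⟩ := hmem a⁻¹ h'
    have h2 : P.valuation K (algebraMap F K a⁻¹) < 1 := by
      rw [← hb1]
      exact (P.valuation_lt_one_iff_mem b).2 hb2
    rw [map_inv₀, map_inv₀] at h2
    have ha : a ≠ 0 := by
      rintro rfl
      rw [map_zero] at hcon
      exact absurd hcon (by simp)
    have hpos : 0 < P.valuation K (algebraMap F K a) := by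
      rw [zero_lt_iff, Valuation.ne_zero_iff]
      exact (map_ne_zero _).2 ha
    have h3 := (inv_lt_one₀ hpos).1 h2
    exact absurd h (not_le.2 h3)
  · have haO : a ∈ v.valuationSubring := h
    have h1 : algebraMap F K a =
        algebraMap (integralClosure O K) K (algebraMap O (integralClosure O K) ⟨a, haO⟩) := by
      rw [← IsScalarTower.algebraMap_apply]
      rfl
    rw [h1]
    exact P.valuation_le_one _

/-- one variable -/
theorem val_ext_ratFunc {F : Type} [Field F] (v : Valuation F ℤᵐ⁰) (a : F) :
    MP_4329d7_ag.R.gaussVal v (algebraMap F (RatFunc F) a) = v a := by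
  have h : algebraMap F (RatFunc F) a =
      algebraMap (Polynomial F) (RatFunc F) (Polynomial.C a) := by
    rw [IsScalarTower.algebraMap_apply F (Polynomial F) (RatFunc F)]
    rfl
  rw [h, MP_4329d7_ag.R.gaussVal_alg, MP_4329d7_ag.R.gs_C]

/-- adjoining one element -/
theorem val_ext_simple {F K : Type} [Field F] [CharZero F] [Field K] [Algebra F K] (x : K)
    (v : Valuation F ℤᵐ⁰) :
    ∃ w : Valuation (IntermediateField.adjoin F {x}) ℤᵐ⁰, ∀ a : F,
      w (algebraMap F _ a) ≤ 1 ↔ v a ≤ 1 := by
  by_cases hx : IsAlgebraic F x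
  · have : FiniteDimensional F (IntermediateField.adjoin F {x}) :=
      IntermediateField.adjoin.finiteDimensional hx.isIntegral
    exact val_ext_finite v
  · let e := RatFunc.algEquivOfTranscendental (K := F) x hx
    refine ⟨(MP_4329d7_ag.R.gaussVal v).comap (e.symm : _ →+* RatFunc F), fun a => ?_⟩
    rw [Valuation.comap_apply]
    have h : (e.symm : (IntermediateField.adjoin F {x}) →+* RatFunc F)
        (algebraMap F (IntermediateField.adjoin F {x}) a) = algebraMap F (RatFunc F) a :=
      e.symm.commutes a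
    rw [h, val_ext_ratFunc]

theorem val_ext_le_one {F K : Type} [Field F] [CharZero F] [Field K] [Algebra F K]
    [Algebra.EssFiniteType F K] (v : Valuation F ℤᵐ⁰) :
    ∃ w : Valuation K ℤᵐ⁰, ∀ a : F, w (algebraMap F K a) ≤ 1 ↔ v a ≤ 1 := by
  have h := IntermediateField.induction_on_adjoin_fg
    (fun L : IntermediateField F K => ∃ w : Valuation L ℤᵐ⁰, ∀ a : F,
      w (algebraMap F L a) ≤ 1 ↔ v a ≤ 1) ?_ ?_ ⊤ (IntermediateField.fg_top F K)
  · obtain ⟨w, hw⟩ := h
    refine ⟨w.comap (IntermediateField.topEquiv (F := F) (E := K)).symm, fun a => ?_⟩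
    rw [← hw a, Valuation.comap_apply]
    have : ((IntermediateField.topEquiv (F := F) (E := K)).symm : K →+* _) (algebraMap F K a) =
        algebraMap F (⊤ : IntermediateField F K) a :=
      (IntermediateField.topEquiv (F := F) (E := K)).symm.commutes a
    rw [this]
  · refine ⟨v.comap (IntermediateField.botEquiv F K), fun a => ?_⟩
    rw [Valuation.comap_apply]
    have : ((IntermediateField.botEquiv F K) : _ →+* F)
        (algebraMap F (⊥ : IntermediateField F K) a) = a :=
      (IntermediateField.botEquiv F K).commutes a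
    rw [this]
  · rintro L x ⟨wL, hwL⟩
    obtain ⟨w, hw⟩ := val_ext_simple x wL
    refine ⟨w, fun a => ?_⟩
    rw [← hwL a, ← hw (algebraMap F L a)]
    rfl

theorem val_ext {F K : Type} [Field F] [CharZero F] [Field K] [Algebra F K]
    [Algebra.EssFiniteType F K] (v : Valuation F ℤᵐ⁰) :
    ∃ w : Valuation K ℤᵐ⁰, ∀ a b : F,
      w (algebraMap F K a) ≤ w (algebraMap F K b) ↔ v a ≤ v b := by
  obtain ⟨w, hw⟩ := val_ext_le_one (K := K) v
  refine ⟨w, fun a b => ?_⟩
  by_cases hb : b = 0
  · rw [hb, map_zero, map_zero, map_zero, le_zero_iff, le_zero_iff, Valuation.zero_iff,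
      Valuation.zero_iff, map_eq_zero]
  · have hb1 : 0 < v b := zero_lt_iff.2 ((Valuation.ne_zero_iff v).2 hb)
    have hb2 : 0 < w (algebraMap F K b) :=
      zero_lt_iff.2 ((Valuation.ne_zero_iff w).2 ((map_ne_zero _).2 hb))
    have h := hw (a / b)
    rwa [map_div₀, map_div₀, map_div₀, div_le_one₀ hb1, div_le_one₀ hb2] at h

end Pool.Agent.Work.CI
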