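import Mathlib
import Pool.Agent.Work.MP_4329d7_ag_ci.Quot
import Pool.Agent.Work.MP_4329d7_ag_ci.ValExt
import Pool.Agent.Work.MP_4329d7_ag_ci.SubEss

/-!
Toric quotients: the field generated by the monomials `x ^ (χ i)` has data (as soon as the
dimension is the expected one), with the equations which live on the quotient torus.
-/

namespace Pool.Agent.Work.CI

open Pool.Agent.Work.Uni

variable {K : Type} [Field K] [Algebra ℂ K] {n d : ℕ} {Q : Type} [Fintype Q]
  {x : Fin d → K} {f : Q → Lau d}

section subaux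

variable {F L : Type} [Field F] [Field L] [Algebra ℂ F] [Algebra ℂ L] [Algebra F L]
  [IsScalarTower ℂ F L] {m : ℕ}

theorem sub_map_mon (y : Fin m → F) (u : Fin m → ℤ) :
    algebraMap F L (mon y u) = mon (fun i => algebraMap F L (y i)) u := by
  unfold mon
  rw [map_prod]
  exact Finset.prod_congr rfl fun i _ => map_zpow₀ _ _ _

theorem sub_map_ev (g : Lau m) (y : Fin m → F) :
    algebraMap F L (ev g y) = ev g (fun i => algebraMap F L (y i)) := by
  unfold ev
  rw [map_sum]
  refine Finset.sum_congr rfl fun u _ => ?_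
  rw [map_mul, sub_map_mon, ← IsScalarTower.algebraMap_apply]

theorem sub_map_ldv (g : Lau m) (j : Fin m) (y : Fin m → F) :
    algebraMap F L (ldv g j y) = ldv g j (fun i => algebraMap F L (y i)) := by
  unfold ldv
  rw [map_sum]
  refine Finset.sum_congr rfl fun u _ => ?_
  rw [map_mul, map_mul, map_intCast, sub_map_mon, ← IsScalarTower.algebraMap_apply]

end subaux

theorem data_sub [Algebra.EssFiniteType ℂ K] (D : Data K n d Q x f) {d' p : ℕ}
    (χ : Fin d' → Fin d → ℤ) (hχ : LinearIndependent ℤ χ)
    (htr : Algebra.trdeg ℂ (subF x χ) = p)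
    (hdim : p + Nat.card {q : Q // ∀ a ∈ (f q).support, ∀ b ∈ (f q).support,
      a - b ∈ Submodule.span ℤ (Set.range χ)} = d') :
    ∃ (Q' : Type) (_ : Fintype Q') (x' : Fin d' → subF x χ) (f' : Q' → Lau d'),
      Data (subF x χ) p d' Q' x' f' := by
  classical
  let Q' : Type := {q : Q // ∀ a ∈ (f q).support, ∀ b ∈ (f q).support,
      a - b ∈ Submodule.span ℤ (Set.range χ)}
  have hmem : ∀ i, mon x (χ i) ∈ subF x χ := fun i =>
    IntermediateField.subset_adjoin ℂ _ ⟨i, rfl⟩
  let x' : Fin d' → subF x χ := fun i => ⟨mon x (χ i), hmem i⟩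
  have hx'0 : ∀ i, algebraMap (subF x χ) K (x' i) = mon x (χ i) := fun i => rfl
  have hex : ∀ q, ∃ a, a ∈ (f q).support := fun q => Finsupp.support_nonempty_iff.2 (D.nz q)
  choose c hc using hex
  have hrange : ∀ q : Q', ∀ a ∈ (f q.1).support, a ∈ Set.range (quotMap (c q.1) χ) := by
    intro q a ha
    have h1 := q.2 a ha (c q.1) (hc q.1)
    rw [Submodule.mem_span_range_iff_exists_fun] at h1
    obtain ⟨u, hu⟩ := h1
    exact ⟨u, by unfold quotMap; rw [hu]; abel⟩
  let f' : Q' → Lau d' := fun q => quotLau (c q.1) χ hχ (f q.1)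
  have hcardQ : Fintype.card Q' = Nat.card Q' := (Nat.card_eq_fintype_card).symm
  have hdim' : p + Fintype.card Q' = d' := by rw [hcardQ]; exact hdim
  have hevK : ∀ g : Lau d', algebraMap (subF x χ) K (ev g x') = ev g (fun i => mon x (χ i)) :=
    fun g => sub_map_ev g x'
  have hldvK : ∀ (g : Lau d') (j : Fin d'),
      algebraMap (subF x χ) K (ldv g j x') = ldv g j (fun i => mon x (χ i)) :=
    fun g j => sub_map_ldv g j x'
  have hmonK : ∀ u : Fin d' → ℤ,
      algebraMap (subF x χ) K (mon x' u) = mon (fun i => mon x (χ i)) u :=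
    fun u => sub_map_mon x' u
  have hinjK : Function.Injective (algebraMap (subF x χ) K) := (algebraMap (subF x χ) K).injective
  refine ⟨Q', inferInstance, x', f', ?_, ?_, ?_, ?_, htr, hdim', ?_⟩
  · -- ne
    intro i h
    have h1 := congrArg (algebraMap (subF x χ) K) h
    rw [hx'0, map_zero] at h1
    exact mon_ne_zero D.ne _ h1
  · -- gen
    have h1 : (IntermediateField.adjoin ℂ (Set.range x')).map (subF x χ).val = subF x χ := by
      rw [IntermediateField.adjoin_map]
      congr 1
      rw [← Set.range_comp]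
      rfl
    apply IntermediateField.map_injective (subF x χ).val
    rw [h1, ← AlgHom.fieldRange_eq_map, IntermediateField.fieldRange_val]
  · -- eq
    intro q
    apply hinjK
    rw [hevK, map_zero]
    have h1 := quotLau_ev (hX := hχ) (hrange q) D.ne
    rw [D.eq] at h1
    exact (mul_eq_zero.1 h1.symm).resolve_left (mon_ne_zero D.ne _)
  · -- nz
    intro q h
    obtain ⟨u, hu⟩ := hrange q (c q.1) (hc q.1)
    have h1 : u ∈ (f' q).support := quotLau_mem.2 (by rw [hu]; exact hc q.1)
    rw [h] at h1
    simp at h1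
  · -- loc
    intro v hv a q u hu
    have : Algebra.EssFiniteType (subF x χ) K := Algebra.EssFiniteType.of_comp ℂ (subF x χ) K
    obtain ⟨w, hw⟩ := val_ext (F := subF x χ) (K := K) v
    have hw1 : ∀ b : ℂ, w (algebraMap ℂ K b) ≤ 1 := by
      intro b
      have h1 := (hw (algebraMap ℂ (subF x χ) b) 1).2 (by rw [map_one]; exact hv b)
      rw [map_one, map_one, ← IsScalarTower.algebraMap_apply] at h1
      exact h1
    let A : Q → K := fun q =>
      if h : ∀ a ∈ (f q).support, ∀ b ∈ (f q).support, a - b ∈ Submodule.span ℤ (Set.range χ)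
      then algebraMap (subF x χ) K (a ⟨q, h⟩) * (mon x (c q))⁻¹ else 0
    have hu' : quotMap (c q.1) χ u ∈ (f q.1).support := quotLau_mem.1 hu
    obtain ⟨j, hj⟩ := D.loc w hw1 A q.1 _ hu'
    have hA : ∀ q' : Q', A q'.1 = algebraMap (subF x χ) K (a q') * (mon x (c q'.1))⁻¹ := by
      intro q'
      simp only [A]
      rw [dif_pos q'.2]
    have hm : mon x (quotMap (c q.1) χ u) = mon x (c q.1) * mon (fun i => mon x (χ i)) u := by
      unfold quotMap
      rw [mon_add D.ne, quot_mon_sum D.ne]
    have hleft : w (A q.1) * w (mon x (quotMap (c q.1) χ u))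
        = w (algebraMap (subF x χ) K (a q * mon x' u)) := by
      rw [← map_mul, hA, hm, map_mul (algebraMap (subF x χ) K), hmonK]
      congr 1
      have := mon_ne_zero D.ne (c q.1)
      field_simp
    have hright : ∑ q', A q' * ldv (f q') j x
        = ∑ i, (χ i j : K) *
          algebraMap (subF x χ) K (∑ q' : Q', a q' * ldv (f' q') i x') := by
      have h1 : ∑ q', A q' * ldv (f q') j x = ∑ q' : Q', A q'.1 * ldv (f q'.1) j x := by
        have h3 : ∑ q' : Q', A q'.1 * ldv (f q'.1) j x
            = ∑ q' ∈ Finset.univ.filter (fun q => ∀ a ∈ (f q).support, ∀ b ∈ (f q).support,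
              a - b ∈ Submodule.span ℤ (Set.range χ)), A q' * ldv (f q') j x :=
          (Finset.sum_subtype (Finset.univ.filter (fun q => ∀ a ∈ (f q).support,
            ∀ b ∈ (f q).support, a - b ∈ Submodule.span ℤ (Set.range χ))) (by simp)
            (fun q' => A q' * ldv (f q') j x)).symm
        rw [h3]
        refine (Finset.sum_subset (Finset.filter_subset _ _) fun q' _ hq' => ?_).symm
        rw [Finset.mem_filter] at hq'
        have h4 : ¬ ∀ a ∈ (f q').support, ∀ b ∈ (f q').support,
            a - b ∈ Submodule.span ℤ (Set.range χ) := fun h => hq' ⟨Finset.mem_univ _, h⟩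
        simp only [A]
        rw [dif_neg h4, zero_mul]
      rw [h1]
      simp only [map_sum, map_mul, hldvK, Finset.mul_sum]
      rw [Finset.sum_comm]
      refine Finset.sum_congr rfl fun q' _ => ?_
      rw [quotLau_ldv (hX := hχ) (hrange q') D.ne (D.eq _), hA q', Finset.mul_sum,
        Finset.mul_sum]
      refine Finset.sum_congr rfl fun i _ => ?_
      have h5 := mon_ne_zero D.ne (c q'.1)
      simp only [f']
      field_simp
    have hpos : 0 < d' := by
      have h1 : 0 < Fintype.card Q' := Fintype.card_pos_iff.2 ⟨q⟩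
      omega
    have hint : ∀ k : ℤ, w (k : K) ≤ 1 := fun k => by
      have h1 := hw1 (k : ℂ)
      rwa [map_intCast] at h1
    obtain ⟨i, -, hi⟩ := Finset.exists_max_image (Finset.univ : Finset (Fin d'))
      (fun i => w (algebraMap (subF x χ) K (∑ q' : Q', a q' * ldv (f' q') i x')))
      ⟨⟨0, hpos⟩, Finset.mem_univ _⟩
    refine ⟨i, ?_⟩
    rw [← map_mul]
    apply (hw _ _).1
    rw [← hleft]
    refine hj.trans ?_
    rw [hright]
    refine Valuation.map_sum_le w fun i' _ => ?_
    rw [map_mul]
    calc w (χ i' j : K) * w (algebraMap (subF x χ) K (∑ q' : Q', a q' * ldv (f' q') i' x'))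
        ≤ 1 * w (algebraMap (subF x χ) K (∑ q' : Q', a q' * ldv (f' q') i' x')) :=
          mul_le_mul_left (hint _) _
      _ = w (algebraMap (subF x χ) K (∑ q' : Q', a q' * ldv (f' q') i' x')) := one_mul _
      _ ≤ _ := hi i' (Finset.mem_univ _)

end Pool.Agent.Work.CI
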