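import Mathlib
import Pool.Agent.Work.MP_4329d7_ag_ci.Main
import Pool.Agent.Work.MP_4329d7_ag_ci.Sub
import Pool.Agent.Work.MP_4329d7_ag_ci.Pull

/-!
THEOREM V+: for every `d` there is one exponent `M` such that for every nondegenerate complete
intersection `X` in the torus of dimension `d` and every `p`: if `X` has no regular sections of
`(Ω ^ p) ^ {⊗ M}` then every toric quotient of `X` of dimension `p` is uniruled.
-/

namespace Pool.Agent.Work.CI

open Pool.Agent.Work.Uni Pool.Agent.Work.MP_4329d7_ag.FF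

theorem main_data (d : ℕ) : ∃ M : ℕ, 0 < M ∧
    ∀ (K : Type) [Field K] [Algebra ℂ K] [Algebra.EssFiniteType ℂ K] (n d₀ : ℕ) (Q : Type)
      [Fintype Q] (x : Fin d₀ → K) (f : Q → Lau d₀), Data K n d₀ Q x f → d₀ ≤ d →
      ¬ Uniruled K →
      ∃ T : TensorForm K (M * n), IsPluricanonical M n T ∧ IsRegular T ∧ T ≠ 0 := by
  classical
  choose M hM hMw using unif_point
  refine ⟨2 * ∏ j ∈ Finset.range (d + 1), M j,
    Nat.mul_pos two_pos (Finset.prod_pos fun j _ => hM j), ?_⟩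
  intro K _ _ _ n d₀ Q _ x f D₀ hd₀ hK
  obtain ⟨d', Q', _, x', f', D, hd', w, M₀, hM₀, hw⟩ :=
    main_aux n hK (Fintype.card Q + 1) d₀ Q x f D₀ (Nat.lt_succ_self _)
  obtain ⟨w', hw'⟩ := hMw d' Q' f' D.nz w M₀ hM₀ hw
  obtain ⟨c, hc⟩ : M d' ∣ ∏ j ∈ Finset.range (d + 1), M j :=
    Finset.dvd_prod_of_mem M (Finset.mem_range.2 (by omega))
  have hprod : 0 < ∏ j ∈ Finset.range (d + 1), M j := Finset.prod_pos fun j _ => hM j
  exact exists_form D ((c : ℤ) • w') (∏ j ∈ Finset.range (d + 1), M j)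
    hprod (by
      intro b hb
      have h1 := hw' b hb
      have h2 : pair ((c : ℤ) • w') b = c * pair w' b := by
        unfold pair
        rw [Finset.mul_sum]
        exact Finset.sum_congr rfl fun j _ => by simp [mul_assoc]
      rw [h2, hc]
      push_cast
      have h3 : (0 : ℤ) ≤ c := Int.natCast_nonneg c
      nlinarith)

/-- THEOREM V+ -/
theorem main_plus (d : ℕ) : ∃ M : ℕ, 0 < M ∧
    ∀ (K : Type) [Field K] [Algebra ℂ K] [Algebra.EssFiniteType ℂ K] (n : ℕ) (Q : Type)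
      [Fintype Q] (x : Fin d → K) (f : Q → Lau d), Nondegenerate f →
      (∀ j, x j ≠ 0) → IntermediateField.adjoin ℂ (Set.range x) = ⊤ → (∀ q, ev (f q) x = 0) →
      Algebra.trdeg ℂ K = n → n + Fintype.card Q = d →
      ∀ (p d' : ℕ) (χ : Fin d' → Fin d → ℤ), LinearIndependent ℤ χ →
      Algebra.trdeg ℂ (subF x χ) = p →
      p + Nat.card {q : Q // ∀ a ∈ (f q).support, ∀ b ∈ (f q).support,
        a - b ∈ Submodule.span ℤ (Set.range χ)} = d' →
      (∀ T : TensorForm K (M * p), IsPluricanonical M p T → IsRegular T → T = 0) →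
      Uniruled (subF x χ) := by
  classical
  obtain ⟨M, hM, h⟩ := main_data d
  refine ⟨M, hM, ?_⟩
  intro K _ _ _ n Q _ x f hf ne gen eq trdeg dim p d' χ hχ htr hdim hT
  by_contra hK
  obtain ⟨Q', _, x', f', D'⟩ := data_sub (data_of_nondegenerate hf ne gen eq trdeg dim) χ hχ
    htr hdim
  have hle : d' ≤ d := by
    have h1 := hχ.fintype_card_le_finrank
    simpa using h1
  have := subF_essFinite x χ
  obtain ⟨T, h1, h2, h3⟩ := h (subF x χ) p d' Q' x' f' D' hle hK
  obtain ⟨T', h1', h2', h3'⟩ := exists_pull (K := K) htr T h1 h2 h3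
  exact h3' (hT T' h1' h2')

end Pool.Agent.Work.CI
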