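import Mathlib
import Pool.Agent.Work.MP_4329d7_ag_ci.MainP

/-!
One exponent for nondegenerate complete intersections in tori: for every `d` there is `M > 0` such
that for every nondegenerate complete intersection `X` in the torus of dimension `d` (any Newton
polytopes, any number of equations) and every toric quotient of `X` of dimension `p` which is cut
out by the equations living on the quotient torus: if `X` has no nonzero regular sections of
`(Ω ^ p) ^ {⊗ M}` then the quotient is uniruled.  For `p = dim X` the quotient can be `X` itself.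
-/

namespace Pool.Agent.Work.CI.HandCI

open Pool.Agent.Work.MP_4329d7_ag.FF Pool.Agent.Work.Uni Pool.Agent.Work.CI

theorem result (d : ℕ) : ∃ M : ℕ, 0 < M ∧
    ∀ (K : Type) [Field K] [Algebra ℂ K] [Algebra.EssFiniteType ℂ K] (n : ℕ) (Q : Type)
      [Fintype Q] (x : Fin d → K) (f : Q → Lau d), Nondegenerate f →
      (∀ j, x j ≠ 0) → IntermediateField.adjoin ℂ (Set.range x) = ⊤ → (∀ q, ev (f q) x = 0) →
      Algebra.trdeg ℂ K = n → n + Fintype.card Q = d →
      ∀ (p e : ℕ) (χ : Fin e → Fin d → ℤ), LinearIndependent ℤ χ →
      Algebra.trdeg ℂ (subF x χ) = p →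
      p + Nat.card {q : Q // ∀ a ∈ (f q).support, ∀ b ∈ (f q).support,
        a - b ∈ Submodule.span ℤ (Set.range χ)} = e →
      (∀ T : TensorForm K (M * p), IsPluricanonical M p T → IsRegular T → T = 0) →
      Uniruled (subF x χ) :=
  main_plus d

end Pool.Agent.Work.CI.HandCI
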